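import Pool.Agent.Lib.MP_afdd4d_co.T1S.Facts

/-!
MP_afdd4d_co, T1S: with a good root there is a colouring with few monochromatic members.
-/

set_option autoImplicit false

namespace Pool.Agent.Lib.MP_afdd4d_co.T1S

open Finset

section cs

theorem card_sq_le {α β : Type*} [DecidableEq α] [DecidableEq β] [Fintype β] (F : Finset α)
    (f : α → β) :
    F.card ^ 2 ≤ Fintype.card β * ((F ×ˢ F).filter fun q => f q.1 = f q.2).card := by
  have h1 : F.card = ∑ b : β, (F.filter fun p => f p = b).card :=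
    card_eq_sum_card_fiberwise (fun p _ => mem_univ (f p))
  have h2 : ((F ×ˢ F).filter fun q => f q.1 = f q.2).card =
      ∑ b : β, (F.filter fun p => f p = b).card ^ 2 := by
    rw [card_eq_sum_card_fiberwise (f := fun q : α × α => f q.1) (t := univ)
      (fun p _ => mem_univ _)]
    apply sum_congr rfl
    intro b _
    rw [sq, ← card_product]
    congr 1
    ext q
    simp only [mem_filter, mem_product]
    constructor
    · rintro ⟨⟨⟨h1, h2⟩, h3⟩, h4⟩
      exact ⟨⟨h1, h4⟩, h2, by rw [← h3, h4]⟩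
    · rintro ⟨⟨h1, h2⟩, h3, h4⟩
      exact ⟨⟨⟨h1, h3⟩, by rw [h2, h4]⟩, h2⟩
  rw [h2, h1]
  exact sq_sum_le_card_mul_sum_sq

end cs

section count
variable {n : ℕ}

theorem card_meets (A : Finset (Fin n)) (F : Finset (Finset (Fin n))) (h4 : ∀ e ∈ F, e.card = 4)
    (hA : ∀ e ∈ F, ∃ a ∈ A, a ∈ e) : F.card ≤ A.card * n ^ 3 := by
  have h1 : F ⊆ A.biUnion fun a => (univ.powersetCard 3).image (insert a) := by
    intro e he
    obtain ⟨a, ha, hae⟩ := hA e he
    rw [mem_biUnion]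
    refine ⟨a, ha, ?_⟩
    rw [mem_image]
    refine ⟨e.erase a, ?_, insert_erase hae⟩
    rw [mem_powersetCard]
    exact ⟨subset_univ _, by rw [card_erase_of_mem hae, h4 e he]⟩
  calc F.card ≤ _ := card_le_card h1
    _ ≤ ∑ a ∈ A, ((univ.powersetCard 3).image (insert a)).card := card_biUnion_le
    _ ≤ ∑ a ∈ A, n ^ 3 := by
        apply sum_le_sum
        intro a _
        calc _ ≤ (univ.powersetCard 3 : Finset (Finset (Fin n))).card := card_image_le
          _ = n.choose 3 := by rw [card_powersetCard, card_univ, Fintype.card_fin]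
          _ ≤ n ^ 3 := Nat.choose_le_pow n 3
    _ = A.card * n ^ 3 := by rw [sum_const, smul_eq_mul]

variable (H : Finset (Finset (Fin n))) (K : Finset (Fin n))

open Classical in
/-- the points whose link is not constant on `J` -/
noncomputable def UJ (J : Finset (Fin n)) : Finset (Fin n) :=
  univ.filter fun x => x ∉ K ∧ (∃ s ⊆ J, s.card = 3 ∧ insert x s ∈ H) ∧
    ∃ s ⊆ J, s.card = 3 ∧ insert x s ∉ H

theorem UJ_sq (hind : ∀ e ⊆ K, e.card = 4 → e ∉ H) (J : Finset (Fin n)) (hJ : J ⊆ K)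
    (hJc : J.card = 6) : (UJ H K J).card ^ 2 ≤ (Bad2 H K).card + n := by
  classical
  have h1 : UJ H K J ×ˢ UJ H K J ⊆ Bad2 H K ∪ univ.image fun x : Fin n => (x, x) := by
    intro p hp
    rw [mem_product] at hp
    by_cases hpe : p.1 = p.2
    · rw [mem_union, mem_image]
      right
      exact ⟨p.1, mem_univ _, Prod.ext rfl hpe⟩
    · rw [mem_union]
      left
      rw [UJ, mem_filter, mem_filter] at hp
      obtain ⟨⟨-, hx, hx1, hx0⟩, -, hy, hy1, hy0⟩ := hp
      rw [Bad2, mem_filter]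
      refine ⟨mem_univ _, hx, hy, hpe, J, hJ, hJc, ?_⟩
      exact factU H J p.1 p.2 hJc (fun h => hx (hJ h)) (fun h => hy (hJ h)) hpe
        (fun e he hec => hind e (he.trans hJ) hec) hx1 hx0 hy1 hy0
  calc (UJ H K J).card ^ 2 = (UJ H K J ×ˢ UJ H K J).card := by rw [card_product, sq]
    _ ≤ _ := card_le_card h1
    _ ≤ (Bad2 H K).card + (univ.image fun x : Fin n => (x, x)).card := card_union_le _ _
    _ ≤ (Bad2 H K).card + n := by
        gcongr
        calc _ ≤ (univ : Finset (Fin n)).card := card_image_le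
          _ = n := by rw [card_univ, Fintype.card_fin]

open Classical in
/-- ordered triples whose link is different from the links of their points on `J` -/
noncomputable def FJ (J : Finset (Fin n)) (a : Bool) : Finset (Fin n × Fin n × Fin n) :=
  univ.filter fun p => (p.1 ∉ K ∧ p.2.1 ∉ K ∧ p.2.2 ∉ K) ∧
    (p.1 ≠ p.2.1 ∧ p.1 ≠ p.2.2 ∧ p.2.1 ≠ p.2.2) ∧
    ((∀ s ⊆ J, s.card = 3 → (insert p.1 s ∈ H ↔ a = true)) ∧
    (∀ s ⊆ J, s.card = 3 → (insert p.2.1 s ∈ H ↔ a = true)) ∧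
    (∀ s ⊆ J, s.card = 3 → (insert p.2.2 s ∈ H ↔ a = true))) ∧
    ∀ k ∈ J, (({p.1, p.2.1, p.2.2, k} : Finset (Fin n)) ∈ H ↔ ¬ a = true)

theorem FJ_sq (hind : ∀ e ⊆ K, e.card = 4 → e ∉ H) (J : Finset (Fin n)) (hJ : J ⊆ K)
    (hJc : J.card = 4) (a : Bool) :
    (FJ H K J a).card ^ 2 ≤ n ^ 2 * ((Bad4 H K).card + n ^ 3) := by
  classical
  have h1 := card_sq_le (FJ H K J a) (fun p => (p.1, p.2.1))
  have h2 : Fintype.card (Fin n × Fin n) = n ^ 2 := by
    rw [Fintype.card_prod, Fintype.card_fin, sq]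
  rw [h2] at h1
  refine h1.trans (Nat.mul_le_mul_left _ ?_)
  set P := ((FJ H K J a ×ˢ FJ H K J a).filter fun q => (q.1.1, q.1.2.1) = (q.2.1, q.2.2.1)) with hP
  let g : (Fin n × Fin n × Fin n) × (Fin n × Fin n × Fin n) → Fin n × Fin n × Fin n × Fin n :=
    fun q => (q.1.1, q.1.2.1, q.1.2.2, q.2.2.2)
  have hg : Set.InjOn g P := by
    intro q hq q' hq' h
    rw [mem_coe, hP, mem_filter] at hq hq'
    have e1 := hq.2
    have e2 := hq'.2
    simp only [g, Prod.mk.injEq] at h e1 e2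
    obtain ⟨h1, h2, h3, h4⟩ := h
    obtain ⟨⟨a1, a2, a3⟩, b1, b2, b3⟩ := q
    obtain ⟨⟨c1, c2, c3⟩, d1, d2, d3⟩ := q'
    simp only at *
    obtain ⟨rfl, rfl⟩ := e1
    obtain ⟨rfl, rfl⟩ := e2
    subst h1 h2 h3 h4
    rfl
  have h3 : P.image g ⊆ Bad4 H K ∪
      univ.image fun p : Fin n × Fin n × Fin n => (p.1, p.2.1, p.2.2, p.2.2) := by
    intro p hp
    rw [mem_image] at hp
    obtain ⟨q, hq, rfl⟩ := hp
    rw [hP, mem_filter, mem_product] at hq
    obtain ⟨⟨hq1, hq2⟩, hq3⟩ := hq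
    obtain ⟨⟨x, y, z⟩, x', y', w⟩ := q
    simp only [Prod.mk.injEq] at hq3
    obtain ⟨rfl, rfl⟩ := hq3
    by_cases hzw : z = w
    · rw [mem_union, mem_image]
      right
      exact ⟨(x, y, z), mem_univ _, by simp only [g, hzw]⟩
    · rw [mem_union]
      left
      rw [FJ, mem_filter] at hq1 hq2
      obtain ⟨-, ⟨hx, hy, hz⟩, ⟨hxy, hxz, hyz⟩, ⟨lx, ly, lz⟩, f1⟩ := hq1
      obtain ⟨-, ⟨-, -, hw⟩, ⟨-, hxw, hyw⟩, ⟨-, -, lw⟩, f2⟩ := hq2
      rw [Bad4, mem_filter]
      refine ⟨mem_univ _, hx, hy, hz, hw, hxy, hxz, hxw, hyz, hyw, hzw, J, hJ, hJc, ?_⟩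
      exact factAB H J hJc (hind J hJ hJc) x y z w (fun h => hx (hJ h)) (fun h => hy (hJ h))
        (fun h => hz (hJ h)) (fun h => hw (hJ h)) hxy hxz hxw hyz hyw hzw (a = true) lx ly lz lw
        f1 f2
  calc P.card = (P.image g).card := (card_image_of_injOn hg).symm
    _ ≤ _ := card_le_card h3
    _ ≤ (Bad4 H K).card +
        (univ.image fun p : Fin n × Fin n × Fin n => (p.1, p.2.1, p.2.2, p.2.2)).card :=
        card_union_le _ _
    _ ≤ (Bad4 H K).card + n ^ 3 := by
        gcongr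
        calc _ ≤ (univ : Finset (Fin n × Fin n × Fin n)).card := card_image_le
          _ = n ^ 3 := by
            rw [card_univ, Fintype.card_prod, Fintype.card_prod, Fintype.card_fin]
            ring

theorem edge_flip (hH : EvenFive H) (hK : K.card = 13) (X : Finset (Fin n)) (hX : X ∈ H)
    (hXc : X.card = 4) (hXK : ∀ x ∈ X, x ∉ K) (a : Bool) :
    ∃ T ⊆ X, T.card = 3 ∧ ∃ J ⊆ K, J.card = 4 ∧ ∀ k ∈ J, (insert k T ∈ H ↔ ¬ a = true) := by
  classical
  have h1 : ∀ k ∈ K, ∃ T ∈ X.powersetCard 3, (insert k T ∈ H ↔ ¬ a = true) := by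
    intro k hk
    by_contra hcon
    push Not at hcon
    refine even_link hH (x := k) (Q := X) (fun h => hXK k h hk) hXc (c := a) ?_ hX
    intro Z hZ hZc
    have h2 := hcon Z (by rw [mem_powersetCard]; exact ⟨hZ, hZc⟩)
    by_cases h3 : insert k Z ∈ H <;> cases a <;> simp_all
  choose! g hg1 hg2 using h1
  have h2 : (X.powersetCard 3).card * 3 < K.card := by
    rw [card_powersetCard, hXc, hK]
    decide
  obtain ⟨T, hT, hT2⟩ := exists_lt_card_fiber_of_mul_lt_card_of_maps_to hg1 h2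
  obtain ⟨J, hJ, hJc⟩ := exists_subset_card_eq (s := K.filter fun k => g k = T) (n := 4) hT2
  rw [mem_powersetCard] at hT
  refine ⟨T, hT.1, hT.2, J, hJ.trans (filter_subset _ _), hJc, fun k hk => ?_⟩
  have h3 := hJ hk
  rw [mem_filter] at h3
  rw [← h3.2]
  exact hg2 k h3.1

open Classical in
theorem mono_card (hH : EvenFive H) (h4 : ∀ e ∈ H, e.card = 4) (hK : K.card = 13)
    (δ : ℝ)
    (hU : ∀ J ⊆ K, J.card = 6 → ((UJ H K J).card : ℝ) ≤ δ * n)
    (hF : ∀ J ⊆ K, J.card = 4 → ∀ a, ((FJ H K J a).card : ℝ) ≤ δ * (n : ℝ) ^ 3) :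
    ∃ χ : Fin n → Bool, ((H.filter fun e => ∀ x ∈ e, ∀ y ∈ e, χ x = χ y).card : ℝ) ≤
      13 * (n : ℝ) ^ 3 + 3146 * δ * (n : ℝ) ^ 4 := by
  obtain ⟨J0, hJ0, hJ0c⟩ := exists_subset_card_eq (s := K) (n := 3) (by omega)
  let χ : Fin n → Bool := fun x => decide (insert x J0 ∈ H)
  refine ⟨χ, ?_⟩
  set A : Finset (Fin n) := K ∪ (K.powersetCard 6).biUnion fun J => UJ H K J with hA
  set M := H.filter fun e => ∀ x ∈ e, ∀ y ∈ e, χ x = χ y with hM
  set F1 := M.filter fun e => ∃ a ∈ A, a ∈ e with hF1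
  set F2 : Finset (Finset (Fin n)) := (K.powersetCard 4).biUnion fun J =>
    (univ : Finset Bool).biUnion fun a =>
      (FJ H K J a ×ˢ (univ : Finset (Fin n))).image fun q =>
        (insert q.2 {q.1.1, q.1.2.1, q.1.2.2} : Finset (Fin n)) with hF2
  have hlink : ∀ x, x ∉ A → ∀ s ⊆ K, s.card = 3 → (insert x s ∈ H ↔ χ x = true) := by
    intro x hx s hs hsc
    have hx1 : x ∉ K := fun h => hx (mem_union_left _ h)
    obtain ⟨J, hJ1, hJ2, hJ3⟩ := exists_subsuperset_card_eq (s := s ∪ J0) (t := K) (n := 6)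
      (union_subset hs hJ0) ((card_union_le _ _).trans (by omega)) (by omega)
    have hx2 : x ∉ UJ H K J := by
      intro h
      apply hx
      rw [hA, mem_union, mem_biUnion]
      right
      exact ⟨J, by rw [mem_powersetCard]; exact ⟨hJ2, hJ3⟩, h⟩
    have hx3 : ¬ ((∃ s ⊆ J, s.card = 3 ∧ insert x s ∈ H) ∧
        ∃ s ⊆ J, s.card = 3 ∧ insert x s ∉ H) := by
      intro h
      apply hx2
      rw [UJ, mem_filter]
      exact ⟨mem_univ _, hx1, h⟩
    have hsJ : s ⊆ J := subset_union_left.trans hJ1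
    have h0J : J0 ⊆ J := subset_union_right.trans hJ1
    have e0 : χ x = true ↔ insert x J0 ∈ H := by
      show decide (insert x J0 ∈ H) = true ↔ _
      exact decide_eq_true_iff
    rw [e0]
    constructor
    · intro h
      by_contra h'
      exact hx3 ⟨⟨s, hsJ, hsc, h⟩, J0, h0J, hJ0c, h'⟩
    · intro h
      by_contra h'
      exact hx3 ⟨⟨J0, h0J, hJ0c, h⟩, s, hsJ, hsc, h'⟩
  have hsub : M ⊆ F1 ∪ F2 := by
    intro X hX
    by_cases hXA : ∃ a ∈ A, a ∈ X
    · rw [mem_union, hF1, mem_filter]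
      exact Or.inl ⟨hX, hXA⟩
    · rw [mem_union]
      right
      push Not at hXA
      have hXA' : ∀ x ∈ X, x ∉ A := fun x hx h => hXA x h hx
      rw [hM, mem_filter] at hX
      obtain ⟨hXH, hXm⟩ := hX
      have hXc := h4 X hXH
      obtain ⟨x0, hx0⟩ : X.Nonempty := card_pos.1 (by omega)
      obtain ⟨T, hT, hTc, J, hJ, hJc, hJT⟩ := edge_flip H K hH hK X hXH hXc
        (fun x hx h => hXA' x hx (mem_union_left _ h)) (χ x0)
      obtain ⟨x, y, z, hxy, hxz, hyz, rfl⟩ := card_eq_three.1 hTc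
      have hx : x ∈ X := hT (by simp)
      have hy : y ∈ X := hT (by simp)
      have hz : z ∈ X := hT (by simp)
      obtain ⟨w, hw⟩ : (X \ {x, y, z}).Nonempty := by
        rw [← card_pos, card_sdiff_of_subset hT]
        omega
      rw [mem_sdiff] at hw
      have hXeq : X = insert w {x, y, z} := by
        symm
        apply eq_of_subset_of_card_le
        · exact insert_subset hw.1 hT
        · rw [card_insert_of_notMem hw.2, hTc, hXc]
      rw [hF2, mem_biUnion]
      refine ⟨J, by rw [mem_powersetCard]; exact ⟨hJ, hJc⟩, ?_⟩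
      rw [mem_biUnion]
      refine ⟨χ x0, mem_univ _, ?_⟩
      rw [mem_image]
      refine ⟨((x, y, z), w), ?_, hXeq.symm⟩
      rw [mem_product]
      refine ⟨?_, mem_univ _⟩
      rw [FJ, mem_filter]
      refine ⟨mem_univ _, ⟨fun h => hXA' x hx (mem_union_left _ h),
        fun h => hXA' y hy (mem_union_left _ h), fun h => hXA' z hz (mem_union_left _ h)⟩,
        ⟨hxy, hxz, hyz⟩, ⟨?_, ?_, ?_⟩, ?_⟩
      · intro s hs hsc
        rw [hXm x0 hx0 x hx]
        exact hlink x (hXA' x hx) s (hs.trans hJ) hsc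
      · intro s hs hsc
        rw [hXm x0 hx0 y hy]
        exact hlink y (hXA' y hy) s (hs.trans hJ) hsc
      · intro s hs hsc
        rw [hXm x0 hx0 z hz]
        exact hlink z (hXA' z hz) s (hs.trans hJ) hsc
      · intro k hk
        rw [← hJT k hk]
        have e1 : ({x, y, z, k} : Finset (Fin n)) = insert k {x, y, z} := by
          ext u
          simp only [mem_insert, mem_singleton]
          tauto
        show ({x, y, z, k} : Finset (Fin n)) ∈ H ↔ _
        rw [e1]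
  have hF1c : (F1.card : ℝ) ≤ (13 + 1716 * (δ * n)) * (n : ℝ) ^ 3 := by
    have h1 : F1.card ≤ A.card * n ^ 3 := by
      apply card_meets A F1
      · intro e he
        rw [hF1, mem_filter, hM, mem_filter] at he
        exact h4 e he.1.1
      · intro e he
        rw [hF1, mem_filter] at he
        exact he.2
    have h2 : (A.card : ℝ) ≤ 13 + 1716 * (δ * n) := by
      have h3 : A.card ≤ K.card + ∑ J ∈ K.powersetCard 6, (UJ H K J).card :=
        (card_union_le _ _).trans (Nat.add_le_add_left card_biUnion_le _)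
      have h4 : (A.card : ℝ) ≤ K.card + ∑ J ∈ K.powersetCard 6, ((UJ H K J).card : ℝ) := by
        exact_mod_cast h3
      refine h4.trans ?_
      have h5 : ∑ J ∈ K.powersetCard 6, ((UJ H K J).card : ℝ) ≤
          ∑ J ∈ K.powersetCard 6, δ * n := by
        apply sum_le_sum
        intro J hJ
        rw [mem_powersetCard] at hJ
        exact hU J hJ.1 hJ.2
      rw [sum_const, card_powersetCard, hK, nsmul_eq_mul] at h5
      have h6 : ((Nat.choose 13 6 : ℕ) : ℝ) = 1716 := by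
        norm_num [Nat.choose]
      rw [h6] at h5
      rw [hK]
      push_cast
      linarith
    calc (F1.card : ℝ) ≤ ((A.card * n ^ 3 : ℕ) : ℝ) := by exact_mod_cast h1
      _ = (A.card : ℝ) * (n : ℝ) ^ 3 := by push_cast; ring
      _ ≤ _ := mul_le_mul_of_nonneg_right h2 (by positivity)
  have hF2c : (F2.card : ℝ) ≤ 1430 * (δ * (n : ℝ) ^ 4) := by
    have h1 : F2.card ≤ ∑ J ∈ K.powersetCard 4, ∑ a : Bool, (FJ H K J a).card * n := by
      refine card_biUnion_le.trans (sum_le_sum fun J _ => ?_)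
      refine card_biUnion_le.trans (sum_le_sum fun a _ => ?_)
      refine card_image_le.trans ?_
      rw [card_product, card_univ, Fintype.card_fin]
    have h2 : (F2.card : ℝ) ≤ ∑ J ∈ K.powersetCard 4, ∑ a : Bool,
        ((FJ H K J a).card : ℝ) * n := by
      exact_mod_cast h1
    have h3 : ∑ J ∈ K.powersetCard 4, ∑ a : Bool, ((FJ H K J a).card : ℝ) * n ≤
        ∑ J ∈ K.powersetCard 4, ∑ a : Bool, (δ * (n : ℝ) ^ 4) := by
      apply sum_le_sum
      intro J hJ
      apply sum_le_sum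
      intro a _
      rw [mem_powersetCard] at hJ
      calc ((FJ H K J a).card : ℝ) * n ≤ (δ * (n : ℝ) ^ 3) * n :=
            mul_le_mul_of_nonneg_right (hF J hJ.1 hJ.2 a) (by positivity)
        _ = δ * (n : ℝ) ^ 4 := by ring
    refine h2.trans (h3.trans (le_of_eq ?_))
    rw [sum_const, sum_const, card_powersetCard, hK, nsmul_eq_mul, nsmul_eq_mul, card_univ,
      Fintype.card_bool]
    have h6 : ((Nat.choose 13 4 : ℕ) : ℝ) = 715 := by
      norm_num [Nat.choose]
    rw [h6]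
    push_cast
    ring
  have h5 : (M.card : ℝ) ≤ F1.card + F2.card := by
    exact_mod_cast (card_le_card hsub).trans (card_union_le _ _)
  have h6 : M.card = (H.filter fun e => ∀ x ∈ e, ∀ y ∈ e, χ x = χ y).card := rfl
  calc ((H.filter fun e => ∀ x ∈ e, ∀ y ∈ e, χ x = χ y).card : ℝ) = M.card := by rw [h6]
    _ ≤ F1.card + F2.card := h5
    _ ≤ (13 + 1716 * (δ * n)) * (n : ℝ) ^ 3 + 1430 * (δ * (n : ℝ) ^ 4) := add_le_add hF1c hF2c
    _ = 13 * (n : ℝ) ^ 3 + 3146 * δ * (n : ℝ) ^ 4 := by ring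

end count

end Pool.Agent.Lib.MP_afdd4d_co.T1S
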