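import Pool.Agent.Lib.MP_afdd4d_co.T1S.Ramsey

/-!
MP_afdd4d_co, T1S: tight windows, bad sets of a root.
-/

set_option autoImplicit false

namespace Pool.Agent.Lib.MP_afdd4d_co.T1S

open Finset

section defs
variable {V : Type*} [DecidableEq V]

/-- `S` is a tight window of `H`: there are a colouring `c` and a set `T` on which `c` is constant
such that a 4-subset `Q` of `S` whose number of `true` points is not 2 is in `H` iff either this
number is odd or `T` is a triple inside `Q`, but not both. -/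
def Tight (H : Finset (Finset V)) (S : Finset V) : Prop :=
  ∃ (c : V → Bool) (T : Finset V), (∀ x ∈ T, ∀ y ∈ T, c x = c y) ∧
    ∀ Q ⊆ S, Q.card = 4 → (Q.filter fun x => c x = true).card ≠ 2 →
      (Q ∈ H ↔ ¬ (Odd (Q.filter fun x => c x = true).card ↔ (T.card = 3 ∧ T ⊆ Q)))

end defs

section fin
variable {n : ℕ}

open Classical in
/-- the 8-subsets of `Fin n` which are not tight -/
noncomputable def bad8 (H : Finset (Finset (Fin n))) : Finset (Finset (Fin n)) :=
  (univ.powersetCard 8).filter fun S => ¬ Tight H S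

open Classical in
/-- the pairs which see a window that is not tight together with 6 points of `K` -/
noncomputable def Bad2 (H : Finset (Finset (Fin n))) (K : Finset (Fin n)) :
    Finset (Fin n × Fin n) :=
  univ.filter fun p => p.1 ∉ K ∧ p.2 ∉ K ∧ p.1 ≠ p.2 ∧
    ∃ J ⊆ K, J.card = 6 ∧ ¬ Tight H (insert p.1 (insert p.2 J))

open Classical in
/-- the quadruples which see a window that is not tight together with 4 points of `K` -/
noncomputable def Bad4 (H : Finset (Finset (Fin n))) (K : Finset (Fin n)) :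
    Finset (Fin n × Fin n × Fin n × Fin n) :=
  univ.filter fun p => p.1 ∉ K ∧ p.2.1 ∉ K ∧ p.2.2.1 ∉ K ∧ p.2.2.2 ∉ K ∧
    p.1 ≠ p.2.1 ∧ p.1 ≠ p.2.2.1 ∧ p.1 ≠ p.2.2.2 ∧ p.2.1 ≠ p.2.2.1 ∧ p.2.1 ≠ p.2.2.2 ∧
    p.2.2.1 ≠ p.2.2.2 ∧
    ∃ J ⊆ K, J.card = 4 ∧ ¬ Tight H (insert p.1 (insert p.2.1 (insert p.2.2.1 (insert p.2.2.2 J))))

end fin

end Pool.Agent.Lib.MP_afdd4d_co.T1S
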