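import Pool.Agent.Lib.MP_afdd4d_co.T1S.Def

/-!
MP_afdd4d_co, T1S: two finite facts on tight windows (module M3).
-/

set_option autoImplicit false

namespace Pool.Agent.Lib.MP_afdd4d_co.T1S

open Finset

section facts

variable {V : Type*} [DecidableEq V] {H : Finset (Finset V)} {S : Finset V} {c : V → Bool}
  {T : Finset V}

/-- monochromatic quads of a tight window -/
private theorem mono_iff
    (hq : ∀ Q ⊆ S, Q.card = 4 → (Q.filter fun x => c x = true).card ≠ 2 →
      (Q ∈ H ↔ ¬ (Odd (Q.filter fun x => c x = true).card ↔ (T.card = 3 ∧ T ⊆ Q))))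
    {Q : Finset V} (hQS : Q ⊆ S) (hQ : Q.card = 4) {v : Bool} (hv : ∀ x ∈ Q, c x = v) :
    Q ∈ H ↔ (T.card = 3 ∧ T ⊆ Q) := by
  have h0 : (Q.filter fun x => c x = true).card = 4 ∨ (Q.filter fun x => c x = true).card = 0 := by
    cases v with
    | true =>
      left
      rw [Finset.filter_true_of_mem hv, hQ]
    | false =>
      right
      rw [Finset.card_eq_zero, Finset.filter_eq_empty_iff]
      intro x hx
      rw [hv x hx]
      simp
  have h1 := hq Q hQS hQ (by rcases h0 with h | h <;> omega)
  have h2 : ¬ Odd (Q.filter fun x => c x = true).card := by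
    rcases h0 with h | h <;> rw [h] <;> decide
  rw [h1]
  tauto

/-- `3 + 1` quads of a tight window -/
private theorem odd_iff (hT : ∀ x ∈ T, ∀ y ∈ T, c x = c y)
    (hq : ∀ Q ⊆ S, Q.card = 4 → (Q.filter fun x => c x = true).card ≠ 2 →
      (Q ∈ H ↔ ¬ (Odd (Q.filter fun x => c x = true).card ↔ (T.card = 3 ∧ T ⊆ Q))))
    {t : Finset V} {w : V} (hS : insert w t ⊆ S) (ht : t.card = 3) {v : Bool}
    (hv : ∀ x ∈ t, c x = v) (hw : c w ≠ v) :
    insert w t ∈ H ↔ T ≠ t := by
  have hwt : w ∉ t := fun h => hw (hv w h)
  have hQ : (insert w t).card = 4 := by rw [Finset.card_insert_of_notMem hwt, ht]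
  have h0 : ((insert w t).filter fun x => c x = true).card = 3 ∨
      ((insert w t).filter fun x => c x = true).card = 1 := by
    cases v with
    | true =>
      left
      rw [Finset.filter_insert, if_neg hw, Finset.filter_true_of_mem hv, ht]
    | false =>
      right
      have hw' : c w = true := by simpa using hw
      have h1 : t.filter (fun x => c x = true) = ∅ := by
        rw [Finset.filter_eq_empty_iff]
        intro x hx
        rw [hv x hx]
        simp
      rw [Finset.filter_insert, if_pos hw', h1]
      rfl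
  have h1 := hq _ hS hQ (by rcases h0 with h | h <;> omega)
  have h2 : Odd ((insert w t).filter fun x => c x = true).card := by
    rcases h0 with h | h <;> rw [h] <;> decide
  have h3 : (T.card = 3 ∧ T ⊆ insert w t) ↔ T = t := by
    constructor
    · rintro ⟨hT3, hTs⟩
      have hwT : w ∉ T := by
        intro hwT
        obtain ⟨y, hyT, hyw⟩ := Finset.exists_mem_ne (by omega : 1 < T.card) w
        have hyt : y ∈ t := by
          rcases Finset.mem_insert.1 (hTs hyT) with h | h
          · exact absurd h hyw
          · exact h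
        exact hw ((hT w hwT y hyT).trans (hv y hyt))
      have hTt : T ⊆ t := by
        intro y hy
        rcases Finset.mem_insert.1 (hTs hy) with h | h
        · exact absurd (h ▸ hy) hwT
        · exact h
      exact Finset.eq_of_subset_of_card_le hTt (by omega)
    · rintro rfl
      exact ⟨ht, Finset.subset_insert _ _⟩
  rw [h1, h3]
  tauto

/-- two points with non constant links on an independent 6-set do not give a tight window -/
theorem factU (H : Finset (Finset V)) (K : Finset V) (x y : V) (hK : K.card = 6)
    (hx : x ∉ K) (hy : y ∉ K) (hxy : x ≠ y) (hind : ∀ e ⊆ K, e.card = 4 → e ∉ H)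
    (hx1 : ∃ s ⊆ K, s.card = 3 ∧ insert x s ∈ H) (hx0 : ∃ s ⊆ K, s.card = 3 ∧ insert x s ∉ H)
    (hy1 : ∃ s ⊆ K, s.card = 3 ∧ insert y s ∈ H) (hy0 : ∃ s ⊆ K, s.card = 3 ∧ insert y s ∉ H) :
    ¬ Tight H (insert x (insert y K)) := by
  rintro ⟨c, T, hT, hq⟩
  have hKS : K ⊆ insert x (insert y K) :=
    (Finset.subset_insert _ _).trans (Finset.subset_insert _ _)
  -- a monochromatic triple and a point of the other colour inside `K`
  have h1 : ∀ t ⊆ K, t.card = 3 → ∀ v : Bool, (∀ z ∈ t, c z = v) → ∀ w ∈ K, c w ≠ v → T = t := by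
    intro t htK ht v hv w hwK hw
    have hwt : w ∉ t := fun h => hw (hv w h)
    have hsub : insert w t ⊆ K := Finset.insert_subset hwK htK
    have h2 := odd_iff hT hq (hsub.trans hKS) ht hv hw
    have h3 := hind _ hsub (by rw [Finset.card_insert_of_notMem hwt, ht])
    by_contra hne
    exact h3 (h2.2 hne)
  -- `K` is monochromatic
  have h2 : ∀ v : Bool, 4 ≤ (K.filter fun z => c z = v).card → ∀ w ∈ K, c w = v := by
    intro v h4 w hwK
    by_contra hw
    have h3 : 1 < ((K.filter fun z => c z = v).powersetCard 3).card := by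
      rw [Finset.card_powersetCard]
      calc 1 < Nat.choose 4 3 := by decide
        _ ≤ _ := Nat.choose_le_choose 3 h4
    obtain ⟨t, ht, t', ht', hne⟩ := Finset.one_lt_card.1 h3
    rw [Finset.mem_powersetCard] at ht ht'
    apply hne
    rw [← h1 t (ht.1.trans (Finset.filter_subset _ _)) ht.2 v
        (fun z hz => (Finset.mem_filter.1 (ht.1 hz)).2) w hwK hw,
      ← h1 t' (ht'.1.trans (Finset.filter_subset _ _)) ht'.2 v
        (fun z hz => (Finset.mem_filter.1 (ht'.1 hz)).2) w hwK hw]
  have hcount : (K.filter fun z => c z = true).card + (K.filter fun z => c z = false).card = 6 := by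
    rw [← hK, ← Finset.card_filter_add_card_filter_not (s := K) (fun z => c z = true)]
    congr 2
    ext z
    simp
  have hmono : ∃ v : Bool, ∀ z ∈ K, c z = v := by
    rcases Nat.lt_or_ge (K.filter fun z => c z = true).card 4 with ha | ha
    · rcases Nat.lt_or_ge (K.filter fun z => c z = false).card 4 with hb | hb
      · exfalso
        have ha3 : (K.filter fun z => c z = true).card = 3 := by omega
        have hb3 : (K.filter fun z => c z = false).card = 3 := by omega
        obtain ⟨u, hu⟩ := Finset.card_pos.1 (by omega : 0 < (K.filter fun z => c z = true).card)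
        obtain ⟨w, hw⟩ := Finset.card_pos.1 (by omega : 0 < (K.filter fun z => c z = false).card)
        have hu' := Finset.mem_filter.1 hu
        have hw' := Finset.mem_filter.1 hw
        have e1 := h1 _ (Finset.filter_subset _ _) ha3 true
          (fun z hz => (Finset.mem_filter.1 hz).2) w hw'.1 (by rw [hw'.2]; simp)
        have e2 := h1 _ (Finset.filter_subset _ _) hb3 false
          (fun z hz => (Finset.mem_filter.1 hz).2) u hu'.1 (by rw [hu'.2]; simp)
        have hu2 : u ∈ K.filter fun z => c z = false := by rw [← e2, e1]; exact hu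
        have := (Finset.mem_filter.1 hu2).2
        rw [hu'.2] at this
        exact absurd this (by simp)
      · exact ⟨false, h2 false hb⟩
    · exact ⟨true, h2 true ha⟩
  obtain ⟨a, ha⟩ := hmono
  -- `T` is not a triple inside `K`
  have hTK : ¬ (T.card = 3 ∧ T ⊆ K) := by
    rintro ⟨hT3, hTK⟩
    obtain ⟨k, hkK, hkT⟩ : ∃ k ∈ K, k ∉ T := by
      by_contra hcon
      push Not at hcon
      have := Finset.card_le_card (show K ⊆ T from hcon)
      omega
    have hsub : insert k T ⊆ K := Finset.insert_subset hkK hTK
    have h4 : (insert k T).card = 4 := by rw [Finset.card_insert_of_notMem hkT, hT3]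
    exact hind _ hsub h4
      ((mono_iff hq (hsub.trans hKS) h4 fun z hz => ha z (hsub hz)).2
        ⟨hT3, Finset.subset_insert _ _⟩)
  -- a point with non constant link is in `T`
  have h5 : ∀ z, z ∉ K → insert z K ⊆ insert x (insert y K) →
      (∃ s ⊆ K, s.card = 3 ∧ insert z s ∈ H) → (∃ s ⊆ K, s.card = 3 ∧ insert z s ∉ H) →
      z ∈ T ∧ T ⊆ insert z K := by
    rintro z hz hzS ⟨s, hsK, hs3, hs⟩ ⟨s', hs'K, hs'3, hs'⟩
    have hsubz : ∀ s ⊆ K, insert z s ⊆ insert x (insert y K) := fun s hs =>
      (Finset.insert_subset_insert z hs).trans hzS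
    by_cases hcz : c z = a
    · have h4 : (insert z s).card = 4 := by
        rw [Finset.card_insert_of_notMem (fun h => hz (hsK h)), hs3]
      have h6 := (mono_iff hq (hsubz s hsK) h4 (v := a) (by
        intro w hw
        rcases Finset.mem_insert.1 hw with h | h
        · rw [h, hcz]
        · exact ha w (hsK h))).1 hs
      refine ⟨?_, h6.2.trans (Finset.insert_subset_insert z hsK)⟩
      by_contra hzT
      apply hTK
      refine ⟨h6.1, fun w hw => ?_⟩
      rcases Finset.mem_insert.1 (h6.2 hw) with h | h
      · exact absurd (h ▸ hw) hzT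
      · exact hsK h
    · exfalso
      have h6 := odd_iff hT hq (hsubz s' hs'K) hs'3 (fun w hw => ha w (hs'K hw)) hcz
      have h7 : T = s' := by
        by_contra hne
        exact hs' (h6.2 hne)
      exact hTK ⟨by rw [h7, hs'3], by rw [h7]; exact hs'K⟩
  have hxT := h5 x hx (Finset.insert_subset_insert x (Finset.subset_insert _ _)) hx1 hx0
  have hyT := h5 y hy (Finset.subset_insert _ _) hy1 hy0
  rcases Finset.mem_insert.1 (hxT.2 hyT.1) with h | h
  · exact hxy h.symm
  · exact hy h

/-- an independent 4-set whose points see four vertices in the same way gives no tight window when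
two of the triples of these vertices see it in the other way -/
theorem factAB (H : Finset (Finset V)) (K : Finset V) (hK : K.card = 4) (hKH : K ∉ H)
    (x1 x2 x3 x4 : V) (h1 : x1 ∉ K) (h2 : x2 ∉ K) (h3 : x3 ∉ K) (h4 : x4 ∉ K)
    (h12 : x1 ≠ x2) (h13 : x1 ≠ x3) (h14 : x1 ≠ x4) (h23 : x2 ≠ x3) (h24 : x2 ≠ x4)
    (h34 : x3 ≠ x4) (a : Prop)
    (l1 : ∀ s ⊆ K, s.card = 3 → (insert x1 s ∈ H ↔ a))
    (l2 : ∀ s ⊆ K, s.card = 3 → (insert x2 s ∈ H ↔ a))
    (l3 : ∀ s ⊆ K, s.card = 3 → (insert x3 s ∈ H ↔ a))
    (l4 : ∀ s ⊆ K, s.card = 3 → (insert x4 s ∈ H ↔ a))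
    (f3 : ∀ k ∈ K, (({x1, x2, x3, k} : Finset V) ∈ H ↔ ¬ a))
    (f4 : ∀ k ∈ K, (({x1, x2, x4, k} : Finset V) ∈ H ↔ ¬ a)) :
    ¬ Tight H (insert x1 (insert x2 (insert x3 (insert x4 K)))) := by
  rintro ⟨c, T, hT, hq⟩
  generalize hS : insert x1 (insert x2 (insert x3 (insert x4 K))) = S at hq
  obtain ⟨X, hX⟩ : ∃ X : Finset V, X = {x1, x2, x3, x4} := ⟨_, rfl⟩
  have hXK : ∀ x ∈ X, x ∉ K := by
    intro x hx
    rw [hX] at hx
    simp only [Finset.mem_insert, Finset.mem_singleton] at hx
    rcases hx with rfl | rfl | rfl | rfl <;> assumption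
  have hXS : ∀ x ∈ X, x ∈ S := by
    intro x hx
    rw [hX] at hx
    rw [← hS]
    simp only [Finset.mem_insert, Finset.mem_singleton] at hx ⊢
    tauto
  have hKS : K ⊆ S := by
    intro x hx
    rw [← hS]
    simp only [Finset.mem_insert]
    tauto
  have hl : ∀ x ∈ X, ∀ s ⊆ K, s.card = 3 → (insert x s ∈ H ↔ a) := by
    intro x hx
    rw [hX] at hx
    simp only [Finset.mem_insert, Finset.mem_singleton] at hx
    rcases hx with rfl | rfl | rfl | rfl <;> assumption
  have hxs : ∀ x ∈ X, ∀ s ⊆ K, insert x s ⊆ S := fun x hx s hs =>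
    Finset.insert_subset (hXS x hx) (hs.trans hKS)
  have hxc : ∀ x ∈ X, ∀ s ⊆ K, s.card = 3 → (insert x s).card = 4 := fun x hx s hs hs3 => by
    rw [Finset.card_insert_of_notMem (fun h => hXK x hx (hs h)), hs3]
  -- the two triples
  obtain ⟨t3, ht3⟩ : ∃ t : Finset V, t = {x1, x2, x3} := ⟨_, rfl⟩
  obtain ⟨t4, ht4⟩ : ∃ t : Finset V, t = {x1, x2, x4} := ⟨_, rfl⟩
  have hne : t3 ≠ t4 := by
    intro h
    have : x3 ∈ t4 := by rw [← h, ht3]; simp
    rw [ht4] at this
    simp only [Finset.mem_insert, Finset.mem_singleton] at this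
    rcases this with h | h | h
    · exact h13 h.symm
    · exact h23 h.symm
    · exact h34 h
  have hc3 : t3.card = 3 := by
    rw [ht3]
    exact Finset.card_eq_three.2 ⟨x1, x2, x3, h12, h13, h23, rfl⟩
  have hc4 : t4.card = 3 := by
    rw [ht4]
    exact Finset.card_eq_three.2 ⟨x1, x2, x4, h12, h14, h24, rfl⟩
  have hX3 : t3 ⊆ X := by
    intro x hx
    rw [ht3] at hx
    rw [hX]
    simp only [Finset.mem_insert, Finset.mem_singleton] at hx ⊢
    tauto
  have hX4 : t4 ⊆ X := by
    intro x hx
    rw [ht4] at hx
    rw [hX]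
    simp only [Finset.mem_insert, Finset.mem_singleton] at hx ⊢
    tauto
  have hF3 : ∀ k ∈ K, (insert k t3 ∈ H ↔ ¬ a) := by
    intro k hk
    rw [← f3 k hk]
    have : insert k t3 = ({x1, x2, x3, k} : Finset V) := by
      rw [ht3]
      ext z
      simp only [Finset.mem_insert, Finset.mem_singleton]
      tauto
    rw [this]
  have hF4 : ∀ k ∈ K, (insert k t4 ∈ H ↔ ¬ a) := by
    intro k hk
    rw [← f4 k hk]
    have : insert k t4 = ({x1, x2, x4, k} : Finset V) := by
      rw [ht4]
      ext z
      simp only [Finset.mem_insert, Finset.mem_singleton]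
      tauto
    rw [this]
  have hkt : ∀ k ∈ K, ∀ t ⊆ X, insert k t ⊆ S := fun k hk t ht =>
    Finset.insert_subset (hKS hk) (ht.trans hXS)
  have hktc : ∀ k ∈ K, ∀ t ⊆ X, t.card = 3 → (insert k t).card = 4 := fun k hk t ht ht3 => by
    rw [Finset.card_insert_of_notMem (fun h => hXK k (ht h) hk), ht3]
  -- negation of colours
  have hneg : ∀ u v w : Bool, u ≠ v → w ≠ v → u = w := by decide
  have hm1 : x1 ∈ X := by rw [hX]; simp
  have hm2 : x2 ∈ X := by rw [hX]; simp
  have hm3 : x3 ∈ X := by rw [hX]; simp
  -- the cases of the colours of `K`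
  have hcount : (K.filter fun z => c z = true).card + (K.filter fun z => c z = false).card = 4 := by
    rw [← hK, ← Finset.card_filter_add_card_filter_not (s := K) (fun z => c z = true)]
    congr 2
    ext z
    simp
  -- case A
  have caseA : ¬ ∃ v : Bool, ∀ k ∈ K, c k = v := by
    rintro ⟨v, hv⟩
    have hTK : ¬ (T.card = 3 ∧ T ⊆ K) := fun h => hKH ((mono_iff hq hKS hK hv).2 h)
    have hA1 : ∀ x ∈ X, c x ≠ v → a := by
      intro x hx hcx
      obtain ⟨k, hk⟩ := Finset.card_pos.1 (by omega : 0 < K.card)
      have he : K.erase k ⊆ K := Finset.erase_subset _ _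
      have he3 : (K.erase k).card = 3 := by rw [Finset.card_erase_of_mem hk, hK]
      have := (odd_iff hT hq (hxs x hx _ he) he3 (fun z hz => hv z (he hz)) hcx).2 (by
        intro h
        exact hTK ⟨by rw [h, he3], by rw [h]; exact he⟩)
      exact (hl x hx _ he he3).1 this
    have hA2 : ∀ x ∈ X, c x = v → ¬ a := by
      intro x hx hcx ha
      have h5 : ∀ k ∈ K, T.card = 3 ∧ T ⊆ insert x (K.erase k) := by
        intro k hk
        have he : K.erase k ⊆ K := Finset.erase_subset _ _
        have he3 : (K.erase k).card = 3 := by rw [Finset.card_erase_of_mem hk, hK]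
        refine (mono_iff hq (hxs x hx _ he) (hxc x hx _ he he3) (v := v) ?_).1
          ((hl x hx _ he he3).2 ha)
        intro z hz
        rcases Finset.mem_insert.1 hz with h | h
        · rw [h, hcx]
        · exact hv z (he h)
      have h6 : T ⊆ {x} := by
        intro z hz
        obtain ⟨k, hk⟩ := Finset.card_pos.1 (by omega : 0 < K.card)
        rw [Finset.mem_singleton]
        by_contra hzx
        have hzK : z ∈ K := by
          rcases Finset.mem_insert.1 ((h5 k hk).2 hz) with h | h
          · exact absurd h hzx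
          · exact Finset.mem_of_mem_erase h
        rcases Finset.mem_insert.1 ((h5 z hzK).2 hz) with h | h
        · exact hzx h
        · exact (Finset.notMem_erase z K) h
      obtain ⟨k, hk⟩ := Finset.card_pos.1 (by omega : 0 < K.card)
      have h7 := Finset.card_le_card h6
      rw [Finset.card_singleton, (h5 k hk).1] at h7
      omega
    by_cases ha : a
    · have hall : ∀ x ∈ X, c x ≠ v := fun x hx h => hA2 x hx h ha
      obtain ⟨k, hk⟩ := Finset.card_pos.1 (by omega : 0 < K.card)
      have hT3 : ∀ t ⊆ X, t.card = 3 → (insert k t ∈ H ↔ ¬ a) → T = t := by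
        intro t ht htc hF
        have h8 := odd_iff hT hq (hkt k hk t ht) htc (v := !v)
          (fun z hz => by
            have := hall z (ht hz)
            revert this
            cases c z <;> cases v <;> simp)
          (by rw [hv k hk]; cases v <;> simp)
        by_contra hTt
        exact hF.1 (h8.2 hTt) ha
      exact hne ((hT3 t3 hX3 hc3 (hF3 k hk)).symm.trans (hT3 t4 hX4 hc4 (hF4 k hk)))
    · have hall : ∀ x ∈ X, c x = v := by
        intro x hx
        by_contra h
        exact ha (hA1 x hx h)
      obtain ⟨k, hk, k', hk', hkk⟩ := Finset.one_lt_card.1 (by omega : 1 < K.card)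
      have hT3 : ∀ t ⊆ X, t.card = 3 → (∀ k ∈ K, (insert k t ∈ H ↔ ¬ a)) → T = t := by
        intro t ht htc hF
        have h8 : ∀ k ∈ K, T.card = 3 ∧ T ⊆ insert k t := by
          intro k hk
          refine (mono_iff hq (hkt k hk t ht) (hktc k hk t ht htc) (v := v) ?_).1 ((hF k hk).2 ha)
          intro z hz
          rcases Finset.mem_insert.1 hz with h | h
          · rw [h, hv k hk]
          · exact hall z (ht h)
        refine Finset.eq_of_subset_of_card_le ?_ (by rw [(h8 k hk).1, htc])
        intro z hz
        rcases Finset.mem_insert.1 ((h8 k hk).2 hz) with h | h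
        · rcases Finset.mem_insert.1 ((h8 k' hk').2 hz) with h' | h'
          · exact absurd (h.symm.trans h') hkk
          · exact h'
        · exact h
      exact hne ((hT3 t3 hX3 hc3 hF3).symm.trans (hT3 t4 hX4 hc4 hF4))
  -- case B
  have caseB : ¬ ∃ v : Bool, ∃ w ∈ K, c w ≠ v ∧ ∀ k ∈ K.erase w, c k = v := by
    rintro ⟨v, w, hwK, hw, hv⟩
    have he : K.erase w ⊆ K := Finset.erase_subset _ _
    have he3 : (K.erase w).card = 3 := by rw [Finset.card_erase_of_mem hwK, hK]
    have hTe : T = K.erase w := by
      have h8 := odd_iff hT hq (t := K.erase w) (w := w)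
        (by rw [Finset.insert_erase hwK]; exact hKS) he3 hv hw
      by_contra h
      have h9 := h8.2 h
      rw [Finset.insert_erase hwK] at h9
      exact hKH h9
    have hT3 : T.card = 3 := by rw [hTe, he3]
    have hTK : T ⊆ K := by rw [hTe]; exact he
    have hB1 : ∀ x ∈ X, c x = v → a := by
      intro x hx hcx
      refine (hl x hx _ he he3).1 ((mono_iff hq (hxs x hx _ he) (hxc x hx _ he he3) (v := v) ?_).2
        ⟨hT3, ?_⟩)
      · intro z hz
        rcases Finset.mem_insert.1 hz with h | h
        · rw [h, hcx]
        · exact hv z h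
      · rw [hTe]
        exact Finset.subset_insert _ _
    have hB2 : ∀ x ∈ X, c x ≠ v → ¬ a := by
      intro x hx hcx ha
      exact (odd_iff hT hq (hxs x hx _ he) he3 hv hcx).1 ((hl x hx _ he he3).2 ha) hTe
    by_cases ha : a
    · have hall : ∀ x ∈ X, c x = v := by
        intro x hx
        by_contra h
        exact hB2 x hx h ha
      have h8 := odd_iff hT hq (hkt w hwK t3 hX3) hc3 (fun z hz => hall z (hX3 hz)) hw
      have h9 : T ≠ t3 := by
        intro h
        have : x1 ∈ T := by rw [h, ht3]; simp
        exact h1 (hTK this)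
      exact (hF3 w hwK).1 (h8.2 h9) ha
    · have hall : ∀ x ∈ X, c x ≠ v := fun x hx h => ha (hB1 x hx h)
      have h8 := (mono_iff hq (hkt w hwK t3 hX3) (hktc w hwK t3 hX3 hc3) (v := c w) (by
        intro z hz
        rcases Finset.mem_insert.1 hz with h | h
        · rw [h]
        · exact hneg _ v _ (hall z (hX3 h)) hw)).1 ((hF3 w hwK).2 ha)
      obtain ⟨z, hz⟩ := Finset.card_pos.1 (by omega : 0 < T.card)
      rcases Finset.mem_insert.1 (h8.2 hz) with h | h
      · rw [hTe, h] at hz
        exact (Finset.notMem_erase w K) hz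
      · exact hXK z (hX3 h) (hTK hz)
  -- case C
  have caseC : ¬ ((K.filter fun z => c z = true).card = 2 ∧
      (K.filter fun z => c z = false).card = 2) := by
    rintro ⟨hct, hcf⟩
    have hP : ∀ v : Bool, (K.filter fun z => c z = v).card = 2 := by
      intro v
      cases v
      · exact hcf
      · exact hct
    have hPK : ∀ v : Bool, (K.filter fun z => c z = v) ⊆ K := fun v => Finset.filter_subset _ _
    have hE : ∀ x ∈ X, (a ↔ T ≠ insert x (K.filter fun z => c z = c x)) := by
      intro x hx
      obtain ⟨r, hr⟩ := Finset.card_pos.1 (by rw [hP (!c x)]; omega :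
        0 < (K.filter fun z => c z = !c x).card)
      have hr' := Finset.mem_filter.1 hr
      have hrP : r ∉ K.filter fun z => c z = c x := by
        intro h
        have := (Finset.mem_filter.1 h).2
        rw [hr'.2] at this
        revert this
        cases c x <;> simp
      have hxP : x ∉ K.filter fun z => c z = c x := fun h => hXK x hx (hPK _ h)
      have hs : insert r (K.filter fun z => c z = c x) ⊆ K := Finset.insert_subset hr'.1 (hPK _)
      have hs3 : (insert r (K.filter fun z => c z = c x)).card = 3 := by
        rw [Finset.card_insert_of_notMem hrP, hP]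
      rw [← hl x hx _ hs hs3, Finset.insert_comm]
      refine odd_iff hT hq ?_ ?_ (v := c x) ?_ ?_
      · rw [Finset.insert_comm]
        exact hxs x hx _ hs
      · rw [Finset.card_insert_of_notMem hxP, hP]
      · intro z hz
        rcases Finset.mem_insert.1 hz with h | h
        · rw [h]
        · exact (Finset.mem_filter.1 h).2
      · rw [hr'.2]
        cases c x <;> simp
    by_cases ha : a
    · -- two of the points of `t3` have the same colour
      have hmono : ∀ v : Bool, (∀ z ∈ t3, c z = v) → False := by
        intro v hv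
        obtain ⟨r, hr⟩ := Finset.card_pos.1 (by rw [hP (!v)]; omega :
          0 < (K.filter fun z => c z = !v).card)
        obtain ⟨p, hp⟩ := Finset.card_pos.1 (by rw [hP v]; omega :
          0 < (K.filter fun z => c z = v).card)
        have hr' := Finset.mem_filter.1 hr
        have hp' := Finset.mem_filter.1 hp
        have h8 := odd_iff hT hq (hkt r hr'.1 t3 hX3) hc3 hv
          (by rw [hr'.2]; cases v <;> simp)
        have h9 : T = t3 := by
          by_contra h
          exact (hF3 r hr'.1).1 (h8.2 h) ha
        have h10 := (mono_iff hq (hkt p hp'.1 t3 hX3) (hktc p hp'.1 t3 hX3 hc3) (v := v) (by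
          intro z hz
          rcases Finset.mem_insert.1 hz with h | h
          · rw [h, hp'.2]
          · exact hv z h)).2 ⟨by rw [h9, hc3], by rw [h9]; exact Finset.subset_insert _ _⟩
        exact (hF3 p hp'.1).1 h10 ha
      have htwo : ∀ y y' z, t3 = {y, y', z} → y ≠ y' → y ≠ z → y' ≠ z → c y = c y' →
          c z ≠ c y → False := by
        intro y y' z hyz hyy hyz1 hyz2 hcy hcz
        obtain ⟨k, hk, k', hk', hkk⟩ := Finset.one_lt_card.1 (by rw [hP (c y)]; omega :
          1 < (K.filter fun z => c z = c y).card)
        have hyX : y ∈ X := hX3 (by rw [hyz]; simp)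
        have hy'X : y' ∈ X := hX3 (by rw [hyz]; simp)
        have hzX : z ∈ X := hX3 (by rw [hyz]; simp)
        have hTT : ∀ k ∈ K.filter (fun z => c z = c y), T = {y, y', k} := by
          intro k hk
          have hk' := Finset.mem_filter.1 hk
          have hyk : y ≠ k := fun h => hXK y hyX (h ▸ hk'.1)
          have hy'k : y' ≠ k := fun h => hXK y' hy'X (h ▸ hk'.1)
          have heq : insert z ({y, y', k} : Finset V) = insert k t3 := by
            rw [hyz]
            ext u
            simp only [Finset.mem_insert, Finset.mem_singleton]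
            tauto
          have h8 := odd_iff hT hq (t := {y, y', k}) (w := z) (v := c y)
            (by rw [heq]; exact hkt k hk'.1 t3 hX3)
            (Finset.card_eq_three.2 ⟨y, y', k, hyy, hyk, hy'k, rfl⟩)
            (by
              intro u hu
              simp only [Finset.mem_insert, Finset.mem_singleton] at hu
              rcases hu with h | h | h
              · rw [h]
              · rw [h, hcy]
              · rw [h, hk'.2]) hcz
          by_contra h
          have h9 := h8.2 h
          rw [heq] at h9
          exact (hF3 k hk'.1).1 h9 ha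
        have h8 : k ∈ ({y, y', k'} : Finset V) := by
          rw [← hTT k' hk', hTT k hk]
          simp
        have hkK := (Finset.mem_filter.1 hk).1
        simp only [Finset.mem_insert, Finset.mem_singleton] at h8
        rcases h8 with h | h | h
        · exact hXK y hyX (h ▸ hkK)
        · exact hXK y' hy'X (h ▸ hkK)
        · exact hkk h
      by_cases e12 : c x1 = c x2
      · by_cases e13 : c x3 = c x1
        · refine hmono (c x1) ?_
          intro z hz
          rw [ht3] at hz
          simp only [Finset.mem_insert, Finset.mem_singleton] at hz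
          rcases hz with h | h | h
          · rw [h]
          · rw [h, e12]
          · rw [h, e13]
        · exact htwo x1 x2 x3 ht3 h12 h13 h23 e12 e13
      · by_cases e13 : c x1 = c x3
        · refine htwo x1 x3 x2 ?_ h13 h12 h23.symm e13 (fun h => e12 h.symm)
          rw [ht3]
          ext u
          simp only [Finset.mem_insert, Finset.mem_singleton]
          tauto
        · refine htwo x2 x3 x1 ?_ h23 h12.symm h13.symm
            (hneg _ (c x1) _ (fun h => e12 h.symm) (fun h => e13 h.symm)) e12
          rw [ht3]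
          ext u
          simp only [Finset.mem_insert, Finset.mem_singleton]
          tauto
    · have hTx : ∀ x ∈ X, T = insert x (K.filter fun z => c z = c x) := by
        intro x hx
        by_contra h
        exact ha ((hE x hx).2 h)
      have h8 : x2 ∈ insert x1 (K.filter fun z => c z = c x1) := by
        rw [← hTx x1 hm1, hTx x2 hm2]
        exact Finset.mem_insert_self _ _
      rcases Finset.mem_insert.1 h8 with h | h
      · exact h12 h.symm
      · exact h2 (hPK _ h)
  -- conclusion
  have hBv : ∀ v : Bool, (K.filter fun z => c z = v).card = 3 → False := by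
    intro v h3
    have hlt : (K.filter fun z => c z = v).card < K.card := by omega
    obtain ⟨w, hwK, hw⟩ := Finset.exists_mem_notMem_of_card_lt_card hlt
    have hw' : c w ≠ v := fun h => hw (Finset.mem_filter.2 ⟨hwK, h⟩)
    refine caseB ⟨v, w, hwK, hw', ?_⟩
    have hsub : (K.filter fun z => c z = v) ⊆ K.erase w := by
      intro z hz
      have hz' := Finset.mem_filter.1 hz
      refine Finset.mem_erase.2 ⟨?_, hz'.1⟩
      rintro rfl
      exact hw' hz'.2
    have heq := Finset.eq_of_subset_of_card_le hsub
      (by rw [Finset.card_erase_of_mem hwK, hK, h3])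
    intro k hk
    rw [← heq] at hk
    exact (Finset.mem_filter.1 hk).2
  have hAv : ∀ v : Bool, (K.filter fun z => c z = v).card = 4 → False := by
    intro v h4
    refine caseA ⟨v, ?_⟩
    have heq := Finset.eq_of_subset_of_card_le (Finset.filter_subset (fun z => c z = v) K)
      (by rw [hK, h4])
    intro k hk
    rw [← heq] at hk
    exact (Finset.mem_filter.1 hk).2
  have h5 := hBv true
  have h6 := hBv false
  have h7 := hAv true
  have h8 := hAv false
  by_cases e0 : (K.filter fun z => c z = true).card = 0
  · exact h8 (by omega)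
  by_cases e1 : (K.filter fun z => c z = true).card = 1
  · exact h6 (by omega)
  by_cases e2 : (K.filter fun z => c z = true).card = 2
  · exact caseC ⟨e2, by omega⟩
  by_cases e3 : (K.filter fun z => c z = true).card = 3
  · exact h5 e3
  exact h7 (by omega)

end facts

end Pool.Agent.Lib.MP_afdd4d_co.T1S
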