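import Pool.Agent.Lib.MP_afdd4d_co.T1S.Str.C0
import Pool.Agent.Lib.MP_afdd4d_co.T1S.Str.C1
import Pool.Agent.Lib.MP_afdd4d_co.T1S.Str.C2
import Pool.Agent.Lib.MP_afdd4d_co.T1S.Str.C3
import Pool.Agent.Lib.MP_afdd4d_co.T1S.Str.C4
import Pool.Agent.Lib.MP_afdd4d_co.T1S.Str.C5
import Pool.Agent.Lib.MP_afdd4d_co.T1S.Str.C6
import Pool.Agent.Lib.MP_afdd4d_co.T1S.Str.C7
import Pool.Agent.Lib.MP_afdd4d_co.T1S.Str.C8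
import Pool.Agent.Lib.MP_afdd4d_co.T1S.Str.C9
import Pool.Agent.Lib.MP_afdd4d_co.T1S.Str.C10
import Pool.Agent.Lib.MP_afdd4d_co.T1S.Str.C11
import Pool.Agent.Lib.MP_afdd4d_co.T1S.Str.C12
import Pool.Agent.Lib.MP_afdd4d_co.T1S.Str.C13
import Pool.Agent.Lib.MP_afdd4d_co.T1S.Str.C14
import Pool.Agent.Lib.MP_afdd4d_co.T1S.Str.C15
import Pool.Agent.Lib.MP_afdd4d_co.T1S.Str.C16
import Pool.Agent.Lib.MP_afdd4d_co.T1S.Str.C17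
import Pool.Agent.Lib.MP_afdd4d_co.T1S.Str.C18
import Pool.Agent.Lib.MP_afdd4d_co.T1S.Str.C19
import Pool.Agent.Lib.MP_afdd4d_co.T1S.Str.C20
import Pool.Agent.Lib.MP_afdd4d_co.T1S.Str.C21
import Pool.Agent.Lib.MP_afdd4d_co.T1S.Str.C22
import Pool.Agent.Lib.MP_afdd4d_co.T1S.Str.C23
import Pool.Agent.Lib.MP_afdd4d_co.K8.Tab

/-!
# All strict checks
-/

namespace Pool.Agent.Lib.MP_afdd4d_co.T1S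

open K8

theorem st_parts : ∀ j < 423, (part 1 j reps).all oneS = true := by
  intro j hj
  interval_cases j
  · exact st0.1
  · exact st0.2.1
  · exact st0.2.2.1
  · exact st0.2.2.2.1
  · exact st0.2.2.2.2.1
  · exact st0.2.2.2.2.2.1
  · exact st0.2.2.2.2.2.2.1
  · exact st0.2.2.2.2.2.2.2.1
  · exact st0.2.2.2.2.2.2.2.2.1
  · exact st0.2.2.2.2.2.2.2.2.2.1
  · exact st0.2.2.2.2.2.2.2.2.2.2.1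
  · exact st0.2.2.2.2.2.2.2.2.2.2.2.1
  · exact st0.2.2.2.2.2.2.2.2.2.2.2.2.1
  · exact st0.2.2.2.2.2.2.2.2.2.2.2.2.2.1
  · exact st0.2.2.2.2.2.2.2.2.2.2.2.2.2.2.1
  · exact st0.2.2.2.2.2.2.2.2.2.2.2.2.2.2.2.1
  · exact st0.2.2.2.2.2.2.2.2.2.2.2.2.2.2.2.2.1
  · exact st0.2.2.2.2.2.2.2.2.2.2.2.2.2.2.2.2.2
  · exact st1.1
  · exact st1.2.1
  · exact st1.2.2.1
  · exact st1.2.2.2.1
  · exact st1.2.2.2.2.1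
  · exact st1.2.2.2.2.2.1
  · exact st1.2.2.2.2.2.2.1
  · exact st1.2.2.2.2.2.2.2.1
  · exact st1.2.2.2.2.2.2.2.2.1
  · exact st1.2.2.2.2.2.2.2.2.2.1
  · exact st1.2.2.2.2.2.2.2.2.2.2.1
  · exact st1.2.2.2.2.2.2.2.2.2.2.2.1
  · exact st1.2.2.2.2.2.2.2.2.2.2.2.2.1
  · exact st1.2.2.2.2.2.2.2.2.2.2.2.2.2.1
  · exact st1.2.2.2.2.2.2.2.2.2.2.2.2.2.2.1
  · exact st1.2.2.2.2.2.2.2.2.2.2.2.2.2.2.2.1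
  · exact st1.2.2.2.2.2.2.2.2.2.2.2.2.2.2.2.2.1
  · exact st1.2.2.2.2.2.2.2.2.2.2.2.2.2.2.2.2.2
  · exact st2.1
  · exact st2.2.1
  · exact st2.2.2.1
  · exact st2.2.2.2.1
  · exact st2.2.2.2.2.1
  · exact st2.2.2.2.2.2.1
  · exact st2.2.2.2.2.2.2.1
  · exact st2.2.2.2.2.2.2.2.1
  · exact st2.2.2.2.2.2.2.2.2.1
  · exact st2.2.2.2.2.2.2.2.2.2.1
  · exact st2.2.2.2.2.2.2.2.2.2.2.1
  · exact st2.2.2.2.2.2.2.2.2.2.2.2.1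
  · exact st2.2.2.2.2.2.2.2.2.2.2.2.2.1
  · exact st2.2.2.2.2.2.2.2.2.2.2.2.2.2.1
  · exact st2.2.2.2.2.2.2.2.2.2.2.2.2.2.2.1
  · exact st2.2.2.2.2.2.2.2.2.2.2.2.2.2.2.2.1
  · exact st2.2.2.2.2.2.2.2.2.2.2.2.2.2.2.2.2.1
  · exact st2.2.2.2.2.2.2.2.2.2.2.2.2.2.2.2.2.2
  · exact st3.1
  · exact st3.2.1
  · exact st3.2.2.1
  · exact st3.2.2.2.1
  · exact st3.2.2.2.2.1
  · exact st3.2.2.2.2.2.1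
  · exact st3.2.2.2.2.2.2.1
  · exact st3.2.2.2.2.2.2.2.1
  · exact st3.2.2.2.2.2.2.2.2.1
  · exact st3.2.2.2.2.2.2.2.2.2.1
  · exact st3.2.2.2.2.2.2.2.2.2.2.1
  · exact st3.2.2.2.2.2.2.2.2.2.2.2.1
  · exact st3.2.2.2.2.2.2.2.2.2.2.2.2.1
  · exact st3.2.2.2.2.2.2.2.2.2.2.2.2.2.1
  · exact st3.2.2.2.2.2.2.2.2.2.2.2.2.2.2.1
  · exact st3.2.2.2.2.2.2.2.2.2.2.2.2.2.2.2.1
  · exact st3.2.2.2.2.2.2.2.2.2.2.2.2.2.2.2.2.1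
  · exact st3.2.2.2.2.2.2.2.2.2.2.2.2.2.2.2.2.2
  · exact st4.1
  · exact st4.2.1
  · exact st4.2.2.1
  · exact st4.2.2.2.1
  · exact st4.2.2.2.2.1
  · exact st4.2.2.2.2.2.1
  · exact st4.2.2.2.2.2.2.1
  · exact st4.2.2.2.2.2.2.2.1
  · exact st4.2.2.2.2.2.2.2.2.1
  · exact st4.2.2.2.2.2.2.2.2.2.1
  · exact st4.2.2.2.2.2.2.2.2.2.2.1
  · exact st4.2.2.2.2.2.2.2.2.2.2.2.1
  · exact st4.2.2.2.2.2.2.2.2.2.2.2.2.1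
  · exact st4.2.2.2.2.2.2.2.2.2.2.2.2.2.1
  · exact st4.2.2.2.2.2.2.2.2.2.2.2.2.2.2.1
  · exact st4.2.2.2.2.2.2.2.2.2.2.2.2.2.2.2.1
  · exact st4.2.2.2.2.2.2.2.2.2.2.2.2.2.2.2.2.1
  · exact st4.2.2.2.2.2.2.2.2.2.2.2.2.2.2.2.2.2
  · exact st5.1
  · exact st5.2.1
  · exact st5.2.2.1
  · exact st5.2.2.2.1
  · exact st5.2.2.2.2.1
  · exact st5.2.2.2.2.2.1
  · exact st5.2.2.2.2.2.2.1
  · exact st5.2.2.2.2.2.2.2.1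
  · exact st5.2.2.2.2.2.2.2.2.1
  · exact st5.2.2.2.2.2.2.2.2.2.1
  · exact st5.2.2.2.2.2.2.2.2.2.2.1
  · exact st5.2.2.2.2.2.2.2.2.2.2.2.1
  · exact st5.2.2.2.2.2.2.2.2.2.2.2.2.1
  · exact st5.2.2.2.2.2.2.2.2.2.2.2.2.2.1
  · exact st5.2.2.2.2.2.2.2.2.2.2.2.2.2.2.1
  · exact st5.2.2.2.2.2.2.2.2.2.2.2.2.2.2.2.1
  · exact st5.2.2.2.2.2.2.2.2.2.2.2.2.2.2.2.2.1
  · exact st5.2.2.2.2.2.2.2.2.2.2.2.2.2.2.2.2.2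
  · exact st6.1
  · exact st6.2.1
  · exact st6.2.2.1
  · exact st6.2.2.2.1
  · exact st6.2.2.2.2.1
  · exact st6.2.2.2.2.2.1
  · exact st6.2.2.2.2.2.2.1
  · exact st6.2.2.2.2.2.2.2.1
  · exact st6.2.2.2.2.2.2.2.2.1
  · exact st6.2.2.2.2.2.2.2.2.2.1
  · exact st6.2.2.2.2.2.2.2.2.2.2.1
  · exact st6.2.2.2.2.2.2.2.2.2.2.2.1
  · exact st6.2.2.2.2.2.2.2.2.2.2.2.2.1
  · exact st6.2.2.2.2.2.2.2.2.2.2.2.2.2.1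
  · exact st6.2.2.2.2.2.2.2.2.2.2.2.2.2.2.1
  · exact st6.2.2.2.2.2.2.2.2.2.2.2.2.2.2.2.1
  · exact st6.2.2.2.2.2.2.2.2.2.2.2.2.2.2.2.2.1
  · exact st6.2.2.2.2.2.2.2.2.2.2.2.2.2.2.2.2.2
  · exact st7.1
  · exact st7.2.1
  · exact st7.2.2.1
  · exact st7.2.2.2.1
  · exact st7.2.2.2.2.1
  · exact st7.2.2.2.2.2.1
  · exact st7.2.2.2.2.2.2.1
  · exact st7.2.2.2.2.2.2.2.1
  · exact st7.2.2.2.2.2.2.2.2.1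
  · exact st7.2.2.2.2.2.2.2.2.2.1
  · exact st7.2.2.2.2.2.2.2.2.2.2.1
  · exact st7.2.2.2.2.2.2.2.2.2.2.2.1
  · exact st7.2.2.2.2.2.2.2.2.2.2.2.2.1
  · exact st7.2.2.2.2.2.2.2.2.2.2.2.2.2.1
  · exact st7.2.2.2.2.2.2.2.2.2.2.2.2.2.2.1
  · exact st7.2.2.2.2.2.2.2.2.2.2.2.2.2.2.2.1
  · exact st7.2.2.2.2.2.2.2.2.2.2.2.2.2.2.2.2.1
  · exact st7.2.2.2.2.2.2.2.2.2.2.2.2.2.2.2.2.2
  · exact st8.1
  · exact st8.2.1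
  · exact st8.2.2.1
  · exact st8.2.2.2.1
  · exact st8.2.2.2.2.1
  · exact st8.2.2.2.2.2.1
  · exact st8.2.2.2.2.2.2.1
  · exact st8.2.2.2.2.2.2.2.1
  · exact st8.2.2.2.2.2.2.2.2.1
  · exact st8.2.2.2.2.2.2.2.2.2.1
  · exact st8.2.2.2.2.2.2.2.2.2.2.1
  · exact st8.2.2.2.2.2.2.2.2.2.2.2.1
  · exact st8.2.2.2.2.2.2.2.2.2.2.2.2.1
  · exact st8.2.2.2.2.2.2.2.2.2.2.2.2.2.1
  · exact st8.2.2.2.2.2.2.2.2.2.2.2.2.2.2.1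
  · exact st8.2.2.2.2.2.2.2.2.2.2.2.2.2.2.2.1
  · exact st8.2.2.2.2.2.2.2.2.2.2.2.2.2.2.2.2.1
  · exact st8.2.2.2.2.2.2.2.2.2.2.2.2.2.2.2.2.2
  · exact st9.1
  · exact st9.2.1
  · exact st9.2.2.1
  · exact st9.2.2.2.1
  · exact st9.2.2.2.2.1
  · exact st9.2.2.2.2.2.1
  · exact st9.2.2.2.2.2.2.1
  · exact st9.2.2.2.2.2.2.2.1
  · exact st9.2.2.2.2.2.2.2.2.1
  · exact st9.2.2.2.2.2.2.2.2.2.1
  · exact st9.2.2.2.2.2.2.2.2.2.2.1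
  · exact st9.2.2.2.2.2.2.2.2.2.2.2.1
  · exact st9.2.2.2.2.2.2.2.2.2.2.2.2.1
  · exact st9.2.2.2.2.2.2.2.2.2.2.2.2.2.1
  · exact st9.2.2.2.2.2.2.2.2.2.2.2.2.2.2.1
  · exact st9.2.2.2.2.2.2.2.2.2.2.2.2.2.2.2.1
  · exact st9.2.2.2.2.2.2.2.2.2.2.2.2.2.2.2.2.1
  · exact st9.2.2.2.2.2.2.2.2.2.2.2.2.2.2.2.2.2
  · exact st10.1
  · exact st10.2.1
  · exact st10.2.2.1
  · exact st10.2.2.2.1
  · exact st10.2.2.2.2.1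
  · exact st10.2.2.2.2.2.1
  · exact st10.2.2.2.2.2.2.1
  · exact st10.2.2.2.2.2.2.2.1
  · exact st10.2.2.2.2.2.2.2.2.1
  · exact st10.2.2.2.2.2.2.2.2.2.1
  · exact st10.2.2.2.2.2.2.2.2.2.2.1
  · exact st10.2.2.2.2.2.2.2.2.2.2.2.1
  · exact st10.2.2.2.2.2.2.2.2.2.2.2.2.1
  · exact st10.2.2.2.2.2.2.2.2.2.2.2.2.2.1
  · exact st10.2.2.2.2.2.2.2.2.2.2.2.2.2.2.1
  · exact st10.2.2.2.2.2.2.2.2.2.2.2.2.2.2.2.1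
  · exact st10.2.2.2.2.2.2.2.2.2.2.2.2.2.2.2.2.1
  · exact st10.2.2.2.2.2.2.2.2.2.2.2.2.2.2.2.2.2
  · exact st11.1
  · exact st11.2.1
  · exact st11.2.2.1
  · exact st11.2.2.2.1
  · exact st11.2.2.2.2.1
  · exact st11.2.2.2.2.2.1
  · exact st11.2.2.2.2.2.2.1
  · exact st11.2.2.2.2.2.2.2.1
  · exact st11.2.2.2.2.2.2.2.2.1
  · exact st11.2.2.2.2.2.2.2.2.2.1
  · exact st11.2.2.2.2.2.2.2.2.2.2.1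
  · exact st11.2.2.2.2.2.2.2.2.2.2.2.1
  · exact st11.2.2.2.2.2.2.2.2.2.2.2.2.1
  · exact st11.2.2.2.2.2.2.2.2.2.2.2.2.2.1
  · exact st11.2.2.2.2.2.2.2.2.2.2.2.2.2.2.1
  · exact st11.2.2.2.2.2.2.2.2.2.2.2.2.2.2.2.1
  · exact st11.2.2.2.2.2.2.2.2.2.2.2.2.2.2.2.2.1
  · exact st11.2.2.2.2.2.2.2.2.2.2.2.2.2.2.2.2.2
  · exact st12.1
  · exact st12.2.1
  · exact st12.2.2.1
  · exact st12.2.2.2.1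
  · exact st12.2.2.2.2.1
  · exact st12.2.2.2.2.2.1
  · exact st12.2.2.2.2.2.2.1
  · exact st12.2.2.2.2.2.2.2.1
  · exact st12.2.2.2.2.2.2.2.2.1
  · exact st12.2.2.2.2.2.2.2.2.2.1
  · exact st12.2.2.2.2.2.2.2.2.2.2.1
  · exact st12.2.2.2.2.2.2.2.2.2.2.2.1
  · exact st12.2.2.2.2.2.2.2.2.2.2.2.2.1
  · exact st12.2.2.2.2.2.2.2.2.2.2.2.2.2.1
  · exact st12.2.2.2.2.2.2.2.2.2.2.2.2.2.2.1
  · exact st12.2.2.2.2.2.2.2.2.2.2.2.2.2.2.2.1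
  · exact st12.2.2.2.2.2.2.2.2.2.2.2.2.2.2.2.2.1
  · exact st12.2.2.2.2.2.2.2.2.2.2.2.2.2.2.2.2.2
  · exact st13.1
  · exact st13.2.1
  · exact st13.2.2.1
  · exact st13.2.2.2.1
  · exact st13.2.2.2.2.1
  · exact st13.2.2.2.2.2.1
  · exact st13.2.2.2.2.2.2.1
  · exact st13.2.2.2.2.2.2.2.1
  · exact st13.2.2.2.2.2.2.2.2.1
  · exact st13.2.2.2.2.2.2.2.2.2.1
  · exact st13.2.2.2.2.2.2.2.2.2.2.1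
  · exact st13.2.2.2.2.2.2.2.2.2.2.2.1
  · exact st13.2.2.2.2.2.2.2.2.2.2.2.2.1
  · exact st13.2.2.2.2.2.2.2.2.2.2.2.2.2.1
  · exact st13.2.2.2.2.2.2.2.2.2.2.2.2.2.2.1
  · exact st13.2.2.2.2.2.2.2.2.2.2.2.2.2.2.2.1
  · exact st13.2.2.2.2.2.2.2.2.2.2.2.2.2.2.2.2.1
  · exact st13.2.2.2.2.2.2.2.2.2.2.2.2.2.2.2.2.2
  · exact st14.1
  · exact st14.2.1
  · exact st14.2.2.1
  · exact st14.2.2.2.1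
  · exact st14.2.2.2.2.1
  · exact st14.2.2.2.2.2.1
  · exact st14.2.2.2.2.2.2.1
  · exact st14.2.2.2.2.2.2.2.1
  · exact st14.2.2.2.2.2.2.2.2.1
  · exact st14.2.2.2.2.2.2.2.2.2.1
  · exact st14.2.2.2.2.2.2.2.2.2.2.1
  · exact st14.2.2.2.2.2.2.2.2.2.2.2.1
  · exact st14.2.2.2.2.2.2.2.2.2.2.2.2.1
  · exact st14.2.2.2.2.2.2.2.2.2.2.2.2.2.1
  · exact st14.2.2.2.2.2.2.2.2.2.2.2.2.2.2.1
  · exact st14.2.2.2.2.2.2.2.2.2.2.2.2.2.2.2.1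
  · exact st14.2.2.2.2.2.2.2.2.2.2.2.2.2.2.2.2.1
  · exact st14.2.2.2.2.2.2.2.2.2.2.2.2.2.2.2.2.2
  · exact st15.1
  · exact st15.2.1
  · exact st15.2.2.1
  · exact st15.2.2.2.1
  · exact st15.2.2.2.2.1
  · exact st15.2.2.2.2.2.1
  · exact st15.2.2.2.2.2.2.1
  · exact st15.2.2.2.2.2.2.2.1
  · exact st15.2.2.2.2.2.2.2.2.1
  · exact st15.2.2.2.2.2.2.2.2.2.1
  · exact st15.2.2.2.2.2.2.2.2.2.2.1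
  · exact st15.2.2.2.2.2.2.2.2.2.2.2.1
  · exact st15.2.2.2.2.2.2.2.2.2.2.2.2.1
  · exact st15.2.2.2.2.2.2.2.2.2.2.2.2.2.1
  · exact st15.2.2.2.2.2.2.2.2.2.2.2.2.2.2.1
  · exact st15.2.2.2.2.2.2.2.2.2.2.2.2.2.2.2.1
  · exact st15.2.2.2.2.2.2.2.2.2.2.2.2.2.2.2.2.1
  · exact st15.2.2.2.2.2.2.2.2.2.2.2.2.2.2.2.2.2
  · exact st16.1
  · exact st16.2.1
  · exact st16.2.2.1
  · exact st16.2.2.2.1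
  · exact st16.2.2.2.2.1
  · exact st16.2.2.2.2.2.1
  · exact st16.2.2.2.2.2.2.1
  · exact st16.2.2.2.2.2.2.2.1
  · exact st16.2.2.2.2.2.2.2.2.1
  · exact st16.2.2.2.2.2.2.2.2.2.1
  · exact st16.2.2.2.2.2.2.2.2.2.2.1
  · exact st16.2.2.2.2.2.2.2.2.2.2.2.1
  · exact st16.2.2.2.2.2.2.2.2.2.2.2.2.1
  · exact st16.2.2.2.2.2.2.2.2.2.2.2.2.2.1
  · exact st16.2.2.2.2.2.2.2.2.2.2.2.2.2.2.1
  · exact st16.2.2.2.2.2.2.2.2.2.2.2.2.2.2.2.1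
  · exact st16.2.2.2.2.2.2.2.2.2.2.2.2.2.2.2.2.1
  · exact st16.2.2.2.2.2.2.2.2.2.2.2.2.2.2.2.2.2
  · exact st17.1
  · exact st17.2.1
  · exact st17.2.2.1
  · exact st17.2.2.2.1
  · exact st17.2.2.2.2.1
  · exact st17.2.2.2.2.2.1
  · exact st17.2.2.2.2.2.2.1
  · exact st17.2.2.2.2.2.2.2.1
  · exact st17.2.2.2.2.2.2.2.2.1
  · exact st17.2.2.2.2.2.2.2.2.2.1
  · exact st17.2.2.2.2.2.2.2.2.2.2.1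
  · exact st17.2.2.2.2.2.2.2.2.2.2.2.1
  · exact st17.2.2.2.2.2.2.2.2.2.2.2.2.1
  · exact st17.2.2.2.2.2.2.2.2.2.2.2.2.2.1
  · exact st17.2.2.2.2.2.2.2.2.2.2.2.2.2.2.1
  · exact st17.2.2.2.2.2.2.2.2.2.2.2.2.2.2.2.1
  · exact st17.2.2.2.2.2.2.2.2.2.2.2.2.2.2.2.2.1
  · exact st17.2.2.2.2.2.2.2.2.2.2.2.2.2.2.2.2.2
  · exact st18.1
  · exact st18.2.1
  · exact st18.2.2.1
  · exact st18.2.2.2.1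
  · exact st18.2.2.2.2.1
  · exact st18.2.2.2.2.2.1
  · exact st18.2.2.2.2.2.2.1
  · exact st18.2.2.2.2.2.2.2.1
  · exact st18.2.2.2.2.2.2.2.2.1
  · exact st18.2.2.2.2.2.2.2.2.2.1
  · exact st18.2.2.2.2.2.2.2.2.2.2.1
  · exact st18.2.2.2.2.2.2.2.2.2.2.2.1
  · exact st18.2.2.2.2.2.2.2.2.2.2.2.2.1
  · exact st18.2.2.2.2.2.2.2.2.2.2.2.2.2.1
  · exact st18.2.2.2.2.2.2.2.2.2.2.2.2.2.2.1
  · exact st18.2.2.2.2.2.2.2.2.2.2.2.2.2.2.2.1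
  · exact st18.2.2.2.2.2.2.2.2.2.2.2.2.2.2.2.2.1
  · exact st18.2.2.2.2.2.2.2.2.2.2.2.2.2.2.2.2.2
  · exact st19.1
  · exact st19.2.1
  · exact st19.2.2.1
  · exact st19.2.2.2.1
  · exact st19.2.2.2.2.1
  · exact st19.2.2.2.2.2.1
  · exact st19.2.2.2.2.2.2.1
  · exact st19.2.2.2.2.2.2.2.1
  · exact st19.2.2.2.2.2.2.2.2.1
  · exact st19.2.2.2.2.2.2.2.2.2.1
  · exact st19.2.2.2.2.2.2.2.2.2.2.1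
  · exact st19.2.2.2.2.2.2.2.2.2.2.2.1
  · exact st19.2.2.2.2.2.2.2.2.2.2.2.2.1
  · exact st19.2.2.2.2.2.2.2.2.2.2.2.2.2.1
  · exact st19.2.2.2.2.2.2.2.2.2.2.2.2.2.2.1
  · exact st19.2.2.2.2.2.2.2.2.2.2.2.2.2.2.2.1
  · exact st19.2.2.2.2.2.2.2.2.2.2.2.2.2.2.2.2.1
  · exact st19.2.2.2.2.2.2.2.2.2.2.2.2.2.2.2.2.2
  · exact st20.1
  · exact st20.2.1
  · exact st20.2.2.1
  · exact st20.2.2.2.1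
  · exact st20.2.2.2.2.1
  · exact st20.2.2.2.2.2.1
  · exact st20.2.2.2.2.2.2.1
  · exact st20.2.2.2.2.2.2.2.1
  · exact st20.2.2.2.2.2.2.2.2.1
  · exact st20.2.2.2.2.2.2.2.2.2.1
  · exact st20.2.2.2.2.2.2.2.2.2.2.1
  · exact st20.2.2.2.2.2.2.2.2.2.2.2.1
  · exact st20.2.2.2.2.2.2.2.2.2.2.2.2.1
  · exact st20.2.2.2.2.2.2.2.2.2.2.2.2.2.1
  · exact st20.2.2.2.2.2.2.2.2.2.2.2.2.2.2.1
  · exact st20.2.2.2.2.2.2.2.2.2.2.2.2.2.2.2.1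
  · exact st20.2.2.2.2.2.2.2.2.2.2.2.2.2.2.2.2.1
  · exact st20.2.2.2.2.2.2.2.2.2.2.2.2.2.2.2.2.2
  · exact st21.1
  · exact st21.2.1
  · exact st21.2.2.1
  · exact st21.2.2.2.1
  · exact st21.2.2.2.2.1
  · exact st21.2.2.2.2.2.1
  · exact st21.2.2.2.2.2.2.1
  · exact st21.2.2.2.2.2.2.2.1
  · exact st21.2.2.2.2.2.2.2.2.1
  · exact st21.2.2.2.2.2.2.2.2.2.1
  · exact st21.2.2.2.2.2.2.2.2.2.2.1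
  · exact st21.2.2.2.2.2.2.2.2.2.2.2.1
  · exact st21.2.2.2.2.2.2.2.2.2.2.2.2.1
  · exact st21.2.2.2.2.2.2.2.2.2.2.2.2.2.1
  · exact st21.2.2.2.2.2.2.2.2.2.2.2.2.2.2.1
  · exact st21.2.2.2.2.2.2.2.2.2.2.2.2.2.2.2.1
  · exact st21.2.2.2.2.2.2.2.2.2.2.2.2.2.2.2.2.1
  · exact st21.2.2.2.2.2.2.2.2.2.2.2.2.2.2.2.2.2
  · exact st22.1
  · exact st22.2.1
  · exact st22.2.2.1
  · exact st22.2.2.2.1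
  · exact st22.2.2.2.2.1
  · exact st22.2.2.2.2.2.1
  · exact st22.2.2.2.2.2.2.1
  · exact st22.2.2.2.2.2.2.2.1
  · exact st22.2.2.2.2.2.2.2.2.1
  · exact st22.2.2.2.2.2.2.2.2.2.1
  · exact st22.2.2.2.2.2.2.2.2.2.2.1
  · exact st22.2.2.2.2.2.2.2.2.2.2.2.1
  · exact st22.2.2.2.2.2.2.2.2.2.2.2.2.1
  · exact st22.2.2.2.2.2.2.2.2.2.2.2.2.2.1
  · exact st22.2.2.2.2.2.2.2.2.2.2.2.2.2.2.1
  · exact st22.2.2.2.2.2.2.2.2.2.2.2.2.2.2.2.1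
  · exact st22.2.2.2.2.2.2.2.2.2.2.2.2.2.2.2.2.1
  · exact st22.2.2.2.2.2.2.2.2.2.2.2.2.2.2.2.2.2
  · exact st23.1
  · exact st23.2.1
  · exact st23.2.2.1
  · exact st23.2.2.2.1
  · exact st23.2.2.2.2.1
  · exact st23.2.2.2.2.2.1
  · exact st23.2.2.2.2.2.2.1
  · exact st23.2.2.2.2.2.2.2.1
  · exact st23.2.2.2.2.2.2.2.2

theorem st_all : ∀ c ∈ reps, oneS c = true :=
  all_parts oneS 1 423 (by norm_num) reps (by rw [reps_len]) st_parts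

end Pool.Agent.Lib.MP_afdd4d_co.T1S
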