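import Pool.Agent.Lib.MP_afdd4d_co.K8.Code
import Pool.Agent.Lib.MP_afdd4d_co.K8.View
import Pool.Agent.Lib.MP_afdd4d_co.T1S.Def
import Pool.Agent.Lib.MP_afdd4d_co.T1S.StrTab

/-!
# Witnesses of the tight windows

A window with a code from the table `TL` is tight.
-/

set_option autoImplicit false

namespace Pool.Agent.Lib.MP_afdd4d_co.T1S

open Finset

/-- The number of the first eight bits which are one. -/
def pop8 (m : ℕ) : ℕ :=
  (m.testBit 0).toNat + (m.testBit 1).toNat + (m.testBit 2).toNat + (m.testBit 3).toNat +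
    (m.testBit 4).toNat + (m.testBit 5).toNat + (m.testBit 6).toNat + (m.testBit 7).toNat

/-- The set of a bit mask. -/
def ms (m : ℕ) : Finset (Fin 8) := univ.filter fun z => m.testBit (z : ℕ) = true

theorem card_ms (m : ℕ) : (ms m).card = pop8 m := by
  unfold ms pop8
  rw [Finset.card_filter, Fin.sum_univ_eight]
  have h : ∀ b : Bool, (if b = true then 1 else 0) = b.toNat := by decide
  simp only [h]
  rfl

theorem ms_and (m m' : ℕ) : ms (m &&& m') = ms m ∩ ms m' := by
  ext z
  simp only [ms, Finset.mem_filter, Finset.mem_univ, true_and, Finset.mem_inter, Nat.testBit_and,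
    Bool.and_eq_true]

/-- The quadruples as bit masks and the bits of the code whose sum is the bit of the quadruple. -/
def QT : List (ℕ × List ℕ) := [
  (15, [0]), (23, [1]), (39, [4]), (71, [10]), (135, [20]), (27, [2]), (43, [5]), (75, [11]),
  (139, [21]), (51, [7]), (83, [13]), (147, [23]), (99, [16]), (163, [26]), (195, [30]),
  (29, [3]), (45, [6]), (77, [12]), (141, [22]), (53, [8]), (85, [14]), (149, [24]), (101, [17]),
  (165, [27]), (197, [31]), (57, [9]), (89, [15]), (153, [25]), (105, [18]), (169, [28]),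
  (201, [32]), (113, [19]), (177, [29]), (209, [33]), (225, [34]), (30, [0, 1, 2, 3]),
  (46, [0, 4, 5, 6]), (78, [0, 10, 11, 12]), (142, [0, 20, 21, 22]), (54, [1, 4, 7, 8]),
  (86, [1, 10, 13, 14]), (150, [1, 20, 23, 24]), (102, [4, 10, 16, 17]), (166, [4, 20, 26, 27]),
  (198, [10, 20, 30, 31]), (58, [2, 5, 7, 9]), (90, [2, 11, 13, 15]), (154, [2, 21, 23, 25]),
  (106, [5, 11, 16, 18]), (170, [5, 21, 26, 28]), (202, [11, 21, 30, 32]),
  (114, [7, 13, 16, 19]), (178, [7, 23, 26, 29]), (210, [13, 23, 30, 33]),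
  (226, [16, 26, 30, 34]), (60, [3, 6, 8, 9]), (92, [3, 12, 14, 15]), (156, [3, 22, 24, 25]),
  (108, [6, 12, 17, 18]), (172, [6, 22, 27, 28]), (204, [12, 22, 31, 32]),
  (116, [8, 14, 17, 19]), (180, [8, 24, 27, 29]), (212, [14, 24, 31, 33]),
  (228, [17, 27, 31, 34]), (120, [9, 15, 18, 19]), (184, [9, 25, 28, 29]),
  (216, [15, 25, 32, 33]), (232, [18, 28, 32, 34]), (240, [19, 29, 33, 34])]

theorem QT_ok : ∀ p ∈ QT, K8.exF (ms p.1) = K8.fm p.2 ∧ ∀ j ∈ p.2, j < 35 := by
  decide +kernel

theorem QT_surj : ∀ Q ∈ (univ : Finset (Fin 8)).powersetCard 4, ∃ p ∈ QT, ms p.1 = Q := by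
  decide +kernel

/-- The code of the lane `l` of the base `c`. -/
def cd (c l : ℕ) : ℕ := c + 2 ^ 20 * K8.cbG l [[8], [9], [10], [11], [12], [13], [0], [1], [2], [3],
  [4], [5], [6], [7], [14]]

/-- The set of the masks with two bits. -/
def P2 : ℕ := 6277101736848204796510388876134615003923331065896005670504

/-- The set of the masks with an odd number of bits. -/
def PO : ℕ := 47758914269546354982683078068829456704164423862093743397580034411621752859030

/-- The set of the masks with three bits. -/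
def P3 : ℕ := 26960359788324348720949767030734241706367231428990564075626486589568

/-- A bit as a number. -/
def sb (m j : ℕ) : ℕ := Nat.mod (Nat.shiftRight m j) 2

/-- The check of one quadruple. -/
def okQ (code chi T : ℕ) (p : ℕ × List ℕ) : ℕ :=
  Nat.mul (Nat.sub 1 (sb P2 (Nat.land p.1 chi)))
    (Nat.mod (Nat.add (K8.xbG code p.2)
      (Nat.add (sb PO (Nat.land p.1 chi)) (sb P3 (Nat.land T p.1)))) 2)

/-- The number of wrong quadruples. -/
def okS (code chi T : ℕ) (L : List (ℕ × List ℕ)) : ℕ :=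
  @List.rec (ℕ × List ℕ) (fun _ => ℕ) 0 (fun p _ ih => Nat.add (okQ code chi T p) ih) L

/-- The check of a witness. -/
def okW (code chi T : ℕ) : Bool :=
  (Nat.beq (pop8 T) 0 || Nat.beq (pop8 T) 3) &&
  (Nat.beq (pop8 (T &&& chi)) 0 || Nat.beq (pop8 (T &&& chi)) (pop8 T)) &&
  Nat.beq (okS code chi T QT) 0

theorem sb_eq (m j : ℕ) : sb m j = (m.testBit j).toNat := K8.shr_mod_two m j

theorem P_ok : ∀ m < 256, P2.testBit m = decide (pop8 m = 2) ∧
    PO.testBit m = decide (Odd (pop8 m)) ∧ P3.testBit m = decide (pop8 m = 3) := by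
  decide +kernel

theorem QT_lt : ∀ p ∈ QT, p.1 < 256 := by decide +kernel

theorem okS_zero (code chi T : ℕ) (L : List (ℕ × List ℕ)) (h : okS code chi T L = 0) :
    ∀ p ∈ L, okQ code chi T p = 0 := by
  induction L with
  | nil => intro p hp; exact absurd hp List.not_mem_nil
  | cons a L ih =>
    have e : okS code chi T (a :: L) = okQ code chi T a + okS code chi T L := rfl
    rw [e] at h
    intro p hp
    rcases List.mem_cons.mp hp with rfl | hp
    · omega
    · exact ih (by omega) p hp

theorem okQ_zero (code chi T : ℕ) (p : ℕ × List ℕ) (hp : p.1 < 256)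
    (h : okQ code chi T p = 0) : pop8 (p.1 &&& chi) = 2 ∨
      K8.xl code.testBit p.2 =
        (decide (Odd (pop8 (p.1 &&& chi))) ^^ decide (pop8 (T &&& p.1) = 3)) := by
  have h1 : p.1 &&& chi < 2 ^ 8 := lt_of_le_of_lt Nat.and_le_left hp
  have h2 : T &&& p.1 < 2 ^ 8 := lt_of_le_of_lt Nat.and_le_right hp
  have e : okQ code chi T p = (1 - sb P2 (p.1 &&& chi)) *
      ((K8.xbG code p.2 + (sb PO (p.1 &&& chi) + sb P3 (T &&& p.1))) % 2) := rfl
  rw [e, sb_eq, sb_eq, sb_eq, K8.xbG_eq, (P_ok _ h1).1, (P_ok _ h1).2.1, (P_ok _ h2).2.2] at h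
  by_cases h3 : pop8 (p.1 &&& chi) = 2
  · exact Or.inl h3
  · right
    rw [decide_eq_false h3] at h
    revert h
    cases K8.xl code.testBit p.2 <;> cases decide (Odd (pop8 (p.1 &&& chi))) <;>
      cases decide (pop8 (T &&& p.1) = 3) <;> decide

theorem cd_testBit (c l : ℕ) (hc : c < 2 ^ 20) (r : ℕ) (hr : r < 35) :
    (cd c l).testBit r = if r < 20 then c.testBit r else l.testBit (K8.lai.getD (r - 20) 0) := by
  unfold cd
  rw [add_comm, Nat.testBit_two_pow_mul_add _ hc]
  by_cases h : r < 20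
  · rw [if_pos h, if_pos h]
  · rw [if_neg h, if_neg h, K8.cbG_testBit]
    obtain ⟨k, rfl⟩ : ∃ k, r = 20 + k := ⟨r - 20, by omega⟩
    have hk : k < 15 := by omega
    rw [Nat.add_sub_cancel_left]
    have key : ∀ k < 15, [[8], [9], [10], [11], [12], [13], [0], [1], [2], [3],
      [4], [5], [6], [7], [14]].getD k [] = [K8.lai.getD k 0] := by decide
    rw [key k hk]
    simp [K8.xl]

theorem lai_lam : ∀ k < 15, K8.lai.getD k 0 < 15 ∧ K8.lam.getD (K8.lai.getD k 0) 0 = 20 + k := by
  decide

/-- A window with a witness is tight. -/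
theorem tight_of_wit {n : ℕ} (H : Finset (Finset (Fin n))) (t : Fin 8 → Fin n)
    (ht : Function.Injective t) (hev : K8.EvT H t) (c l chi T : ℕ)
    (h1 : idx 20 (K8.gc H t) = c)
    (h2 : ∀ i < 15, K8.gc H t (K8.lam.getD i 0) = l.testBit i)
    (h : okW (cd c l) chi T = true) : Tight H (univ.image t) := by
  classical
  have hc : c < 2 ^ 20 := h1 ▸ idx_lt 20 _
  -- the code
  have hcode : ∀ r < 35, (cd c l).testBit r = K8.gc H t r := by
    intro r hr
    rw [cd_testBit c l hc r hr]
    by_cases h3 : r < 20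
    · rw [if_pos h3, ← h1, testBit_idx]
      simp [h3]
    · rw [if_neg h3]
      obtain ⟨k, rfl⟩ : ∃ k, r = 20 + k := ⟨r - 20, by omega⟩
      have hk : k < 15 := by omega
      rw [Nat.add_sub_cancel_left, ← h2 _ (lai_lam k hk).1, (lai_lam k hk).2]
  unfold okW at h
  rw [Bool.and_eq_true, Bool.and_eq_true] at h
  obtain ⟨⟨hT1, hT2⟩, hQ'⟩ := h
  have hQ := okS_zero _ _ _ _ (Nat.eq_of_beq_eq_true hQ')
  rw [Bool.or_eq_true] at hT1 hT2
  have hT1' : (ms T).card = 0 ∨ (ms T).card = 3 := by
    rw [card_ms]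
    exact hT1.imp Nat.eq_of_beq_eq_true Nat.eq_of_beq_eq_true
  have hT2' : (ms T ∩ ms chi).card = 0 ∨ (ms T ∩ ms chi).card = (ms T).card := by
    rw [← ms_and, card_ms, card_ms]
    exact hT2.imp Nat.eq_of_beq_eq_true Nat.eq_of_beq_eq_true
  -- the colouring and the triple
  let col : Fin n → Bool := fun v => decide (∃ z : Fin 8, t z = v ∧ chi.testBit (z : ℕ) = true)
  have hcol : ∀ z : Fin 8, col (t z) = chi.testBit (z : ℕ) := by
    intro z
    by_cases h3 : chi.testBit (z : ℕ) = true
    · rw [h3]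
      exact decide_eq_true ⟨z, rfl, h3⟩
    · rw [Bool.eq_false_iff.mpr h3]
      apply decide_eq_false
      rintro ⟨z', hz', h4⟩
      rw [ht hz'] at h4
      exact h3 h4
  refine ⟨col, (ms T).image t, ?_, ?_⟩
  · intro x hx y hy
    obtain ⟨z, hz, rfl⟩ := Finset.mem_image.mp hx
    obtain ⟨w, hw, rfl⟩ := Finset.mem_image.mp hy
    rw [hcol, hcol]
    rcases hT2' with h3 | h3
    · rw [Finset.card_eq_zero] at h3
      have h4 : ∀ u ∈ ms T, chi.testBit (u : ℕ) = false := by
        intro u hu
        by_contra h5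
        have h6 : u ∈ ms T ∩ ms chi := by
          rw [Finset.mem_inter]
          refine ⟨hu, ?_⟩
          rw [ms, Finset.mem_filter]
          exact ⟨Finset.mem_univ _, by simpa using h5⟩
        rw [h3] at h6
        exact absurd h6 (Finset.notMem_empty _)
      rw [h4 z hz, h4 w hw]
    · have h4 : ms T ∩ ms chi = ms T :=
        Finset.eq_of_subset_of_card_le Finset.inter_subset_left h3.ge
      have h5 : ∀ u ∈ ms T, chi.testBit (u : ℕ) = true := by
        intro u hu
        rw [← h4, Finset.mem_inter, ms, ms, Finset.mem_filter, Finset.mem_filter] at hu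
        exact hu.2.2
      rw [h5 z hz, h5 w hw]
  · intro Q hQs hQc hne
    -- the preimage of the quadruple
    obtain ⟨Q0, hQ0⟩ : ∃ Q0 : Finset (Fin 8), Q0.image t = Q := by
      refine ⟨univ.filter fun z => t z ∈ Q, ?_⟩
      ext v
      rw [Finset.mem_image]
      constructor
      · rintro ⟨z, hz, rfl⟩
        exact (Finset.mem_filter.mp hz).2
      · intro hv
        obtain ⟨z, _, hz⟩ := Finset.mem_image.mp (hQs hv)
        exact ⟨z, Finset.mem_filter.mpr ⟨Finset.mem_univ _, hz ▸ hv⟩, hz⟩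
    have hQ0c : Q0.card = 4 := by
      rw [← Finset.card_image_of_injective _ ht, hQ0, hQc]
    obtain ⟨p, hp, hpQ⟩ := QT_surj Q0 (Finset.mem_powersetCard.mpr ⟨Finset.subset_univ _, hQ0c⟩)
    have h3 := okQ_zero _ _ _ p (QT_lt p hp) (hQ p hp)
    have hcount : (Q.filter fun x => col x = true).card = pop8 (p.1 &&& chi) := by
      have e0 : Q0.filter (fun z => col (t z) = true) = Q0 ∩ ms chi := by
        ext z
        rw [Finset.mem_filter, Finset.mem_inter, hcol, ms, Finset.mem_filter]
        simp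
      rw [← card_ms, ms_and, hpQ, ← hQ0, Finset.filter_image,
        Finset.card_image_of_injective _ ht, e0]
    have hTQ : ((ms T).image t).card = 3 ∧ (ms T).image t ⊆ Q ↔ pop8 (T &&& p.1) = 3 := by
      rw [← card_ms, ms_and, hpQ, ← hQ0, Finset.card_image_of_injective _ ht]
      constructor
      · rintro ⟨h4, h5⟩
        have h6 : ms T ⊆ Q0 := by
          intro z hz
          have h7 := h5 (Finset.mem_image_of_mem t hz)
          obtain ⟨w, hw, h8⟩ := Finset.mem_image.mp h7
          exact ht h8 ▸ hw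
        rw [Finset.inter_eq_left.mpr h6, h4]
      · intro h4
        have h5 : (ms T).card = 3 := by
          rcases hT1' with h6 | h6
          · have := Finset.card_le_card (Finset.inter_subset_left (s₁ := ms T) (s₂ := Q0))
            omega
          · exact h6
        refine ⟨h5, Finset.image_subset_image ?_⟩
        have h6 : ms T ∩ Q0 = ms T :=
          Finset.eq_of_subset_of_card_le Finset.inter_subset_left (by rw [h4, h5])
        exact Finset.inter_eq_left.mp h6
    have hbit : Q ∈ H ↔ K8.xl (cd c l).testBit p.2 = true := by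
      have e1 : K8.xl (cd c l).testBit p.2 = K8.zb H t Q0 := by
        rw [K8.zb_eq H t hev Q0 hQ0c, ← hpQ, (QT_ok p hp).1,
          K8.lf_fm 35 _ _ (QT_ok p hp).2]
        exact K8.xl_congr _ _ _ fun j hj => hcode j ((QT_ok p hp).2 j hj)
      rw [e1]
      delta K8.zb E
      rw [hQ0]
      simp
    rw [hbit, hTQ, hcount]
    rw [hcount] at hne
    rcases h3 with h3 | h3
    · exact absurd h3 hne
    · rw [h3]
      by_cases ha : Odd (pop8 (p.1 &&& chi)) <;> by_cases hb : pop8 (T &&& p.1) = 3 <;>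
        simp [ha, hb]

/-- All entries of the table are witnesses. -/
theorem wit_all : ∀ p ∈ TL, ∀ q ∈ p.2, okW (cd p.1 q.1) q.2.1 q.2.2 = true := by
  decide +kernel

end Pool.Agent.Lib.MP_afdd4d_co.T1S
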