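import Pool.Agent.Lib.MP_afdd4d_co.K8.D6.Tb
import Pool.Agent.Lib.MP_afdd4d_co.K8.Even8
import Pool.Agent.Lib.MP_afdd4d_co.T1S.StrAll
import Pool.Agent.Lib.MP_afdd4d_co.T1S.Wit

/-!
# The strict local inequality for even 4-graphs on eight points
-/

namespace Pool.Agent.Lib.MP_afdd4d_co.T1S

open K8 Finset

theorem B5_val' : Og.B5 = 607717849433024 := by
  unfold Og.B5
  norm_num

theorem gN_D6_le' (p x y : ℕ) :
    gN D6.D.g 562949953421312 p x y ≤ 2 * 562949953421312 := by
  unfold gN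
  have h := abs_le.mp (TF.g_abs D6.rowsOK (p + 1024 * x) (p + 1024 * y))
  have hB : ((D6.D.B : ℕ) : ℤ) = 562949953421312 := rfl
  rw [Int.toNat_le]
  push_cast
  linarith [h.2]

/-- The data of the check (the same as for the bound of even 4-graphs). -/
noncomputable def evS : Chk where
  κ5 := Og.kern5
  κ6 := D6.D.kern D6.rowsOK D6.psdOK
  g := D6.D.g
  a := (Og.a5 : ℤ)
  Lo := (Og.Lo5 : ℤ)
  O := 562949953421312
  O' := 562949953421312
  B2 := Og.B5
  Q := Og.Q5
  bk := bkE
  row := rowE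
  W := 64
  hW := by norm_num
  ha := Og.ha5
  hlam := Og.hlam5
  hk6 := fun H => D6.D.kern_f D6.rowsOK D6.psdOK H
  hs := TF.g_symm D6.numOK D6.symOK
  hO := TF.g_abs D6.rowsOK
  hQ2 := Og.hQ25
  hp5 := Og.hp5'
  hp6 := fun H τ s u w => TF.evk_g_perm D6.invOK H τ s u w
  hQ := fun H s hs hev => Og.hQ5' H s hs hev
  hbd := by unfold Og.B5; norm_num
  hbk := fun p hp x0 hx y0 hy =>
    (BE.blkH_ar D6.rowsOK D6.prOK D6.eOK (BE.tbH D6.TB) D6.tb_ok p x0 y0 hp hx hy).congr
      fun _ => (TF.gN_eq D6.D _ _ _ _ hp).symm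
  hrow := fun c _ => by
    refine Ar.add (TF.row_ar D6.rowsOK D6.prOK (c % 1024) (c / 1024)
      (Nat.mod_lt _ (by norm_num))) (Og.row5_ar (c % 1024) (Nat.mod_lt _ (by norm_num)))
      (by norm_num) ?_
    intro b
    have h1 := gN_D6_le' (c % 1024) (c / 1024) (idx 10 b)
    have h2 := Og.hQ25 (c % 1024 + 1024 * idx 10 b)
    rw [B5_val'] at h2
    calc gN D6.D.g 562949953421312 (c % 1024) (c / 1024) (idx 10 b) +
        Og.Q5 (c % 1024 + 1024 * idx 10 b) ≤ 2 * 562949953421312 + 607717849433024 :=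
          Nat.add_le_add h1 h2
      _ < 2 ^ 64 := by norm_num

theorem evS_O : evS.O = 562949953421312 := rfl

theorem evS_O' : evS.O' = 562949953421312 := rfl

theorem evS_Q : evS.Q = Og.Q5 := rfl

theorem evS_B2 : evS.B2 = Og.B5 := rfl

theorem Q5_le' (c : ℕ) : Og.Q5 c ≤ 607717849433024 := by
  have h := Og.hQ25 c
  rw [B5_val'] at h
  exact h

theorem arS (c : ℕ) (hc : c < 2 ^ 20) : Ar 64 15 (arG 64 (tabG 64 bkE) rowE wd c)
    fun b => fV (gN evS.g evS.O) evS.Q wd (mkz c b) := by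
  have hW : 0 < evS.W := by have := evS.hW; omega
  have h2W : 2 ^ evS.W = 2 ^ (evS.W - 1) + 2 ^ (evS.W - 1) := by
    obtain ⟨k, hk⟩ : ∃ k, evS.W = k + 1 := ⟨evS.W - 1, by have := evS.hW; omega⟩
    rw [hk, Nat.add_sub_cancel, pow_succ]; ring
  have hbd := evS.hbd
  have har := arG_ar (gN evS.g evS.O) evS.Q (tabG evS.W evS.bk) evS.row hW (2 * evS.O) evS.B2
    (fun p x y => evS.gN_le p x y) evS.hQ2
    (fun c _ => tabG_ar hW (gN evS.g evS.O) evS.bk evS.hbk c) evS.hrow 49 (by omega) wd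
    (by decide) (by rw [Chk.wd_len]) c hc
  have h1 : evS.W = 64 := rfl
  have h5 : evS.bk = bkE := rfl
  have h6 : evS.row = rowE := by
    unfold evS
    with_reducible rfl
  rw [h1, h5, h6] at har
  exact har

theorem fV_lt (b : ℕ → Bool) : fV (gN evS.g evS.O) evS.Q wd b ≤ 84947270057506752 := by
  have h1 := fV_le (gN evS.g evS.O) evS.Q (2 * evS.O) evS.B2 (fun p x y => evS.gN_le p x y)
    evS.hQ2 wd b
  rw [Chk.wd_len, evS_O, evS_B2, B5_val'] at h1
  exact le_trans h1 (by norm_num)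

/-- The inequality at a lane. -/
theorem lane_of_oneS (c : ℕ) (hc : c < 2 ^ 20) (hone : oneS c = true) (b : ℕ → Bool) :
    fV (gN evS.g evS.O) evS.Q wd (mkz c b) +
      (268435456 - if idx 15 b ∈ lns c then 268435456 else 0) ≤
        20266198323167232 - Og.Q5 c := by
  have hm := mskG_ar (W := 64) (n := 15) (s := 268435456) (by norm_num) (by norm_num) (lns c)
    (lns_lt c)
  have hcs := csG_ar (W := 64) (c := 268435456) (by norm_num) (by norm_num) 15
  have hsub := hcs.sub hm (by norm_num) (fun b => by split_ifs <;> norm_num)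
  have hle : ∀ b : ℕ → Bool, fV (gN evS.g evS.O) evS.Q wd (mkz c b) +
      (268435456 - if idx 15 b ∈ lns c then 268435456 else 0) < 2 ^ 63 := by
    intro b
    have h1 := fV_lt (mkz c b)
    have h2 : (268435456 - if idx 15 b ∈ lns c then 268435456 else 0) ≤ 268435456 :=
      Nat.sub_le _ _
    calc _ ≤ 84947270057506752 + 268435456 := Nat.add_le_add h1 h2
      _ < 2 ^ 63 := by norm_num
  have hadd := (arS c hc).add hsub (by norm_num) (fun b => lt_of_lt_of_le (hle b) (by norm_num))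
  have hK : 20266198323167232 - Og.Q5 c < 2 ^ 63 :=
    lt_of_le_of_lt (Nat.sub_le _ _) (by norm_num)
  exact leG_le (W := 64) (n := 15) (by norm_num) hadd hK hle hone b

section tup
variable {n : ℕ} (H : Finset (Finset (Fin n)))

theorem fV_gc (c : ℕ) (t : Fin 8 → Fin n) (htc : idx 20 (gc H t) = c) :
    fV (gN evS.g evS.O) evS.Q wd (mkz c fun l => gc H t (lam.getD l 0)) =
      fV (gN evS.g evS.O) evS.Q wd (gc H t) := by
  apply fV_congr
  intro i hi
  unfold mkz
  by_cases h7 : i < 20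
  · rw [if_pos h7, ← htc, testBit_idx]
    simp [h7]
  · rw [if_neg h7]
    obtain ⟨_, _, _, _, h10⟩ := lai_data (i - 20) (by omega)
    have h11 : lam.getD (lai.getD (i - 20) 0) 0 = i := by omega
    exact congrArg (gc H t) h11

/-- The two parts of the local inequality. -/
noncomputable def loc (t : Fin 8 → Fin n) : ℤ :=
  DS (m := 7) (q2 H (evS.κ5.f H) evS.a evS.Lo) t + PS (evk H (gK H evS.g)) t

theorem loc_weak (c : ℕ) (hc : c < 2 ^ 20) (hone : oneS c = true) (t : Fin 8 → Fin n)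
    (ht : Function.Injective t) (hev : EvT H t) (htc : idx 20 (gc H t) = c) : loc H t ≤ 0 := by
  have h1 := lane_of_oneS c hc hone fun l => gc H t (lam.getD l 0)
  rw [fV_gc H c t htc] at h1
  have h4 : fV (gN evS.g evS.O) evS.Q wd (gc H t) ≤ 20266198323167232 - Og.Q5 c :=
    le_trans (Nat.le_add_right _ _) h1
  refine even_local H evS.g evS.O evS.O' (20266198323167232 - Og.Q5 c) evS.Q
    (fun c d => (abs_le.mp (evS.hO c d)).1) evS.hs (evS.hp6 H)
    (q2 H (evS.κ5.f H) evS.a evS.Lo) (q2_perm H (evS.κ5.f H) (evS.hp5 H) evS.a evS.Lo) t ht hev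
    (evS.hQ H) ?_ h4
  rw [htc, evS_Q, evS_O, evS_O']
  have := Q5_le' c
  omega

theorem loc_strict (c : ℕ) (hc : c < 2 ^ 20) (hone : oneS c = true) (t : Fin 8 → Fin n)
    (ht : Function.Injective t) (hev : EvT H t) (htc : idx 20 (gc H t) = c)
    (hnl : idx 15 (fun l => gc H t (lam.getD l 0)) ∉ lns c) : loc H t + 2 ^ 29 ≤ 0 := by
  have h1 := lane_of_oneS c hc hone fun l => gc H t (lam.getD l 0)
  rw [fV_gc H c t htc, if_neg hnl] at h1
  have h4 : fV (gN evS.g evS.O) evS.Q wd (gc H t) ≤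
      20266198323167232 - Og.Q5 c - 268435456 := by omega
  have hQ := Q5_le' c
  have h5 := even_local H evS.g evS.O 562949919866880 (20266198323167232 - Og.Q5 c - 268435456)
    evS.Q (fun c d => (abs_le.mp (evS.hO c d)).1) evS.hs (evS.hp6 H)
    (fun s => q2 H (evS.κ5.f H) evS.a evS.Lo s + 67108864)
    (fun τ s => by rw [q2_perm H (evS.κ5.f H) (evS.hp5 H) evS.a evS.Lo τ s]) t ht hev
    (fun s hs hs' => by
      have h6 := evS.hQ H s hs hs'
      rw [evS_O'] at h6
      push_cast at h6 ⊢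
      linarith)
    (by
      rw [htc, evS_Q, evS_O]
      omega) h4
  have h7 : DS (m := 7) (fun s => q2 H (evS.κ5.f H) evS.a evS.Lo s + 67108864) t =
      DS (m := 7) (q2 H (evS.κ5.f H) evS.a evS.Lo) t + 2 ^ 29 := by
    unfold DS
    rw [Finset.sum_add_distrib, Finset.sum_const, Finset.card_univ, Fintype.card_fin]
    norm_num
  unfold loc
  rw [h7] at h5
  linarith

theorem tight_of_mem (c : ℕ) (t : Fin 8 → Fin n) (ht : Function.Injective t) (hev : EvT H t)
    (htc : idx 20 (gc H t) = c) (hl : idx 15 (fun l => gc H t (lam.getD l 0)) ∈ lns c) :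
    Tight H (univ.image t) := by
  obtain ⟨p, hp, hpc, q, hq, hql⟩ := lns_mem c _ hl
  have h1 := wit_all p hp q hq
  refine tight_of_wit H t ht hev p.1 q.1 q.2.1 q.2.2 (by rw [hpc]; exact htc) ?_ h1
  intro i hi
  rw [hql, testBit_idx]
  simp [hi]

open Classical in
/-- The local inequality, with a strict part. -/
theorem loc_all (t : Fin 8 → Fin n) (ht : Function.Injective t) (hev : EvT H t) :
    loc H t + (if Tight H (univ.image t) then 0 else 2 ^ 29) ≤ 0 := by
  have hr : ∀ c ∈ reps, c < 2 ^ 20 := by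
    have h := reps_lt
    rw [List.all_eq_true] at h
    exact fun c hc => of_decide_eq_true (h c hc)
  refine even_reduce H (fun t : Fin 8 → Fin n =>
    loc H t + (if Tight H (univ.image t) then 0 else 2 ^ 29) ≤ 0) ?_ ?_ t ht hev
  · intro t σ h1
    have e1 : univ.image (t ∘ σ) = univ.image t := by
      rw [← Finset.image_image, Finset.image_univ_equiv σ]
    unfold loc at h1 ⊢
    rw [e1, DS_perm8 _ (q2_perm H (evS.κ5.f H) (evS.hp5 H) evS.a evS.Lo) σ t,
      PS_perm (evk H (gK H evS.g)) (evS.hp6 H) σ t] at h1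
    exact h1
  · intro c hc t ht hev htc
    by_cases h1 : Tight H (univ.image t)
    · rw [if_pos h1, add_zero]
      exact loc_weak H c (hr c hc) (st_all c hc) t ht hev htc
    · rw [if_neg h1]
      exact loc_strict H c (hr c hc) (st_all c hc) t ht hev htc
        fun h2 => h1 (tight_of_mem H c t ht hev htc h2)

open Classical in
/-- The strict local inequality in terms of the kernels. -/
theorem strict_local (hev : EvenH n H) (t : Fin 8 → Fin n) (ht : Function.Injective t) :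
    16 * evS.Lo + DS (PS (evS.κ5.f H)) t + PS (evS.κ6.f H) t +
      (if Tight H (univ.image t) then 0 else 2 ^ 29) ≤ 8 * evS.a * (N8 H t : ℤ) := by
  have key := loc_all H t ht (evT_of_evenH H hev t ht)
  unfold loc at key
  rw [evS.hk6 H]
  have h6 := lin_aux (fun x => (N8 H (t ∘ x.succAbove) : ℤ))
    (fun x => PS (evS.κ5.f H) (t ∘ x.succAbove)) evS.a evS.Lo (N8 H t : ℤ) (by
      have e1 := DS_N8 (m := 7) (by norm_num) H t
      have e4 : ((∑ x : Fin (7 + 1), N8 H (t ∘ x.succAbove) : ℕ) : ℤ) =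
          (((7 - 3) * N8 H t : ℕ) : ℤ) := congrArg Nat.cast e1
      rw [Nat.cast_sum, Nat.cast_mul] at e4
      exact e4)
  have h7 : DS (m := 7) (q2 H (evS.κ5.f H) evS.a evS.Lo) t =
      -∑ x : Fin (7 + 1), (2 * evS.a * (N8 H (t ∘ x.succAbove) : ℤ) - 2 * evS.Lo -
        PS (evS.κ5.f H) (t ∘ x.succAbove)) := by
    rw [← Finset.sum_neg_distrib]
    unfold DS q2
    refine Finset.sum_congr rfl fun x _ => ?_
    ring
  have h8 : DS (PS (evS.κ5.f H)) t = ∑ x : Fin (7 + 1), PS (evS.κ5.f H) (t ∘ x.succAbove) := rfl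
  rw [h6] at h7
  rw [h7, ← h8] at key
  linarith

end tup

end Pool.Agent.Lib.MP_afdd4d_co.T1S
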