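import Pool.Agent.Lib.MP_afdd4d_co.T1S.Sum8
import Pool.Agent.Lib.MP_afdd4d_co.T1S.StrLoc

/-!
# Few windows are not tight if the density is nearly 11/16
-/

namespace Pool.Agent.Lib.MP_afdd4d_co.T1S

open K8 Finset

/-- An even 4-graph of density nearly 11/16 has few 8-sets that are not tight. -/
theorem strict8 : ∀ ε : ℝ, 0 < ε → ∃ η : ℝ, 0 < η ∧ ∃ N : ℕ, ∀ n : ℕ, N ≤ n →
    ∀ H : Finset (Finset (Fin n)), (∀ e ∈ H, e.card = 4) → EvenFive H →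
      (11 / 16 - η) * ((n.choose 4 : ℕ) : ℝ) ≤ (H.card : ℝ) →
        ((bad8 H).card : ℝ) ≤ ε * (n : ℝ) ^ 8 :=
  strict8_of evS.κ5 evS.κ6 evS.a evS.Lo (2 ^ 29) evS.ha (by norm_num) evS.hlam
    fun _ H _ hE t ht => strict_local H hE t ht

end Pool.Agent.Lib.MP_afdd4d_co.T1S
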