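import Pool.Agent.Lib.MP_afdd4d_co.T1S.Main
import Pool.Agent.Lib.MP_afdd4d_co.T1S.Strict8

/-!
MP_afdd4d_co, T1S: stability of the class of even 4-graphs.

An even 4-graph (every five points span an even number of its members) of density nearly 11/16 is
close to a Giraud construction `Gir χ M`.
-/

namespace Pool.Agent.Lib.MP_afdd4d_co.T1S

open Finset MC

/-- Stability of the class of even 4-graphs: an even 4-graph of density nearly 11/16 is close to a
Giraud construction. -/
theorem t1s : ∀ ε : ℝ, 0 < ε → ∃ η : ℝ, 0 < η ∧ ∃ N : ℕ, ∀ n : ℕ, N ≤ n →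
      ∀ H : Finset (Finset (Fin n)), (∀ e ∈ H, e.card = 4) → EvenFive H →
      (11 / 16 - η) * ((n.choose 4 : ℕ) : ℝ) ≤ (H.card : ℝ) →
      ∃ χ : Fin n → Bool, ∃ M : Fin n → Fin n → Bool,
        ((symmDiff H (Gir χ M)).card : ℝ) ≤ ε * ((n.choose 4 : ℕ) : ℝ) :=
  t1s_of strict8

end Pool.Agent.Lib.MP_afdd4d_co.T1S
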