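import Pool.Agent.Lib.MP_afdd4d_co.T1S.Def

/-!
MP_afdd4d_co, T1S, module S3: averaging, existence of a good independent 13-set.
-/

set_option autoImplicit false

namespace Pool.Agent.Lib.MP_afdd4d_co.T1S

open Finset

/-- double counting of `(K, t)` with `supp t ∪ J` a member of `B8`, `J ⊆ K` -/
theorem sum_bad_le {n : ℕ} {τ : Type} [DecidableEq τ] [Fintype τ] (supp : τ → Finset (Fin n))
    (B : Finset (Fin n) → Finset τ) (B8 : Finset (Finset (Fin n))) (j c : ℕ)
    (hB : ∀ K : Finset (Fin n), K.card = 13 → ∀ t ∈ B K, Disjoint (supp t) K ∧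
      ∃ J ⊆ K, J.card = j ∧ supp t ∪ J ∈ B8)
    (hc : ∀ S ∈ B8, (univ.filter fun t => supp t ⊆ S).card ≤ c) :
    ∑ K ∈ univ.powersetCard 13, (B K).card ≤ c * (B8.card * n.choose (13 - j)) := by
  classical
  have hch : ∀ x : Finset (Fin n) × τ, ∃ J : Finset (Fin n), x.1.card = 13 → x.2 ∈ B x.1 →
      Disjoint (supp x.2) x.1 ∧ J ⊆ x.1 ∧ J.card = j ∧ supp x.2 ∪ J ∈ B8 := by
    intro x
    by_cases h : x.1.card = 13 ∧ x.2 ∈ B x.1
    · obtain ⟨h1, J, h2, h3, h4⟩ := hB x.1 h.1 x.2 h.2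
      exact ⟨J, fun _ _ => ⟨h1, h2, h3, h4⟩⟩
    · exact ⟨∅, fun h1 h2 => absurd ⟨h1, h2⟩ h⟩
  choose J hJ using hch
  have h1 : ∑ K ∈ univ.powersetCard 13, (B K).card =
      (((univ : Finset (Fin n)).powersetCard 13).sigma fun K => B K).card := by
    rw [card_sigma]
  have h2 : (((univ : Finset (Fin n)).powersetCard 13).sigma fun K => B K).card ≤
      (B8.sigma fun S => ((univ : Finset (Fin n)).powersetCard (13 - j)) ×ˢ
        (univ.filter fun t : τ => supp t ⊆ S)).card := by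
    refine card_le_card_of_injOn
      (fun x => ⟨supp x.2 ∪ J (x.1, x.2), (x.1 \ J (x.1, x.2), x.2)⟩) ?_ ?_
    · rintro ⟨K, t⟩ hx
      simp only [coe_sigma, Set.mem_sigma_iff, mem_coe, mem_powersetCard] at hx
      obtain ⟨h3, h4, h5, h6⟩ := hJ (K, t) hx.1.2 hx.2
      simp only [coe_sigma, Set.mem_sigma_iff, mem_coe, mem_product, mem_powersetCard, mem_filter,
        mem_univ, true_and]
      refine ⟨h6, ⟨subset_univ _, ?_⟩, subset_union_left⟩
      rw [card_sdiff_of_subset h4, hx.1.2, h5]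
    · rintro ⟨K, t⟩ hx ⟨K', t'⟩ hx' he
      simp only [coe_sigma, Set.mem_sigma_iff, mem_coe, mem_powersetCard] at hx hx'
      obtain ⟨h3, h4, h5, h6⟩ := hJ (K, t) hx.1.2 hx.2
      obtain ⟨h3', h4', h5', h6'⟩ := hJ (K', t') hx'.1.2 hx'.2
      simp only [Sigma.mk.injEq, heq_eq_eq, Prod.mk.injEq] at he
      obtain ⟨e1, e2, e3⟩ := he
      subst e3
      have e4 : J (K, t) = J (K', t) := by
        have d1 : Disjoint (supp t) (J (K, t)) := h3.mono_right h4
        have d2 : Disjoint (supp t) (J (K', t)) := h3'.mono_right h4'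
        have f1 : (supp t ∪ J (K, t)) \ supp t = J (K, t) := union_sdiff_cancel_left d1
        have f2 : (supp t ∪ J (K', t)) \ supp t = J (K', t) := union_sdiff_cancel_left d2
        rw [← f1, ← f2, e1]
      have e5 : K = K' := by
        have g1 : J (K, t) ⊆ K := h4
        have g2 : J (K', t) ⊆ K' := h4'
        rw [← sdiff_union_of_subset g1, ← sdiff_union_of_subset g2, e2, e4]
      subst e5
      rfl
  rw [h1]
  refine h2.trans ?_
  rw [card_sigma]
  calc ∑ S ∈ B8, (((univ : Finset (Fin n)).powersetCard (13 - j)) ×ˢ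
        (univ.filter fun t : τ => supp t ⊆ S)).card
      ≤ ∑ S ∈ B8, n.choose (13 - j) * c := by
        apply sum_le_sum
        intro S hS
        rw [card_product, card_powersetCard, card_univ, Fintype.card_fin]
        exact Nat.mul_le_mul_left _ (hc S hS)
    _ = c * (B8.card * n.choose (13 - j)) := by
        rw [sum_const, smul_eq_mul]; ring

theorem sum_Bad2_le {n : ℕ} (H : Finset (Finset (Fin n))) :
    ∑ K ∈ univ.powersetCard 13, (Bad2 H K).card ≤ 64 * ((bad8 H).card * n ^ 7) := by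
  classical
  have h := sum_bad_le (fun p : Fin n × Fin n => ({p.1, p.2} : Finset (Fin n)))
    (Bad2 H) (bad8 H) 6 64 ?_ ?_
  · refine h.trans ?_
    exact Nat.mul_le_mul_left _ (Nat.mul_le_mul_left _ (Nat.choose_le_pow n 7))
  · rintro K hK ⟨x, y⟩ hp
    rw [Bad2, mem_filter] at hp
    obtain ⟨-, h2, h3, h1, J, h4, h5, h6⟩ := hp
    refine ⟨?_, J, h4, h5, ?_⟩
    · rw [disjoint_left]
      intro a ha
      rw [mem_insert, mem_singleton] at ha
      rcases ha with rfl | rfl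
      · exact h2
      · exact h3
    · have e : ({x, y} : Finset (Fin n)) ∪ J = insert x (insert y J) := by
        ext a; simp
      show ({x, y} : Finset (Fin n)) ∪ J ∈ bad8 H
      rw [e, bad8, mem_filter, mem_powersetCard]
      refine ⟨⟨subset_univ _, ?_⟩, h6⟩
      have hyJ : y ∉ J := fun h => h3 (h4 h)
      have hxJ : x ∉ insert y J := by
        rw [mem_insert]
        rintro (h | h)
        · exact h1 h
        · exact h2 (h4 h)
      rw [card_insert_of_notMem hxJ, card_insert_of_notMem hyJ, h5]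
  · intro S hS
    rw [bad8, mem_filter, mem_powersetCard] at hS
    calc (univ.filter fun p : Fin n × Fin n => ({p.1, p.2} : Finset (Fin n)) ⊆ S).card
        ≤ (S ×ˢ S).card := by
          apply card_le_card
          rintro ⟨x, y⟩ hp
          rw [mem_filter] at hp
          have := hp.2
          simp only [insert_subset_iff, singleton_subset_iff] at this
          exact mem_product.2 this
      _ = 64 := by rw [card_product, hS.1.2]

theorem sum_Bad4_le {n : ℕ} (H : Finset (Finset (Fin n))) :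
    ∑ K ∈ univ.powersetCard 13, (Bad4 H K).card ≤ 4096 * ((bad8 H).card * n ^ 9) := by
  classical
  have h := sum_bad_le (fun p : Fin n × Fin n × Fin n × Fin n =>
      ({p.1, p.2.1, p.2.2.1, p.2.2.2} : Finset (Fin n)))
    (Bad4 H) (bad8 H) 4 4096 ?_ ?_
  · refine h.trans ?_
    exact Nat.mul_le_mul_left _ (Nat.mul_le_mul_left _ (Nat.choose_le_pow n 9))
  · rintro K hK ⟨x, y, z, w⟩ hp
    rw [Bad4, mem_filter] at hp
    obtain ⟨-, h2, h3, h3', h3'', d1, d2, d3, d4, d5, d6, J, h4, h5, h6⟩ := hp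
    have h1' : ({x, y, z, w} : Finset (Fin n)).card = 4 := by
      rw [card_insert_of_notMem, card_insert_of_notMem, card_insert_of_notMem, card_singleton]
      · simpa using d6
      · simpa using ⟨d4, d5⟩
      · simpa using ⟨d1, d2, d3⟩
    have hd : Disjoint ({x, y, z, w} : Finset (Fin n)) K := by
      rw [disjoint_left]
      intro a ha
      simp only [mem_insert, mem_singleton] at ha
      rcases ha with rfl | rfl | rfl | rfl
      · exact h2
      · exact h3
      · exact h3'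
      · exact h3''
    refine ⟨hd, J, h4, h5, ?_⟩
    show ({x, y, z, w} : Finset (Fin n)) ∪ J ∈ bad8 H
    have e : ({x, y, z, w} : Finset (Fin n)) ∪ J = insert x (insert y (insert z (insert w J))) := by
      ext a; simp
    rw [bad8, mem_filter, mem_powersetCard]
    refine ⟨⟨subset_univ _, ?_⟩, by rw [e]; exact h6⟩
    rw [card_union_of_disjoint (hd.mono_right h4), h5, h1']
  · intro S hS
    rw [bad8, mem_filter, mem_powersetCard] at hS
    calc (univ.filter fun p : Fin n × Fin n × Fin n × Fin n =>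
          ({p.1, p.2.1, p.2.2.1, p.2.2.2} : Finset (Fin n)) ⊆ S).card
        ≤ (S ×ˢ (S ×ˢ (S ×ˢ S))).card := by
          apply card_le_card
          rintro ⟨x, y, z, w⟩ hp
          rw [mem_filter] at hp
          have := hp.2
          simp only [insert_subset_iff, singleton_subset_iff] at this
          exact mem_product.2 ⟨this.1, mem_product.2 ⟨this.2.1, mem_product.2 this.2.2⟩⟩
      _ = 4096 := by rw [card_product, card_product, card_product, hS.1.2]

/-- a positive proportion, in the form `ρ n^m` -/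
theorem indep_count_pow (m : ℕ) : ∃ (ρ : ℝ) (N : ℕ), 0 < ρ ∧ ∀ (n : ℕ)
    (H : Finset (Finset (Fin n))), EvenFive H → N ≤ n → ρ * (n : ℝ) ^ m ≤ (indep m H).card := by
  obtain ⟨N, hmN, hN⟩ := indep_count m
  refine ⟨1 / ((2 : ℝ) ^ m * m.factorial * N.choose m), max N (2 * m), ?_, ?_⟩
  · have : 0 < N.choose m := Nat.choose_pos hmN
    positivity
  · intro n H hH hn
    have h1 := hN n H hH ((le_max_left _ _).trans hn)
    have h2m : 2 * m ≤ n := (le_max_right _ _).trans hn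
    have h3 : (n : ℝ) ^ m ≤ (2 : ℝ) ^ m * m.factorial * n.choose m := by
      have h4 : (n - m + 1) ^ m ≤ n.descFactorial m := by
        have := Nat.pow_sub_le_descFactorial n m
        calc (n - m + 1) ^ m = (n + 1 - m) ^ m := by congr 1; omega
          _ ≤ _ := this
      have h5 : n.descFactorial m = m.factorial * n.choose m := Nat.descFactorial_eq_factorial_mul_choose n m
      have h6 : n ^ m ≤ (2 * (n - m + 1)) ^ m := Nat.pow_le_pow_left (by omega) m
      have h7 : n ^ m ≤ 2 ^ m * (m.factorial * n.choose m) := by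
        calc n ^ m ≤ (2 * (n - m + 1)) ^ m := h6
          _ = 2 ^ m * (n - m + 1) ^ m := by rw [mul_pow]
          _ ≤ 2 ^ m * n.descFactorial m := Nat.mul_le_mul_left _ h4
          _ = _ := by rw [h5]
      have h8 : ((n ^ m : ℕ) : ℝ) ≤ ((2 ^ m * (m.factorial * n.choose m) : ℕ) : ℝ) := by
        exact_mod_cast h7
      push_cast at h8
      linarith
    have hpos : (0 : ℝ) < (2 : ℝ) ^ m * m.factorial * N.choose m := by
      have : 0 < N.choose m := Nat.choose_pos hmN
      positivity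
    rw [div_mul_eq_mul_div, one_mul, div_le_iff₀ hpos]
    have h9 : ((n.choose m : ℕ) : ℝ) ≤ (N.choose m : ℝ) * (indep m H).card := by exact_mod_cast h1
    calc (n : ℝ) ^ m ≤ (2 : ℝ) ^ m * m.factorial * n.choose m := h3
      _ ≤ (2 : ℝ) ^ m * m.factorial * ((N.choose m : ℝ) * (indep m H).card) := by
          apply mul_le_mul_of_nonneg_left h9 (by positivity)
      _ = _ := by ring

theorem exists_root (ε₁ : ℝ) (hε₁ : 0 < ε₁) : ∃ (ε : ℝ) (N : ℕ), 0 < ε ∧ ∀ (n : ℕ)
    (H : Finset (Finset (Fin n))), N ≤ n → EvenFive H →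
      ((bad8 H).card : ℝ) ≤ ε * (n : ℝ) ^ 8 →
      ∃ K : Finset (Fin n), K.card = 13 ∧ (∀ e ⊆ K, e.card = 4 → e ∉ H) ∧
        ((Bad2 H K).card : ℝ) ≤ ε₁ * (n : ℝ) ^ 2 ∧ ((Bad4 H K).card : ℝ) ≤ ε₁ * (n : ℝ) ^ 4 := by
  classical
  obtain ⟨ρ, N, hρ, hN⟩ := indep_count_pow 13
  refine ⟨ε₁ * ρ / 8320, max N 1, by positivity, ?_⟩
  intro n H hn hH hb
  have hnN : N ≤ n := (le_max_left _ _).trans hn
  have hn1 : 1 ≤ n := (le_max_right _ _).trans hn
  have hnR : (0 : ℝ) < (n : ℝ) := by exact_mod_cast hn1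
  have hI := hN n H hH hnN
  by_contra hcon
  push Not at hcon
  -- for every independent K the normalised badness exceeds ε₁
  have key : ∀ K ∈ indep 13 H, ε₁ ≤ ((Bad2 H K).card : ℝ) / (n : ℝ) ^ 2 +
      ((Bad4 H K).card : ℝ) / (n : ℝ) ^ 4 := by
    intro K hK
    rw [indep, mem_filter, mem_powersetCard] at hK
    by_cases h2 : ((Bad2 H K).card : ℝ) ≤ ε₁ * (n : ℝ) ^ 2
    · have h4 := hcon K hK.1.2 hK.2 h2
      have : ε₁ ≤ ((Bad4 H K).card : ℝ) / (n : ℝ) ^ 4 := by
        rw [le_div_iff₀ (by positivity)]; exact h4.le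
      have h0 : 0 ≤ ((Bad2 H K).card : ℝ) / (n : ℝ) ^ 2 := by positivity
      linarith
    · have : ε₁ ≤ ((Bad2 H K).card : ℝ) / (n : ℝ) ^ 2 := by
        rw [le_div_iff₀ (by positivity)]; exact (not_le.1 h2).le
      have h0 : 0 ≤ ((Bad4 H K).card : ℝ) / (n : ℝ) ^ 4 := by positivity
      linarith
  have h1 : ε₁ * (indep 13 H).card ≤ ∑ K ∈ indep 13 H, (((Bad2 H K).card : ℝ) / (n : ℝ) ^ 2 +
      ((Bad4 H K).card : ℝ) / (n : ℝ) ^ 4) := by
    rw [mul_comm, ← nsmul_eq_mul, ← sum_const]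
    exact sum_le_sum key
  have h2 : ∑ K ∈ indep 13 H, (((Bad2 H K).card : ℝ) / (n : ℝ) ^ 2 +
      ((Bad4 H K).card : ℝ) / (n : ℝ) ^ 4) ≤
      ∑ K ∈ univ.powersetCard 13, (((Bad2 H K).card : ℝ) / (n : ℝ) ^ 2 +
      ((Bad4 H K).card : ℝ) / (n : ℝ) ^ 4) := by
    apply sum_le_sum_of_subset_of_nonneg (filter_subset _ _)
    intro K _ _
    positivity
  have h3 : ∑ K ∈ univ.powersetCard 13, (((Bad2 H K).card : ℝ) / (n : ℝ) ^ 2 +
      ((Bad4 H K).card : ℝ) / (n : ℝ) ^ 4) ≤ 4160 * ((bad8 H).card : ℝ) * (n : ℝ) ^ 5 := by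
    rw [sum_add_distrib, ← sum_div, ← sum_div]
    have a2 : ((∑ K ∈ univ.powersetCard 13, (Bad2 H K).card : ℕ) : ℝ) ≤
        ((64 * ((bad8 H).card * n ^ 7) : ℕ) : ℝ) := by exact_mod_cast sum_Bad2_le H
    have a4 : ((∑ K ∈ univ.powersetCard 13, (Bad4 H K).card : ℕ) : ℝ) ≤
        ((4096 * ((bad8 H).card * n ^ 9) : ℕ) : ℝ) := by exact_mod_cast sum_Bad4_le H
    push_cast at a2 a4
    have b2 : (∑ K ∈ univ.powersetCard 13, ((Bad2 H K).card : ℝ)) / (n : ℝ) ^ 2 ≤
        64 * (bad8 H).card * (n : ℝ) ^ 5 := by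
      rw [div_le_iff₀ (by positivity)]
      calc _ ≤ _ := a2
        _ = _ := by ring
    have b4 : (∑ K ∈ univ.powersetCard 13, ((Bad4 H K).card : ℝ)) / (n : ℝ) ^ 4 ≤
        4096 * (bad8 H).card * (n : ℝ) ^ 5 := by
      rw [div_le_iff₀ (by positivity)]
      calc _ ≤ _ := a4
        _ = _ := by ring
    linarith
  have h4 : 4160 * ((bad8 H).card : ℝ) * (n : ℝ) ^ 5 ≤ ε₁ * ρ / 2 * (n : ℝ) ^ 13 := by
    calc 4160 * ((bad8 H).card : ℝ) * (n : ℝ) ^ 5
        ≤ 4160 * (ε₁ * ρ / 8320 * (n : ℝ) ^ 8) * (n : ℝ) ^ 5 := by gcongr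
      _ = ε₁ * ρ / 2 * (n : ℝ) ^ 13 := by ring
  have h5 : ε₁ * (ρ * (n : ℝ) ^ 13) ≤ ε₁ * (indep 13 H).card :=
    mul_le_mul_of_nonneg_left hI hε₁.le
  have h6 : 0 < ε₁ * ρ * (n : ℝ) ^ 13 := by positivity
  nlinarith [h1, h2, h3, h4, h5, h6]

end Pool.Agent.Lib.MP_afdd4d_co.T1S
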