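import Pool.Agent.Lib.MP_afdd4d_co.T1S.Small
import Pool.Agent.Lib.MP_afdd4d_co.T1S.Root
import Pool.Agent.Lib.MP_afdd4d_co.MC.Fin

/-!
MP_afdd4d_co, T1S: stability of the class of even 4-graphs, from the count of 8-sets that are not
tight.
-/

set_option autoImplicit false

namespace Pool.Agent.Lib.MP_afdd4d_co.T1S

open Finset MC

/-- a 4-graph with few windows that are not tight has a colouring with few monochromatic members -/
theorem mono_of_tight (δ : ℝ) (hδ : 0 < δ) : ∃ ε : ℝ, 0 < ε ∧ ∃ N : ℕ, ∀ n : ℕ, N ≤ n →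
    ∀ H : Finset (Finset (Fin n)), EvenFive H → (∀ e ∈ H, e.card = 4) →
    ((bad8 H).card : ℝ) ≤ ε * (n : ℝ) ^ 8 →
    ∃ χ : Fin n → Bool, ((monoF H χ).card : ℝ) ≤ δ * (n : ℝ) ^ 4 := by
  classical
  obtain ⟨ε1, hε1, N1, h1⟩ := mono_small δ hδ
  obtain ⟨ε, N2, hε, h2⟩ := exists_root ε1 hε1
  refine ⟨ε, hε, max N1 N2, fun n hn H hH h4 hb => ?_⟩
  obtain ⟨K, hK, hind, hB2, hB4⟩ := h2 n H ((le_max_right _ _).trans hn) hH hb
  obtain ⟨χ, hχ⟩ := h1 n ((le_max_left _ _).trans hn) H hH h4 K hK hind hB2 hB4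
  refine ⟨χ, ?_⟩
  have e1 : monoF H χ = H.filter fun e => ∀ x ∈ e, ∀ y ∈ e, χ x = χ y := by
    ext e
    simp only [monoF, mem_filter]
  rw [e1]
  convert hχ using 3

/-- five points of an even 4-graph do not span all five 4-sets -/
theorem free_of_even {n : ℕ} {H : Finset (Finset (Fin n))} (hH : EvenFive H)
    (S : Finset (Fin n)) (hS : S.card = 5) : ∃ e ∈ S.powersetCard 4, e ∉ H := by
  by_contra hcon
  push Not at hcon
  have h1 := hH S hS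
  rw [filter_true_of_mem hcon, card_powersetCard, hS] at h1
  exact absurd h1 (by decide)

/-- Stability of the class of even 4-graphs, given the strict bound for windows of 8 points. -/
theorem t1s_of (hs : ∀ ε : ℝ, 0 < ε → ∃ η : ℝ, 0 < η ∧ ∃ N : ℕ, ∀ n : ℕ, N ≤ n →
      ∀ H : Finset (Finset (Fin n)), (∀ e ∈ H, e.card = 4) → EvenFive H →
      (11 / 16 - η) * ((n.choose 4 : ℕ) : ℝ) ≤ (H.card : ℝ) →
      ((bad8 H).card : ℝ) ≤ ε * (n : ℝ) ^ 8) :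
    ∀ ε : ℝ, 0 < ε → ∃ η : ℝ, 0 < η ∧ ∃ N : ℕ, ∀ n : ℕ, N ≤ n →
      ∀ H : Finset (Finset (Fin n)), (∀ e ∈ H, e.card = 4) → EvenFive H →
      (11 / 16 - η) * ((n.choose 4 : ℕ) : ℝ) ≤ (H.card : ℝ) →
      ∃ χ : Fin n → Bool, ∃ M : Fin n → Fin n → Bool,
        ((symmDiff H (Gir χ M)).card : ℝ) ≤ ε * ((n.choose 4 : ℕ) : ℝ) := by
  intro ε hε
  obtain ⟨ε2, hε2, N1, h1⟩ := mono_of_tight (ε / 200000) (by positivity)
  obtain ⟨η1, hη1, N2, h2⟩ := hs ε2 hε2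
  obtain ⟨N3, h3⟩ := mono_bound (ε / 8000) (by positivity)
  refine ⟨min η1 (ε / 8000), lt_min hη1 (by positivity), max (max N1 N2) (max N3 12),
    fun n hn H h4 hH hd => ?_⟩
  have hn1 : N1 ≤ n := (le_max_left _ _).trans ((le_max_left _ _).trans hn)
  have hn2 : N2 ≤ n := (le_max_right _ _).trans ((le_max_left _ _).trans hn)
  have hn3 : N3 ≤ n := (le_max_left _ _).trans ((le_max_right _ _).trans hn)
  have hn4 : 12 ≤ n := (le_max_right _ _).trans ((le_max_right _ _).trans hn)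
  have hc0 : (0 : ℝ) ≤ ((n.choose 4 : ℕ) : ℝ) := Nat.cast_nonneg _
  have hd1 : (11 / 16 - η1) * ((n.choose 4 : ℕ) : ℝ) ≤ (H.card : ℝ) := by
    refine le_trans (mul_le_mul_of_nonneg_right ?_ hc0) hd
    linarith [min_le_left η1 (ε / 8000)]
  obtain ⟨χ, hχ⟩ := h1 n hn1 H hH h4 (h2 n hn2 H h4 hH hd1)
  obtain ⟨M, hM⟩ := h3 n hn3 H h4 (fun S hS => free_of_even hH S hS) χ
  refine ⟨χ, M, ?_⟩
  have hd2 : (11 / 16 - ε / 8000) * ((n.choose 4 : ℕ) : ℝ) ≤ (H.card : ℝ) := by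
    refine le_trans (mul_le_mul_of_nonneg_right ?_ hc0) hd
    linarith [min_le_right η1 (ε / 8000)]
  have hch : (n : ℝ) ^ 4 / 48 ≤ ((n.choose 4 : ℕ) : ℝ) := by
    have h5 := choose4_ge n (by omega)
    have h6 : (12 : ℝ) ≤ n := by exact_mod_cast hn4
    have h7 : 0 ≤ (n : ℝ) ^ 3 := by positivity
    nlinarith [mul_le_mul_of_nonneg_right h6 h7]
  have h5 : ((monoF H χ).card : ℝ) ≤ ε / 4000 * ((n.choose 4 : ℕ) : ℝ) := by
    refine hχ.trans ?_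
    calc ε / 200000 * (n : ℝ) ^ 4 ≤ ε / 4000 * ((n : ℝ) ^ 4 / 48) := by
          have h6 : 0 ≤ ε * (n : ℝ) ^ 4 := by positivity
          nlinarith
      _ ≤ _ := mul_le_mul_of_nonneg_left hch (by positivity)
  have h6 : ((symmDiff H (Gir χ M)).card : ℝ) / 2000 ≤
      (ε / 8000 + ε / 8000 + 7 / 10 * (ε / 4000)) * ((n.choose 4 : ℕ) : ℝ) := by
    nlinarith
  have h7 : 0 ≤ ε * ((n.choose 4 : ℕ) : ℝ) := by positivity
  nlinarith

end Pool.Agent.Lib.MP_afdd4d_co.T1S
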