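import Pool.Agent.Lib.MP_afdd4d_co.T1S.Ramsey
import Pool.Agent.Lib.MP_afdd4d_co.K8.Coc
import Pool.Agent.Lib.MP_afdd4d_co.K8.LowerEven

/-!
MP_afdd4d_co, T1S: an even 4-graph near a 4-graph with few 5-sets which span an odd number of
members.
-/

set_option autoImplicit false

namespace Pool.Agent.Lib.MP_afdd4d_co.T1S

open Finset K8

section near
variable {n : ℕ} (H : Finset (Finset (Fin n)))

/-- the indicator of `H` modulo 2 -/
def zH (Q : Finset (Fin n)) : ZMod 2 := if Q ∈ H then 1 else 0

theorem dl_zH (S : Finset (Fin n)) (hS : S.card = 5) :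
    dl (zH H) S = (((S.powersetCard 4).filter fun e => e ∈ H).card : ZMod 2) := by
  rw [count_erase H S hS, card_filter, Nat.cast_sum]
  unfold dl zH
  refine sum_congr rfl fun x _ => ?_
  split_ifs <;> simp

theorem dl_zH_eq_zero (S : Finset (Fin n)) (hS : S.card = 5) :
    dl (zH H) S = 0 ↔ Even ((S.powersetCard 4).filter fun e => e ∈ H).card := by
  rw [dl_zH H S hS, ZMod.natCast_eq_zero_iff_even]

/-- the value at `Q` of the even 4-graph with the same link at `v` -/
def zv (v : Fin n) (Q : Finset (Fin n)) : ZMod 2 :=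
  if v ∈ Q then zH H Q else zH H Q + dl (zH H) (insert v Q)

theorem zv_even (v : Fin n) (S : Finset (Fin n)) : dl (zv H v) S = 0 := by
  by_cases hv : v ∈ S
  · -- the terms `S.erase x` with `x ≠ v` contain `v`
    have h1 : dl (zv H v) S = zv H v (S.erase v) + ∑ x ∈ S.erase v, zv H v (S.erase x) := by
      unfold dl
      rw [add_sum_erase S (fun x => zv H v (S.erase x)) hv]
    have h2 : ∑ x ∈ S.erase v, zv H v (S.erase x) = ∑ x ∈ S.erase v, zH H (S.erase x) := by
      refine sum_congr rfl fun x hx => ?_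
      rw [mem_erase] at hx
      unfold zv
      rw [if_pos (mem_erase.2 ⟨fun h => hx.1 h.symm, hv⟩)]
    have h3 : zv H v (S.erase v) = zH H (S.erase v) + dl (zH H) S := by
      unfold zv
      rw [if_neg (notMem_erase v S), insert_erase hv]
    have h4 : dl (zH H) S = zH H (S.erase v) + ∑ x ∈ S.erase v, zH H (S.erase x) := by
      unfold dl
      rw [add_sum_erase S (fun x => zH H (S.erase x)) hv]
    rw [h1, h2, h3, h4]
    generalize zH H (S.erase v) = a
    generalize ∑ x ∈ S.erase v, zH H (S.erase x) = b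
    revert a b
    decide
  · have h1 : dl (zv H v) S = dl (zH H) S + ∑ x ∈ S, dl (zH H) ((insert v S).erase x) := by
      unfold dl
      rw [← sum_add_distrib]
      refine sum_congr rfl fun x hx => ?_
      have hxv : x ≠ v := fun h => hv (h ▸ hx)
      have e1 : (insert v S).erase x = insert v (S.erase x) := by
        rw [erase_insert_of_ne hxv.symm]
      unfold zv
      rw [if_neg (fun h => hv (mem_of_mem_erase h)), e1]
      rfl
    have h2 := dl_dl (zH H) (insert v S)
    rw [sum_insert hv, erase_insert hv] at h2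
    rw [h1]
    exact h2

/-- the even 4-graph with the same link at `v` -/
def Ev4 (v : Fin n) : Finset (Finset (Fin n)) :=
  (univ.powersetCard 4).filter fun Q => zv H v Q = 1

theorem Ev4_even (v : Fin n) : EvenFive (Ev4 H v) := by
  intro S hS
  rw [← dl_zH_eq_zero _ S hS, ← zv_even H v S]
  unfold dl
  refine sum_congr rfl fun x hx => ?_
  have hc : (S.erase x).card = 4 := by rw [card_erase_of_mem hx, hS]
  have h1 : S.erase x ∈ Ev4 H v ↔ zv H v (S.erase x) = 1 := by
    rw [Ev4, mem_filter, mem_powersetCard]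
    exact ⟨fun h => h.2, fun h => ⟨⟨subset_univ _, hc⟩, h⟩⟩
  unfold zH
  by_cases h2 : zv H v (S.erase x) = 1
  · rw [if_pos (h1.2 h2), h2]
  · rw [if_neg (fun h => h2 (h1.1 h))]
    revert h2
    generalize zv H v (S.erase x) = a
    revert a
    decide

/-- the 5-sets which span an odd number of members -/
def odd5 : Finset (Finset (Fin n)) :=
  (univ.powersetCard 5).filter fun S => Odd ((S.powersetCard 4).filter fun e => e ∈ H).card

theorem symmDiff_Ev4_le (h4 : ∀ e ∈ H, e.card = 4) (v : Fin n) :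
    (symmDiff H (Ev4 H v)).card ≤ ((odd5 H).filter fun S => v ∈ S).card := by
  have key : ∀ Q ∈ symmDiff H (Ev4 H v), Q.card = 4 ∧ v ∉ Q ∧ dl (zH H) (insert v Q) ≠ 0 := by
    intro Q hQ
    have hc : Q.card = 4 := by
      rw [mem_symmDiff] at hQ
      rcases hQ with ⟨h, -⟩ | ⟨h, -⟩
      · exact h4 Q h
      · rw [Ev4, mem_filter, mem_powersetCard] at h
        exact h.1.2
    have h1 : Q ∈ Ev4 H v ↔ zv H v Q = 1 := by
      rw [Ev4, mem_filter, mem_powersetCard]
      exact ⟨fun h => h.2, fun h => ⟨⟨subset_univ _, hc⟩, h⟩⟩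
    have h2 : Q ∈ H ↔ zH H Q = 1 := by
      unfold zH
      split_ifs with h <;> simp [h]
    have h3 : zv H v Q ≠ zH H Q := by
      intro h
      rw [mem_symmDiff, h1, h2, h] at hQ
      tauto
    have hv : v ∉ Q := by
      intro hv
      apply h3
      unfold zv
      rw [if_pos hv]
    refine ⟨hc, hv, fun h => h3 ?_⟩
    unfold zv
    rw [if_neg hv, h, add_zero]
  refine card_le_card_of_injOn (fun Q => insert v Q) ?_ ?_
  · intro Q hQ
    obtain ⟨hc, hv, hd⟩ := key Q hQ
    have h5 : (insert v Q).card = 5 := by rw [card_insert_of_notMem hv, hc]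
    rw [mem_coe, mem_filter, odd5, mem_filter, mem_powersetCard]
    refine ⟨⟨⟨subset_univ _, h5⟩, ?_⟩, mem_insert_self _ _⟩
    rw [← Nat.not_even_iff_odd, ← dl_zH_eq_zero H _ h5]
    exact hd
  · intro Q hQ Q' hQ' h
    have h1 := (key Q hQ).2.1
    have h2 := (key Q' hQ').2.1
    have h3 : insert v Q = insert v Q' := h
    rw [← erase_insert h1, ← erase_insert h2, h3]

/-- there is an even 4-graph near `H` -/
theorem exists_even_near (h4 : ∀ e ∈ H, e.card = 4) (hn : 0 < n) :
    ∃ E : Finset (Finset (Fin n)), (∀ e ∈ E, e.card = 4) ∧ EvenFive E ∧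
      n * (symmDiff H E).card ≤ 5 * (odd5 H).card := by
  by_contra hcon
  push Not at hcon
  have h1 : ∀ v : Fin n, 5 * (odd5 H).card < n * (symmDiff H (Ev4 H v)).card := by
    intro v
    refine hcon (Ev4 H v) ?_ (Ev4_even H v)
    intro e he
    rw [Ev4, mem_filter, mem_powersetCard] at he
    exact he.1.2
  have h2 : ∑ v : Fin n, ((odd5 H).filter fun S => v ∈ S).card = 5 * (odd5 H).card := by
    simp_rw [card_filter]
    rw [sum_comm]
    have h3 : ∀ S ∈ odd5 H, ∑ v : Fin n, (if v ∈ S then 1 else 0) = 5 := by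
      intro S hS
      rw [odd5, mem_filter, mem_powersetCard] at hS
      rw [sum_boole, filter_mem_eq_inter, univ_inter, hS.1.2]
      rfl
    rw [sum_congr rfl h3, sum_const, smul_eq_mul, mul_comm]
  have h3 : ∑ v : Fin n, n * (symmDiff H (Ev4 H v)).card ≤
      n * ∑ v : Fin n, ((odd5 H).filter fun S => v ∈ S).card := by
    rw [mul_sum]
    exact sum_le_sum fun v _ => Nat.mul_le_mul_left _ (symmDiff_Ev4_le H h4 v)
  have h4' : ∑ v : Fin n, (5 * (odd5 H).card) < ∑ v : Fin n, n * (symmDiff H (Ev4 H v)).card :=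
    sum_lt_sum_of_nonempty ⟨⟨0, hn⟩, mem_univ _⟩ fun v _ => h1 v
  rw [sum_const, card_univ, Fintype.card_fin, smul_eq_mul] at h4'
  rw [h2] at h3
  omega

end near

end Pool.Agent.Lib.MP_afdd4d_co.T1S
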