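import Pool.Agent.Lib.MP_c27c22_co.Ramsey

/-!
MP_afdd4d_co, T1S, module M2: independent 7-sets in even 4-graphs.
-/

set_option autoImplicit false

namespace Pool.Agent.Lib.MP_afdd4d_co.T1S

open Finset

/-- every five points span an even number of members of `H` -/
def EvenFive {n : ℕ} (H : Finset (Finset (Fin n))) : Prop :=
  ∀ S : Finset (Fin n), S.card = 5 → Even ((S.powersetCard 4).filter fun e => e ∈ H).card

/-- Ramsey for triples in `Fin n` -/
theorem ramsey_three (m : ℕ) : ∃ N : ℕ, ∀ (n : ℕ) (W : Finset (Fin n)), N ≤ W.card →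
    ∀ f : Finset (Fin n) → Bool, ∃ K ⊆ W, K.card = m ∧ ∃ c, ∀ Z ⊆ K, Z.card = 3 → f Z = c := by
  classical
  obtain ⟨N, hN⟩ := Pool.Agent.Lib.MP_c27c22_co.ramsey_finset 3 m (κ := Bool)
  refine ⟨N, fun n W hW f => ?_⟩
  obtain ⟨Y, hY, hYc, c, hc⟩ := hN (W.map Fin.valEmbedding) (by simpa using hW)
    (fun Z => f (univ.filter fun i : Fin n => (i : ℕ) ∈ Z))
  have key : ∀ Z : Finset ℕ, Z ⊆ W.map Fin.valEmbedding →
      (univ.filter fun i : Fin n => (i : ℕ) ∈ Z).map Fin.valEmbedding = Z := by
    intro Z hZ
    ext k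
    simp only [mem_map, mem_filter, mem_univ, true_and, Fin.valEmbedding_apply]
    constructor
    · rintro ⟨i, hi, rfl⟩
      exact hi
    · intro hk
      obtain ⟨i, _, hi⟩ := mem_map.1 (hZ hk)
      exact ⟨i, by rw [← hi] at hk; exact hk, hi⟩
  refine ⟨univ.filter fun i : Fin n => (i : ℕ) ∈ Y, ?_, ?_, c, ?_⟩
  · intro i hi
    simp only [mem_filter, mem_univ, true_and] at hi
    obtain ⟨j, hj, hji⟩ := mem_map.1 (hY hi)
    have : j = i := Fin.ext hji
    rwa [← this]
  · rw [← card_map Fin.valEmbedding, key Y hY, hYc]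
  · intro Z hZ hZc
    have h1 : Z.map Fin.valEmbedding ⊆ Y := by
      intro k hk
      obtain ⟨i, hi, rfl⟩ := mem_map.1 hk
      have := hZ hi
      simpa using this
    have h2 := hc (Z.map Fin.valEmbedding) h1 (by rw [card_map, hZc])
    have h3 : (univ.filter fun i : Fin n => (i : ℕ) ∈ Z.map Fin.valEmbedding) = Z := by
      ext i
      simp only [mem_filter, mem_univ, true_and, mem_map, Fin.valEmbedding_apply]
      constructor
      · rintro ⟨j, hj, hji⟩
        rwa [← Fin.ext hji]
      · intro hi
        exact ⟨i, hi, rfl⟩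
    rw [h3] at h2
    exact h2

/-- the 4-subsets of `insert x Q`, `|Q| = 4`, `x ∉ Q` -/
theorem even_link {n : ℕ} {H : Finset (Finset (Fin n))} (hH : EvenFive H) {x : Fin n}
    {Q : Finset (Fin n)} (hx : x ∉ Q) (hQ : Q.card = 4) {c : Bool}
    (hc : ∀ Z ⊆ Q, Z.card = 3 → decide (insert x Z ∈ H) = c) : Q ∉ H := by
  classical
  intro hQH
  have h5 : (insert x Q).card = 5 := by rw [card_insert_of_notMem hx, hQ]
  have he := hH (insert x Q) h5
  have hsplit : ((insert x Q).powersetCard 4).filter (fun e => e ∈ H) =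
      insert Q (((Q.powersetCard 3).image (insert x)).filter fun e => e ∈ H) := by
    rw [show (4 : ℕ) = 3 + 1 from rfl, powersetCard_succ_insert hx, filter_union]
    have : Q.powersetCard (3 + 1) = {Q} := by
      rw [show 3 + 1 = Q.card by rw [hQ]]
      exact powersetCard_self Q
    rw [this, filter_singleton, if_pos hQH]
    rfl
  rw [hsplit] at he
  have hnot : Q ∉ ((Q.powersetCard 3).image (insert x)).filter fun e => e ∈ H := by
    intro hmem
    rw [mem_filter, mem_image] at hmem
    obtain ⟨⟨Z, _, hZ⟩, _⟩ := hmem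
    apply hx
    rw [← hZ]
    exact mem_insert_self _ _
  rw [card_insert_of_notMem hnot] at he
  have hcard3 : ((Q.powersetCard 3).image (insert x)).card = 4 := by
    rw [card_image_of_injOn, card_powersetCard, hQ]
    · rfl
    · intro Z1 h1 Z2 h2 h12
      rw [mem_coe, mem_powersetCard] at h1 h2
      have e1 : (insert x Z1).erase x = Z1 := erase_insert (fun h => hx (h1.1 h))
      have e2 : (insert x Z2).erase x = Z2 := erase_insert (fun h => hx (h2.1 h))
      have h12' : insert x Z1 = insert x Z2 := h12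
      rw [← e1, ← e2, h12']
  cases c with
  | true =>
    have : ((Q.powersetCard 3).image (insert x)).filter (fun e => e ∈ H) =
        (Q.powersetCard 3).image (insert x) := by
      rw [filter_eq_self]
      intro e he'
      obtain ⟨Z, hZ, rfl⟩ := mem_image.1 he'
      rw [mem_powersetCard] at hZ
      simpa using hc Z hZ.1 hZ.2
    rw [this, hcard3] at he
    exact absurd he (by decide)
  | false =>
    have : ((Q.powersetCard 3).image (insert x)).filter (fun e => e ∈ H) = ∅ := by
      rw [filter_eq_empty_iff]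
      intro e he'
      obtain ⟨Z, hZ, rfl⟩ := mem_image.1 he'
      rw [mem_powersetCard] at hZ
      simpa using hc Z hZ.1 hZ.2
    rw [this, card_empty] at he
    exact absurd he (by decide)

/-- every set of at least `N` points of an even 4-graph contains an independent `m`-set -/
theorem exists_indep (m : ℕ) : ∃ N : ℕ, m ≤ N ∧ ∀ (n : ℕ) (H : Finset (Finset (Fin n))),
    EvenFive H → ∀ W : Finset (Fin n), N ≤ W.card →
      ∃ K ⊆ W, K.card = m ∧ ∀ e ⊆ K, e.card = 4 → e ∉ H := by
  classical
  obtain ⟨N, hN⟩ := ramsey_three m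
  refine ⟨max m (N + 1), le_max_left _ _, fun n H hH W hW => ?_⟩
  have hWpos : 0 < W.card := by
    have := le_max_right m (N + 1)
    omega
  obtain ⟨x, hx⟩ := card_pos.1 hWpos
  have hW' : N ≤ (W.erase x).card := by
    rw [card_erase_of_mem hx]
    have := le_max_right m (N + 1)
    omega
  obtain ⟨K, hK, hKc, c, hc⟩ := hN n (W.erase x) hW' (fun Z => decide (insert x Z ∈ H))
  refine ⟨K, hK.trans (erase_subset _ _), hKc, fun e he hec => ?_⟩
  have hxe : x ∉ e := fun h => notMem_erase x W (hK (he h))
  exact even_link hH hxe hec (c := c) fun Z hZ hZc => hc Z (hZ.trans he) hZc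

/-- the independent `m`-sets of `H` -/
noncomputable def indep {n : ℕ} (m : ℕ) (H : Finset (Finset (Fin n))) : Finset (Finset (Fin n)) :=
  (univ.powersetCard m).filter fun K => ∀ e ⊆ K, e.card = 4 → e ∉ H

theorem supersets_card_le {n N m : ℕ} (K : Finset (Fin n)) (hK : K.card = m) :
    ((univ.powersetCard N).filter fun W : Finset (Fin n) => K ⊆ W).card ≤
      (n - m).choose (N - m) := by
  classical
  have h1 : ((univ.powersetCard N).filter fun W : Finset (Fin n) => K ⊆ W).card ≤
      ((univ \ K).powersetCard (N - m)).card := by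
    apply card_le_card_of_injOn (fun W => W \ K)
    · intro W hW
      rw [mem_coe, mem_filter, mem_powersetCard] at hW
      rw [mem_coe, mem_powersetCard]
      refine ⟨sdiff_subset_sdiff (subset_univ W) le_rfl, ?_⟩
      rw [card_sdiff_of_subset hW.2, hW.1.2, hK]
    · intro W1 h1 W2 h2 h12
      rw [mem_coe, mem_filter, mem_powersetCard] at h1 h2
      have h12' : W1 \ K = W2 \ K := h12
      rw [← sdiff_union_of_subset h1.2, ← sdiff_union_of_subset h2.2, h12']
  refine h1.trans ?_
  rw [card_powersetCard, card_sdiff_of_subset (subset_univ K), card_univ, Fintype.card_fin, hK]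

/-- a positive proportion of all `m`-sets is independent -/
theorem indep_count (m : ℕ) : ∃ N : ℕ, m ≤ N ∧ ∀ (n : ℕ) (H : Finset (Finset (Fin n))),
    EvenFive H → N ≤ n → n.choose m ≤ N.choose m * (indep m H).card := by
  classical
  obtain ⟨N, hmN, hN⟩ := exists_indep m
  refine ⟨N, hmN, fun n H hH hn => ?_⟩
  -- double counting of the pairs K ⊆ W
  have h1 : n.choose N ≤ ∑ W ∈ univ.powersetCard N,
      ((indep m H).filter fun K => K ⊆ W).card := by
    have h2 : ∑ W ∈ (univ : Finset (Fin n)).powersetCard N, 1 = n.choose N := by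
      rw [sum_const, smul_eq_mul, mul_one, card_powersetCard, card_univ, Fintype.card_fin]
    rw [← h2]
    apply sum_le_sum
    intro W hW
    rw [mem_powersetCard] at hW
    obtain ⟨K, hKW, hKc, hK⟩ := hN n H hH W hW.2.ge
    have h3 : K ∈ (indep m H).filter fun K => K ⊆ W := by
      rw [mem_filter, indep, mem_filter, mem_powersetCard]
      exact ⟨⟨⟨subset_univ _, hKc⟩, hK⟩, hKW⟩
    exact card_pos.2 ⟨K, h3⟩
  have h4 : ∑ W ∈ (univ : Finset (Fin n)).powersetCard N, ((indep m H).filter fun K => K ⊆ W).card =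
      ∑ K ∈ indep m H, ((univ.powersetCard N).filter fun W : Finset (Fin n) => K ⊆ W).card := by
    simp_rw [card_filter]
    exact sum_comm
  have h5 : ∑ K ∈ indep m H, ((univ.powersetCard N).filter fun W : Finset (Fin n) => K ⊆ W).card ≤
      (indep m H).card * (n - m).choose (N - m) := by
    rw [← smul_eq_mul, ← sum_const]
    apply sum_le_sum
    intro K hK
    rw [indep, mem_filter, mem_powersetCard] at hK
    exact supersets_card_le K hK.1.2
  have h6 : n.choose N * N.choose m = n.choose m * (n - m).choose (N - m) :=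
    Nat.choose_mul hmN
  have hpos : 0 < (n - m).choose (N - m) := Nat.choose_pos (by omega)
  have h7 : n.choose m * (n - m).choose (N - m) ≤
      (N.choose m * (indep m H).card) * (n - m).choose (N - m) := by
    rw [← h6]
    calc n.choose N * N.choose m ≤ ((indep m H).card * (n - m).choose (N - m)) * N.choose m :=
          Nat.mul_le_mul_right _ ((h1.trans h4.le).trans h5)
      _ = (N.choose m * (indep m H).card) * (n - m).choose (N - m) := by ring
  exact Nat.le_of_mul_le_mul_right h7 hpos

end Pool.Agent.Lib.MP_afdd4d_co.T1S
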