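import Pool.Agent.Lib.MP_afdd4d_co.T1S.Main
import Pool.Agent.Lib.MP_afdd4d_co.T1S.Near
import Pool.Agent.Lib.MP_afdd4d_co.K8.Marked

/-!
MP_afdd4d_co, T1S: stability for 4-graphs in which few 5-sets span exactly three or five members.
-/

set_option autoImplicit false

namespace Pool.Agent.Lib.MP_afdd4d_co.T1S

open Finset K8 MC

theorem odd5_card_le {n : ℕ} (H : Finset (Finset (Fin n))) :
    (odd5 H).card ≤ T5 H 1 + T5 H 3 + T5 H 5 := by
  classical
  have h1 : odd5 H ⊆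
      (((univ.powersetCard 5).filter fun S => ((S.powersetCard 4).filter fun e => e ∈ H).card = 1) ∪
      ((univ.powersetCard 5).filter fun S => ((S.powersetCard 4).filter fun e => e ∈ H).card = 3)) ∪
      ((univ.powersetCard 5).filter fun S =>
        ((S.powersetCard 4).filter fun e => e ∈ H).card = 5) := by
    intro S hS
    rw [odd5, mem_filter] at hS
    have h2 : ((S.powersetCard 4).filter fun e => e ∈ H).card ≤ 5 := by
      refine (card_filter_le _ _).trans ?_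
      rw [card_powersetCard, (mem_powersetCard.1 hS.1).2]
      decide
    have h3 : ((S.powersetCard 4).filter fun e => e ∈ H).card = 1 ∨
        ((S.powersetCard 4).filter fun e => e ∈ H).card = 3 ∨
        ((S.powersetCard 4).filter fun e => e ∈ H).card = 5 := by
      obtain ⟨k, hk⟩ := hS.2
      omega
    simp only [mem_union, mem_filter]
    tauto
  refine (card_le_card h1).trans ?_
  refine (card_union_le _ _).trans ?_
  refine Nat.add_le_add_right (card_union_le _ _) _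

/-- The bound by the numbers of the 5-sets with one, three and five members. -/
def ProfileBound : Prop :=
  ∀ ε : ℝ, 0 < ε → ∃ N : ℕ, ∀ n : ℕ, N ≤ n → ∀ H : Finset (Finset (Fin n)),
    (∀ e ∈ H, e.card = 4) →
    (H.card : ℝ) / ((n.choose 4 : ℕ) : ℝ) ≤ 11 / 16 +
      ((T5 H 3 : ℝ) + 5 * (T5 H 5 : ℝ) - 3 * (T5 H 1 : ℝ)) / (5 * ((n.choose 5 : ℕ) : ℝ)) + ε

/-- Stability for 4-graphs in which few 5-sets span exactly three or five members, from the
stability for even 4-graphs. -/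
theorem robust_of (hprof : ProfileBound) (ht : ∀ ε : ℝ, 0 < ε → ∃ η : ℝ, 0 < η ∧ ∃ N : ℕ, ∀ n : ℕ, N ≤ n →
      ∀ H : Finset (Finset (Fin n)), (∀ e ∈ H, e.card = 4) → EvenFive H →
      (11 / 16 - η) * ((n.choose 4 : ℕ) : ℝ) ≤ (H.card : ℝ) →
      ∃ χ : Fin n → Bool, ∃ M : Fin n → Fin n → Bool,
        ((symmDiff H (Gir χ M)).card : ℝ) ≤ ε * ((n.choose 4 : ℕ) : ℝ)) :
    ∀ ε : ℝ, 0 < ε → ∃ η : ℝ, 0 < η ∧ ∃ N : ℕ, ∀ n : ℕ, N ≤ n →
      ∀ H : Finset (Finset (Fin n)), (∀ e ∈ H, e.card = 4) →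
      (T5 H 3 : ℝ) + (T5 H 5 : ℝ) ≤ η * ((n.choose 5 : ℕ) : ℝ) →
      (11 / 16 - η) * ((n.choose 4 : ℕ) : ℝ) ≤ (H.card : ℝ) →
      ∃ χ : Fin n → Bool, ∃ M : Fin n → Fin n → Bool,
        ((symmDiff H (Gir χ M)).card : ℝ) ≤ ε * ((n.choose 4 : ℕ) : ℝ) := by
  intro ε hε
  obtain ⟨η0, hη0, N0, h0⟩ := ht (ε / 2) (by positivity)
  set η : ℝ := min (η0 / 7) (ε / 12) with hη
  have hηp : 0 < η := lt_min (by positivity) (by positivity)
  obtain ⟨N1, h1⟩ := hprof η hηp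
  refine ⟨η, hηp, max 5 (max N0 N1), fun n hn H h4 hT hd => ?_⟩
  have hn5 : 5 ≤ n := (le_max_left _ _).trans hn
  have hn0 : N0 ≤ n := (le_max_left _ _).trans ((le_max_right _ _).trans hn)
  have hn1 : N1 ≤ n := (le_max_right _ _).trans ((le_max_right _ _).trans hn)
  set C4 : ℝ := ((n.choose 4 : ℕ) : ℝ) with hC4
  set C5 : ℝ := ((n.choose 5 : ℕ) : ℝ) with hC5
  have hC4p : 0 < C4 := by
    rw [hC4]
    exact_mod_cast Nat.choose_pos (by omega)
  have hC5p : 0 < C5 := by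
    rw [hC5]
    exact_mod_cast Nat.choose_pos hn5
  have hp := h1 n hn1 H h4
  have hT1 : (T5 H 1 : ℝ) ≤ 5 * η * C5 := by
    have h2 : 11 / 16 - η ≤ (H.card : ℝ) / C4 := by
      rw [le_div_iff₀ hC4p]
      exact hd
    have h3 : -(2 * η) ≤ ((T5 H 3 : ℝ) + 5 * (T5 H 5 : ℝ) - 3 * (T5 H 1 : ℝ)) / (5 * C5) := by
      linarith
    rw [le_div_iff₀ (by positivity)] at h3
    have h5 : (0 : ℝ) ≤ (T5 H 3 : ℝ) := Nat.cast_nonneg _
    have h6 : (0 : ℝ) ≤ (T5 H 5 : ℝ) := Nat.cast_nonneg _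
    linarith
  have hodd : ((odd5 H).card : ℝ) ≤ 6 * η * C5 := by
    have h2 : ((odd5 H).card : ℝ) ≤ (T5 H 1 : ℝ) + (T5 H 3 : ℝ) + (T5 H 5 : ℝ) := by
      exact_mod_cast odd5_card_le H
    linarith
  obtain ⟨E, hE4, hE, hEn⟩ := exists_even_near H h4 (by omega)
  have hnR : (0 : ℝ) < n := by exact_mod_cast (by omega : 0 < n)
  have hsd : ((symmDiff H E).card : ℝ) ≤ 6 * η * C4 := by
    have h2 : (n : ℝ) * ((symmDiff H E).card : ℝ) ≤ 5 * ((odd5 H).card : ℝ) := by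
      exact_mod_cast hEn
    have h3 : 5 * C5 ≤ n * C4 := by
      have h6 : n.choose 5 * 5 = n.choose 4 * (n - 4) := Nat.choose_succ_right_eq n 4
      have h7 : n.choose 5 * 5 ≤ n.choose 4 * n := by
        rw [h6]
        exact Nat.mul_le_mul_left _ (Nat.sub_le _ _)
      have h8 : (n.choose 5 : ℝ) * 5 ≤ (n.choose 4 : ℝ) * n := by exact_mod_cast h7
      rw [hC4, hC5]
      linarith
    have h9 : (n : ℝ) * ((symmDiff H E).card : ℝ) ≤ n * (6 * η * C4) := by
      have h10 := mul_le_mul_of_nonneg_left h3 (by positivity : (0 : ℝ) ≤ 6 * η)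
      linarith
    exact le_of_mul_le_mul_left h9 hnR
  have hEc : (H.card : ℝ) ≤ (E.card : ℝ) + ((symmDiff H E).card : ℝ) := by
    have h5 : H ⊆ E ∪ symmDiff H E := by
      intro e he
      by_cases h6 : e ∈ E
      · exact mem_union_left _ h6
      · exact mem_union_right _ (mem_symmDiff.mpr (Or.inl ⟨he, h6⟩))
    exact_mod_cast (card_le_card h5).trans (card_union_le _ _)
  have hη1 : 7 * η ≤ η0 := by
    have := min_le_left (η0 / 7) (ε / 12)
    linarith
  have hη2 : 12 * η ≤ ε := by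
    have := min_le_right (η0 / 7) (ε / 12)
    linarith
  have hEd : (11 / 16 - η0) * C4 ≤ (E.card : ℝ) := by
    have h5 : 7 * η * C4 ≤ η0 * C4 := mul_le_mul_of_nonneg_right hη1 hC4p.le
    linarith
  obtain ⟨χ, M, hM⟩ := h0 n hn0 E hE4 hE hEd
  refine ⟨χ, M, ?_⟩
  have h5 : ((symmDiff H (Gir χ M)).card : ℝ) ≤
      ((symmDiff H E).card : ℝ) + ((symmDiff E (Gir χ M)).card : ℝ) := by
    have h6 := card_le_card (symmDiff_triangle H E (Gir χ M))
    exact_mod_cast h6.trans (card_union_le _ _)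
  have h6 : 12 * η * C4 ≤ ε * C4 := mul_le_mul_of_nonneg_right hη2 hC4p.le
  linarith

end Pool.Agent.Lib.MP_afdd4d_co.T1S
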