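import Pool.Agent.Lib.MP_afdd4d_co.T1S.Robust
import Pool.Agent.Lib.MP_afdd4d_co.T1S.Final
import Pool.Agent.Lib.MP_afdd4d_co.K8.EvFin

/-!
MP_afdd4d_co, T1S: stability for 4-graphs in which few 5-sets span exactly three or five members.
-/

set_option autoImplicit false

namespace Pool.Agent.Lib.MP_afdd4d_co.T1S

open Finset K8 MC

/-- Stability: a 4-graph of density nearly 11/16 in which few 5-sets span exactly three or five
members is close to a Giraud construction. -/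
theorem robust : ∀ ε : ℝ, 0 < ε → ∃ η : ℝ, 0 < η ∧ ∃ N : ℕ, ∀ n : ℕ, N ≤ n →
      ∀ H : Finset (Finset (Fin n)), (∀ e ∈ H, e.card = 4) →
      (T5 H 3 : ℝ) + (T5 H 5 : ℝ) ≤ η * ((n.choose 5 : ℕ) : ℝ) →
      (11 / 16 - η) * ((n.choose 4 : ℕ) : ℝ) ≤ (H.card : ℝ) →
      ∃ χ : Fin n → Bool, ∃ M : Fin n → Fin n → Bool,
        ((symmDiff H (Gir χ M)).card : ℝ) ≤ ε * ((n.choose 4 : ℕ) : ℝ) := by
  refine robust_of (fun ε hε => ?_) t1s
  obtain ⟨N, hN⟩ := K8.profile ε hε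
  exact ⟨N, fun n hn => (hN n hn).1⟩

end Pool.Agent.Lib.MP_afdd4d_co.T1S
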