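import Pool.Agent.Lib.MP_afdd4d_co.T1S.Count

/-!
MP_afdd4d_co, T1S: the real inequalities.
-/

set_option autoImplicit false

namespace Pool.Agent.Lib.MP_afdd4d_co.T1S

open Finset

open Classical in
theorem mono_small (δ : ℝ) (hδ : 0 < δ) : ∃ ε1 : ℝ, 0 < ε1 ∧ ∃ N : ℕ, ∀ n : ℕ, N ≤ n →
    ∀ H : Finset (Finset (Fin n)), EvenFive H → (∀ e ∈ H, e.card = 4) →
    ∀ K : Finset (Fin n), K.card = 13 → (∀ e ⊆ K, e.card = 4 → e ∉ H) →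
    ((Bad2 H K).card : ℝ) ≤ ε1 * (n : ℝ) ^ 2 → ((Bad4 H K).card : ℝ) ≤ ε1 * (n : ℝ) ^ 4 →
    ∃ χ : Fin n → Bool,
      ((H.filter fun e => ∀ x ∈ e, ∀ y ∈ e, χ x = χ y).card : ℝ) ≤ δ * (n : ℝ) ^ 4 := by
  set δ1 : ℝ := δ / 7000 with hδ1
  have hδ1p : 0 < δ1 := by positivity
  obtain ⟨N, hN⟩ := exists_nat_ge (max (26 / δ) (2 / δ1 ^ 2))
  refine ⟨δ1 ^ 2 / 2, by positivity, N, fun n hn H hH h4 K hK hind hB2 hB4 => ?_⟩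
  have hnN : (N : ℝ) ≤ n := by exact_mod_cast hn
  have hn1 : 26 / δ ≤ (n : ℝ) := (le_max_left _ _).trans (hN.trans hnN)
  have hn2 : 2 / δ1 ^ 2 ≤ (n : ℝ) := (le_max_right _ _).trans (hN.trans hnN)
  have hn0 : (0 : ℝ) < n := lt_of_lt_of_le (by positivity) hn1
  have h26 : 26 ≤ δ * n := by
    rw [div_le_iff₀ hδ] at hn1
    linarith
  have h2 : 2 ≤ δ1 ^ 2 * n := by
    rw [div_le_iff₀ (by positivity)] at hn2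
    linarith
  have hU : ∀ J ⊆ K, J.card = 6 → ((UJ H K J).card : ℝ) ≤ δ1 * n := by
    intro J hJ hJc
    have h3 : (((UJ H K J).card ^ 2 : ℕ) : ℝ) ≤ (((Bad2 H K).card + n : ℕ) : ℝ) := by
      exact_mod_cast UJ_sq H K hind J hJ hJc
    push_cast at h3
    have h5 : (n : ℝ) ≤ δ1 ^ 2 / 2 * (n : ℝ) ^ 2 := by nlinarith
    have h6 : ((UJ H K J).card : ℝ) ^ 2 ≤ (δ1 * n) ^ 2 := by
      calc ((UJ H K J).card : ℝ) ^ 2 ≤ (Bad2 H K).card + (n : ℝ) := h3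
        _ ≤ δ1 ^ 2 / 2 * (n : ℝ) ^ 2 + δ1 ^ 2 / 2 * (n : ℝ) ^ 2 := add_le_add hB2 h5
        _ = (δ1 * n) ^ 2 := by ring
    exact (pow_le_pow_iff_left₀ (by positivity) (by positivity) two_ne_zero).1 h6
  have hF : ∀ J ⊆ K, J.card = 4 → ∀ a, ((FJ H K J a).card : ℝ) ≤ δ1 * (n : ℝ) ^ 3 := by
    intro J hJ hJc a
    have h3 : (((FJ H K J a).card ^ 2 : ℕ) : ℝ) ≤ ((n ^ 2 * ((Bad4 H K).card + n ^ 3) : ℕ) : ℝ) := by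
      exact_mod_cast FJ_sq H K hind J hJ hJc a
    push_cast at h3
    have h5 : (n : ℝ) ^ 3 ≤ δ1 ^ 2 / 2 * (n : ℝ) ^ 4 := by
      have h7 : 0 ≤ (n : ℝ) ^ 3 := by positivity
      nlinarith [mul_le_mul_of_nonneg_right h2 h7]
    have h6 : ((FJ H K J a).card : ℝ) ^ 2 ≤ (δ1 * (n : ℝ) ^ 3) ^ 2 := by
      calc ((FJ H K J a).card : ℝ) ^ 2 ≤ (n : ℝ) ^ 2 * ((Bad4 H K).card + (n : ℝ) ^ 3) := h3
        _ ≤ (n : ℝ) ^ 2 * (δ1 ^ 2 / 2 * (n : ℝ) ^ 4 + δ1 ^ 2 / 2 * (n : ℝ) ^ 4) :=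
            mul_le_mul_of_nonneg_left (add_le_add hB4 h5) (by positivity)
        _ = (δ1 * (n : ℝ) ^ 3) ^ 2 := by ring
    exact (pow_le_pow_iff_left₀ (by positivity) (by positivity) two_ne_zero).1 h6
  obtain ⟨χ, hχ⟩ := mono_card H K hH h4 hK δ1 hU hF
  refine ⟨χ, hχ.trans ?_⟩
  have h7 : 0 ≤ (n : ℝ) ^ 3 := by positivity
  have h8 : 13 * (n : ℝ) ^ 3 ≤ δ / 2 * (n : ℝ) ^ 4 := by
    nlinarith [mul_le_mul_of_nonneg_right h26 h7]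
  have h9 : 3146 * δ1 * (n : ℝ) ^ 4 ≤ δ / 2 * (n : ℝ) ^ 4 := by
    apply mul_le_mul_of_nonneg_right _ (by positivity)
    rw [hδ1]
    linarith
  calc 13 * (n : ℝ) ^ 3 + 3146 * δ1 * (n : ℝ) ^ 4 ≤
      δ / 2 * (n : ℝ) ^ 4 + δ / 2 * (n : ℝ) ^ 4 := add_le_add h8 h9
    _ = δ * (n : ℝ) ^ 4 := by ring

end Pool.Agent.Lib.MP_afdd4d_co.T1S
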