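import Pool.Agent.Lib.MP_afdd4d_co.K8.EvOne
import Pool.Agent.Lib.MP_afdd4d_co.T1S.StrTab

/-!
# The strict form of the checks

The check of a base with the number `2 ^ 28` added at all lanes outside of a list.
-/

namespace Pool.Agent.Lib.MP_afdd4d_co.T1S

open K8

/-- The number `s` at the lanes of a list. -/
def mskG (W s : ℕ) (L : List ℕ) : ℕ :=
  @List.rec ℕ (fun _ => ℕ) 0 (fun l _ ih => Nat.lor (Nat.shiftLeft s (Nat.mul W l)) ih) L

theorem point_ar {W n s l : ℕ} (hW : 0 < W) (hs : s < 2 ^ W) (hl : l < 2 ^ n) :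
    Ar W n (s <<< (W * l)) fun b => if idx n b = l then s else 0 := by
  have h1 : ∀ i, Ln W (s <<< (W * l)) i = if i = l then s else 0 := by
    intro i
    have h2 := Ln_cat W 0 s l i (Nat.two_pow_pos _)
    rw [zero_add] at h2
    rw [h2, Ln_zero_left, Ln_small W s hs]
    by_cases h3 : i < l
    · rw [if_pos h3, if_neg (by omega)]
    · rw [if_neg h3]
      by_cases h4 : i = l
      · rw [if_pos h4, if_pos (by omega)]
      · rw [if_neg h4, if_neg (by omega)]
  refine ⟨?_, fun b => by rw [h1]⟩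
  apply lt_of_Ln_eq_zero _ _ _ hW
  intro i hi
  rw [h1, if_neg (by omega)]

theorem mskG_ar {W n s : ℕ} (hW : 0 < W) (hs : s < 2 ^ W) (L : List ℕ) (hL : ∀ l ∈ L, l < 2 ^ n) :
    Ar W n (mskG W s L) fun b => if idx n b ∈ L then s else 0 := by
  induction L with
  | nil =>
    refine (ar_zero (W := W) n).congr fun b => ?_
    rw [if_neg (by simp)]
  | cons l L ih =>
    have h1 := (point_ar (n := n) hW hs (hL l List.mem_cons_self)).or
      (ih fun l' hl' => hL l' (List.mem_cons_of_mem _ hl')) hW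
    refine Ar.congr h1 fun b => ?_
    by_cases h2 : idx n b = l
    · rw [if_pos h2, if_pos (show idx n b ∈ l :: L by rw [h2]; exact List.mem_cons_self)]
      by_cases h3 : idx n b ∈ L
      · rw [if_pos h3, Nat.or_self]
      · rw [if_neg h3, Nat.or_zero]
    · rw [if_neg h2, Nat.zero_or]
      by_cases h3 : idx n b ∈ L
      · rw [if_pos h3, if_pos (List.mem_cons_of_mem _ h3)]
      · rw [if_neg h3, if_neg]
        intro h4
        rcases List.mem_cons.mp h4 with h5 | h5
        · exact h2 h5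
        · exact h3 h5

/-- The list of the lanes of a base in a table. -/
def look (c : ℕ) (T : List (ℕ × List (ℕ × ℕ × ℕ))) : List (ℕ × ℕ × ℕ) :=
  @List.rec (ℕ × List (ℕ × ℕ × ℕ)) (fun _ => List (ℕ × ℕ × ℕ)) []
    (fun p _ ih => @Bool.rec (fun _ => List (ℕ × ℕ × ℕ)) ih p.2 (Nat.beq p.1 c)) T

theorem look_mem (c : ℕ) (T : List (ℕ × List (ℕ × ℕ × ℕ))) (q : ℕ × ℕ × ℕ) (h : q ∈ look c T) :
    ∃ p ∈ T, p.1 = c ∧ q ∈ p.2 := by
  induction T with
  | nil => exact absurd h (List.not_mem_nil)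
  | cons p T ih =>
    have e : look c (p :: T) = @Bool.rec (fun _ => List (ℕ × ℕ × ℕ)) (look c T) p.2
      (Nat.beq p.1 c) := rfl
    rw [e] at h
    cases hb : Nat.beq p.1 c with
    | true =>
      rw [hb] at h
      exact ⟨p, List.mem_cons_self, Nat.eq_of_beq_eq_true hb, h⟩
    | false =>
      rw [hb] at h
      obtain ⟨p', hp', h1⟩ := ih h
      exact ⟨p', List.mem_cons_of_mem _ hp', h1⟩

/-- The lanes of a base. -/
def lns (c : ℕ) : List ℕ :=
  @List.rec (ℕ × ℕ × ℕ) (fun _ => List ℕ) [] (fun q _ ih => q.1 :: ih) (look c TL)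

theorem lns_eq (c : ℕ) : lns c = (look c TL).map fun q => q.1 := by
  unfold lns
  induction look c TL with
  | nil => rfl
  | cons q l ih => rw [List.map_cons, ← ih]

theorem lns_mem (c l : ℕ) (h : l ∈ lns c) : ∃ p ∈ TL, p.1 = c ∧ ∃ q ∈ p.2, q.1 = l := by
  rw [lns_eq, List.mem_map] at h
  obtain ⟨q, hq, h1⟩ := h
  obtain ⟨p, hp, h2, h3⟩ := look_mem c TL q hq
  exact ⟨p, hp, h2, q, h3, h1⟩

theorem TL_lt : (TL.all fun p => p.2.all fun q => decide (q.1 < 2 ^ 15)) = true := by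
  decide +kernel

theorem lns_lt (c l : ℕ) (h : l ∈ lns c) : l < 2 ^ 15 := by
  obtain ⟨p, hp, _, q, hq, rfl⟩ := lns_mem c l h
  have h1 := TL_lt
  rw [List.all_eq_true] at h1
  have h2 := h1 p hp
  rw [List.all_eq_true] at h2
  exact of_decide_eq_true (h2 q hq)

/-- The strict check of a base. -/
noncomputable def oneS (c : ℕ) : Bool :=
  leG 64 15 (Nat.sub (Nat.add (Nat.mul 28 562949953421312) (Nat.mul 8 562949953421312)) (Og.Q5 c))
    (Nat.add (arG 64 (tabG 64 bkE) rowE wd c)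
      (Nat.sub (csG 64 268435456 15) (mskG 64 268435456 (lns c))))

end Pool.Agent.Lib.MP_afdd4d_co.T1S
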