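import Pool.Agent.Lib.MP_afdd4d_co.T1S.Def
import Pool.Agent.Lib.MP_afdd4d_co.K8.Even8

/-!
# Few windows of eight points are not tight

A strict local inequality on the eight-tuples of even 4-graphs bounds the number of the windows of
eight points that are not tight by the distance of the density to `11/16`.
-/

namespace Pool.Agent.Lib.MP_afdd4d_co.T1S

open Finset K8

theorem desc_ge (n k : ℕ) : (n : ℝ) ^ (k + 1) - (n.descFactorial (k + 1) : ℝ) ≤
    (k * (k + 1) / 2 : ℝ) * (n : ℝ) ^ k := by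
  induction k with
  | zero => simp
  | succ k ih =>
    have h1 : (n.descFactorial (k + 1 + 1) : ℝ) ≥
        ((n : ℝ) - (k + 1)) * (n.descFactorial (k + 1) : ℝ) := by
      rw [Nat.descFactorial_succ]
      push_cast
      have h2 : (n : ℝ) - (k + 1) ≤ ((n - (k + 1) : ℕ) : ℝ) := by
        rcases Nat.le_total (k + 1) n with h | h
        · rw [Nat.cast_sub h]; push_cast; exact le_rfl
        · rw [Nat.sub_eq_zero_of_le h]
          have : (n : ℝ) ≤ k + 1 := by exact_mod_cast h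
          push_cast
          linarith
      exact mul_le_mul_of_nonneg_right h2 (Nat.cast_nonneg _)
    have h3 : (n.descFactorial (k + 1) : ℝ) ≤ (n : ℝ) ^ (k + 1) := by
      exact_mod_cast Nat.descFactorial_le_pow _ _
    have h4 : (0 : ℝ) ≤ n := Nat.cast_nonneg _
    have h5 := mul_le_mul_of_nonneg_left ih h4
    have h6 : (0 : ℝ) ≤ (k : ℝ) + 1 := by positivity
    have h7 := mul_le_mul_of_nonneg_left h3 h6
    have e1 : (n : ℝ) ^ (k + 1 + 1) = n * (n : ℝ) ^ (k + 1) := by ring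
    have e2 : (n : ℝ) * ((k * (k + 1) / 2 : ℝ) * (n : ℝ) ^ k) =
        (k * (k + 1) / 2 : ℝ) * (n : ℝ) ^ (k + 1) := by ring
    rw [e2] at h5
    rw [e1]
    push_cast
    nlinarith

section sums
variable {n : ℕ}

/-- The sum of the non-edges of the injective eight-tuples. -/
theorem sum_N8_le (H : Finset (Finset (Fin n))) (h4 : ∀ e ∈ H, e.card = 4) :
    ∑ t ∈ inj (Fin n) (4 + 4), (N8 H t : ℝ) ≤
      70 * ((n : ℝ) ^ 4 * (24 * (((n.choose 4 : ℕ) : ℝ) - (H.card : ℝ)))) := by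
  classical
  set G : Finset (Finset (Fin n)) := (univ.powersetCard 4) \ H with hGdef
  have hG : ∀ s ∈ G, s.card = 4 := by
    intro s hs
    rw [hGdef, Finset.mem_sdiff, Finset.mem_powersetCard] at hs
    exact hs.1.2
  have hHsub : H ⊆ univ.powersetCard 4 := by
    intro e he
    rw [Finset.mem_powersetCard]
    exact ⟨Finset.subset_univ _, h4 e he⟩
  have hcard : (G.card : ℝ) = ((n.choose 4 : ℕ) : ℝ) - (H.card : ℝ) := by
    have h1 := Finset.card_sdiff_add_card_eq_card hHsub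
    rw [Finset.card_powersetCard, Finset.card_univ, Fintype.card_fin] at h1
    have h2 : ((G.card + H.card : ℕ) : ℝ) = ((n.choose 4 : ℕ) : ℝ) := by exact_mod_cast h1
    push_cast at h2
    linarith
  have hS : ∑ t ∈ inj (Fin n) (4 + 4), D4 H (fun i => t (Fin.castAdd 4 i)) ≤
      (n : ℝ) ^ (4 + 4 - 4) * (((4 : ℕ).factorial : ℝ) * (G.card : ℝ)) := by
    have h1 := sum_inj_le_pow (V := Fin n) 4 4 (D4 H) (D4_nonneg H)
    rw [Fintype.card_fin] at h1
    refine le_trans h1 ?_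
    refine mul_le_mul_of_nonneg_left ?_ (by positivity)
    refine sum_inj_le_edges 4 G hG (D4 H) (D4_le_one H) ?_
    intro b hb hbG
    unfold D4
    have hc : (univ.image b).card = 4 := by
      rw [Finset.card_image_of_injective _ hb, Finset.card_univ, Fintype.card_fin]
    have hin : univ.image b ∈ H := by
      by_contra hno
      apply hbG
      rw [hGdef, Finset.mem_sdiff, Finset.mem_powersetCard]
      exact ⟨⟨Finset.subset_univ _, hc⟩, hno⟩
    rw [if_neg (not_not.mpr hin)]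
  rw [sum_N8]
  refine mul_le_mul_of_nonneg_left ?_ (by norm_num)
  rw [← hcard]
  have e : ((4 : ℕ).factorial : ℝ) = 24 := by norm_num [Nat.factorial]
  rw [e] at hS
  exact hS

open Classical in
/-- The tuples of the windows that are not tight. -/
theorem bad8_le (H : Finset (Finset (Fin n))) : (bad8 H).card ≤
    ((inj (Fin n) (4 + 4)).filter fun t => ¬ Tight H (univ.image t)).card := by
  have h1 : bad8 H ⊆ (((inj (Fin n) (4 + 4)).filter fun t => ¬ Tight H (univ.image t)).image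
      fun t => univ.image t) := by
    intro S hS
    unfold bad8 at hS
    rw [Finset.mem_filter, Finset.mem_powersetCard] at hS
    obtain ⟨⟨_, hc⟩, hT⟩ := hS
    have hi := Finset.image_orderEmbOfFin_univ S hc
    rw [Finset.mem_image]
    refine ⟨S.orderEmbOfFin hc, ?_, hi⟩
    rw [Finset.mem_filter, mem_inj]
    refine ⟨(S.orderEmbOfFin hc).injective, ?_⟩
    rw [hi]
    exact hT
  exact le_trans (Finset.card_le_card h1) Finset.card_image_le

end sums

open Classical in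
/-- The number of windows that are not tight. -/
theorem bad8_sum (κ5 : Kern 5) (κ6 : Kern 6) (a Lo s : ℤ) (ha : 0 < a) (hs : 0 ≤ s)
    (hlam : (5 / 16 : ℝ) * (35 * a) ≤ Lo)
    (h : ∀ (n : ℕ) (H : Finset (Finset (Fin n))), (∀ e ∈ H, e.card = 4) → EvenH n H →
      ∀ t : Fin (7 + 1) → Fin n, Function.Injective t →
        16 * Lo + DS (PS (κ5.f H)) t + PS (κ6.f H) t +
          (if Tight H (univ.image t) then 0 else s) ≤ 8 * a * (N8 H t : ℤ)) :
    ∃ C : ℝ, 0 ≤ C ∧ ∀ (n : ℕ) (H : Finset (Finset (Fin n))), (∀ e ∈ H, e.card = 4) →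
      EvenH n H → (s : ℝ) * ((bad8 H).card : ℝ) ≤
        13440 * a * ((n : ℝ) ^ 4 * (11 / 16 * ((n.choose 4 : ℕ) : ℝ) - (H.card : ℝ))) +
          C * (n : ℝ) ^ 7 := by
  have haR : (0 : ℝ) < a := by exact_mod_cast ha
  have hsR : (0 : ℝ) ≤ s := by exact_mod_cast hs
  set C0 : ℝ := 8 * (42 * κ5.C) + 56 * κ6.C with hC0
  refine ⟨(175 * a + |C0|) * 28, by positivity, fun n H h4 hE => ?_⟩
  set X : ℝ := (n : ℝ) ^ (4 + 4) - (n.descFactorial (4 + 4) : ℝ) with hX
  have hX0 : 0 ≤ X := by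
    rw [hX, sub_nonneg]
    exact_mod_cast Nat.descFactorial_le_pow _ _
  have hX1 : X ≤ 28 * (n : ℝ) ^ 7 := by
    have h1 := desc_ge n 7
    refine le_trans h1 (le_of_eq ?_)
    norm_num
  have hR : -(C0 * X) ≤ ∑ t ∈ inj (Fin n) (4 + 4), (((DS (PS (κ5.f H)) t : ℤ) : ℝ) +
      ((PS (κ6.f H) t : ℤ) : ℝ)) := by
    rw [Finset.sum_add_distrib]
    have h1 := DS_PS_ge (V := Fin n) (fun s u w => ((κ5.f H s u w : ℤ) : ℝ)) κ5.C (κ5.psd H)
      (κ5.bd H)
    have h2 := PS_inj_ge (V := Fin n) (k := 6) 0 (fun s u w => ((κ6.f H s u w : ℤ) : ℝ)) κ6.C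
      (κ6.psd H) (κ6.bd H) id Function.injective_id
    rw [Fintype.card_fin] at h1 h2
    have e1 : ∀ t : Fin (4 + 4) → Fin n, ((DS (m := 7) (PS (κ5.f H)) t : ℤ) : ℝ) =
        DS (m := 7) (PS fun s u w => ((κ5.f H s u w : ℤ) : ℝ)) t := by
      intro t
      rw [cast_DS]
      congr 1
      funext s
      exact cast_PS _ s
    have e2 : ∀ t : Fin (4 + 4) → Fin n, ((PS (k := 6) (κ6.f H) t : ℤ) : ℝ) =
        PS (k := 6) (fun s u w => ((κ6.f H s u w : ℤ) : ℝ)) t := fun t => cast_PS _ t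
    rw [Finset.sum_congr rfl fun t _ => e1 t, Finset.sum_congr rfl fun t _ => e2 t]
    have h3 : -(56 * κ6.C * ((n : ℝ) ^ (4 + 4) - (n.descFactorial (4 + 4) : ℝ))) ≤
        ∑ t ∈ inj (Fin n) (4 + 4), PS (k := 6) (fun s u w => ((κ6.f H s u w : ℤ) : ℝ)) t := by
      refine le_trans (le_of_eq ?_) h2
      norm_num
    rw [hC0, hX]
    linarith
  have hloc : ∑ t ∈ inj (Fin n) (4 + 4), ((16 * (Lo : ℝ)) + (((DS (PS (κ5.f H)) t : ℤ) : ℝ) +
      ((PS (κ6.f H) t : ℤ) : ℝ)) + (if Tight H (univ.image t) then 0 else (s : ℝ))) ≤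
      ∑ t ∈ inj (Fin n) (4 + 4), 8 * (a : ℝ) * (N8 H t : ℝ) := by
    refine Finset.sum_le_sum fun t ht => ?_
    have h1 := h n H h4 hE t (mem_inj.mp ht)
    have h2 : (((16 * Lo + DS (PS (κ5.f H)) t + PS (κ6.f H) t +
        (if Tight H (univ.image t) then 0 else s) : ℤ)) : ℝ) ≤
        ((8 * a * (N8 H t : ℤ) : ℤ) : ℝ) := by exact_mod_cast h1
    push_cast at h2
    linarith
  rw [Finset.sum_add_distrib, Finset.sum_add_distrib, Finset.sum_const, nsmul_eq_mul, card_inj,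
    Fintype.card_fin, ← Finset.mul_sum] at hloc
  have hf : ∑ t ∈ inj (Fin n) (4 + 4), (if Tight H (univ.image t) then 0 else (s : ℝ)) =
      (((inj (Fin n) (4 + 4)).filter fun t => ¬ Tight H (univ.image t)).card : ℝ) * s := by
    rw [Finset.sum_ite, Finset.sum_const_zero, zero_add, Finset.sum_const, nsmul_eq_mul]
  rw [hf] at hloc
  have hb : ((bad8 H).card : ℝ) ≤
      (((inj (Fin n) (4 + 4)).filter fun t => ¬ Tight H (univ.image t)).card : ℝ) := by
    exact_mod_cast bad8_le H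
  have hb' := mul_le_mul_of_nonneg_right hb hsR
  have hN := sum_N8_le H h4
  have hN' := mul_le_mul_of_nonneg_left hN (by positivity : (0 : ℝ) ≤ 8 * (a : ℝ))
  have hch : 24 * ((n.choose 4 : ℕ) : ℝ) ≤ (n : ℝ) ^ 4 := by
    have h1 := Nat.descFactorial_eq_factorial_mul_choose n 4
    have h2 := Nat.descFactorial_le_pow n 4
    rw [h1] at h2
    have h3 : ((4 : ℕ).factorial : ℕ) = 24 := by norm_num [Nat.factorial]
    rw [h3] at h2
    exact_mod_cast h2
  have hn4 : (0 : ℝ) ≤ (n : ℝ) ^ 4 := by positivity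
  have h5 := mul_le_mul_of_nonneg_left hch hn4
  have h6 : (n : ℝ) ^ 4 * (n : ℝ) ^ 4 = (n : ℝ) ^ (4 + 4) := by ring
  rw [h6] at h5
  have h7 := mul_le_mul_of_nonneg_left h5 (by positivity : (0 : ℝ) ≤ 175 * (a : ℝ))
  have hd : (0 : ℝ) ≤ (n.descFactorial (4 + 4) : ℝ) := Nat.cast_nonneg _
  have h8 : 175 * (a : ℝ) * (n.descFactorial (4 + 4) : ℝ) ≤
      16 * (Lo : ℝ) * (n.descFactorial (4 + 4) : ℝ) :=
    mul_le_mul_of_nonneg_right (by linarith) hd
  have h9 : C0 * X ≤ |C0| * X := mul_le_mul_of_nonneg_right (le_abs_self _) hX0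
  have h10 : (175 * (a : ℝ) + |C0|) * X ≤ (175 * a + |C0|) * (28 * (n : ℝ) ^ 7) :=
    mul_le_mul_of_nonneg_left hX1 (by positivity)
  have h11 : 175 * (a : ℝ) * (n : ℝ) ^ (4 + 4) = 175 * a * X +
      175 * a * (n.descFactorial (4 + 4) : ℝ) := by rw [hX]; ring
  have h12 : 175 * (a : ℝ) * ((n : ℝ) ^ 4 * (24 * ((n.choose 4 : ℕ) : ℝ))) =
      4200 * a * ((n : ℝ) ^ 4 * ((n.choose 4 : ℕ) : ℝ)) := by ring
  rw [h12, h11] at h7
  have h13 : 8 * (a : ℝ) * (70 * ((n : ℝ) ^ 4 * (24 * (((n.choose 4 : ℕ) : ℝ) - (H.card : ℝ))))) =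
      13440 * a * ((n : ℝ) ^ 4 * (11 / 16 * ((n.choose 4 : ℕ) : ℝ) - (H.card : ℝ))) +
        4200 * a * ((n : ℝ) ^ 4 * ((n.choose 4 : ℕ) : ℝ)) := by ring
  rw [h13] at hN'
  linarith

open Classical in
/-- Few windows are not tight when the density is near `11/16`. -/
theorem strict8_of (κ5 : Kern 5) (κ6 : Kern 6) (a Lo s : ℤ) (ha : 0 < a) (hs : 0 < s)
    (hlam : (5 / 16 : ℝ) * (35 * a) ≤ Lo)
    (h : ∀ (n : ℕ) (H : Finset (Finset (Fin n))), (∀ e ∈ H, e.card = 4) → EvenH n H →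
      ∀ t : Fin (7 + 1) → Fin n, Function.Injective t →
        16 * Lo + DS (PS (κ5.f H)) t + PS (κ6.f H) t +
          (if Tight H (univ.image t) then 0 else s) ≤ 8 * a * (N8 H t : ℤ)) :
    ∀ ε : ℝ, 0 < ε → ∃ η : ℝ, 0 < η ∧ ∃ N : ℕ, ∀ n : ℕ, N ≤ n →
      ∀ H : Finset (Finset (Fin n)), (∀ e ∈ H, e.card = 4) → EvenFive H →
        (11 / 16 - η) * ((n.choose 4 : ℕ) : ℝ) ≤ (H.card : ℝ) →
          ((bad8 H).card : ℝ) ≤ ε * (n : ℝ) ^ 8 := by
  intro ε hε
  obtain ⟨C, hC, hb⟩ := bad8_sum κ5 κ6 a Lo s ha hs.le hlam h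
  have haR : (0 : ℝ) < a := by exact_mod_cast ha
  have hsR : (0 : ℝ) < s := by exact_mod_cast hs
  refine ⟨s * ε / (2 * 13440 * a), by positivity, Nat.ceil (2 * C / (s * ε)) + 1,
    fun n hn H h4 hE hd => ?_⟩
  have h1 := hb n H h4 hE
  have hn0 : (0 : ℝ) ≤ n := Nat.cast_nonneg _
  have hnC : 2 * C / (s * ε) ≤ n := by
    refine le_trans (Nat.le_ceil _) ?_
    exact_mod_cast le_trans (Nat.le_succ _) hn
  have h2 : 2 * C ≤ s * ε * n := by
    rw [div_le_iff₀ (by positivity)] at hnC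
    linarith
  have hch : ((n.choose 4 : ℕ) : ℝ) ≤ (n : ℝ) ^ 4 := by exact_mod_cast Nat.choose_le_pow n 4
  have hch0 : (0 : ℝ) ≤ ((n.choose 4 : ℕ) : ℝ) := Nat.cast_nonneg _
  set η : ℝ := s * ε / (2 * 13440 * a) with hη
  have hη0 : 0 < η := by positivity
  have e1 : 13440 * (a : ℝ) * η = s * ε / 2 := by
    rw [hη]
    field_simp
  have h3 : 11 / 16 * ((n.choose 4 : ℕ) : ℝ) - (H.card : ℝ) ≤ η * (n : ℝ) ^ 4 := by
    have h4 := mul_le_mul_of_nonneg_left hch hη0.le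
    linarith
  have hn4 : (0 : ℝ) ≤ (n : ℝ) ^ 4 := by positivity
  have h5 := mul_le_mul_of_nonneg_left (mul_le_mul_of_nonneg_left h3 hn4)
    (by positivity : (0 : ℝ) ≤ 13440 * (a : ℝ))
  have e2 : 13440 * (a : ℝ) * ((n : ℝ) ^ 4 * (η * (n : ℝ) ^ 4)) = 13440 * a * η * (n : ℝ) ^ 8 := by
    ring
  rw [e2, e1] at h5
  have h6 := mul_le_mul_of_nonneg_right h2 (by positivity : (0 : ℝ) ≤ (n : ℝ) ^ 7)
  have e3 : (s : ℝ) * ε * n * (n : ℝ) ^ 7 = s * ε * (n : ℝ) ^ 8 := by ring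
  rw [e3] at h6
  have h7 : (s : ℝ) * ((bad8 H).card : ℝ) ≤ s * (ε * (n : ℝ) ^ 8) := by linarith
  exact le_of_mul_le_mul_left h7 hsR

end Pool.Agent.Lib.MP_afdd4d_co.T1S
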